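import Pool.Agent.Boole2.CubeM

set_option linter.unusedSectionVars false
set_option linter.unusedSimpArgs false

open Finset

namespace Pool.Agent.Boole2

variable {ι : Type*} [Fintype ι] [DecidableEq ι]

/-! ### Fourier analysis on the cube -/

theorem card_cube_pos : (0 : ℝ) < 2 ^ Fintype.card ι := by positivity

theorem chi_mul (S : Finset ι) (x y : ι → ℤˣ) :
    chi S x * chi S y = ∏ i ∈ S, (sg (x i) * sg (y i)) := by
  unfold chi; rw [Finset.prod_mul_distrib]

theorem sum_chi (x y : ι → ℤˣ) :
    ∑ S : Finset ι, chi S x * chi S y = if x = y then 2 ^ Fintype.card ι else 0 := by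
  have h1 : ∑ S : Finset ι, chi S x * chi S y = ∏ i, (1 + sg (x i) * sg (y i)) := by
    rw [Finset.prod_one_add, Finset.powerset_univ]
    exact Finset.sum_congr rfl (fun S _ => chi_mul S x y)
  rw [h1]
  split_ifs with h
  · subst h
    have : ∀ i ∈ (univ : Finset ι), 1 + sg (x i) * sg (x i) = 2 := by
      intro i _; rw [sg_mul_self]; norm_num
    rw [Finset.prod_congr rfl this, Finset.prod_const, Finset.card_univ]
  · obtain ⟨i, hi⟩ := Function.ne_iff.mp h
    apply Finset.prod_eq_zero (Finset.mem_univ i)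
    rcases Int.units_eq_one_or (x i) with a | a <;>
    rcases Int.units_eq_one_or (y i) with b | b
    · exact absurd (a.trans b.symm) hi
    · rw [a, b]; simp [sg]
    · rw [a, b]; simp [sg]
    · exact absurd (a.trans b.symm) hi

/-- Parseval -/
theorem parseval (F : (ι → ℤˣ) → ℝ) :
    E (fun x => F x ^ 2) = ∑ S : Finset ι, fc F S ^ 2 := by
  have hN : (2 : ℝ) ^ Fintype.card ι ≠ 0 := by positivity
  have h1 : ∀ S : Finset ι, fc F S ^ 2
      = (∑ x, ∑ y, F x * F y * (chi S x * chi S y)) / (2 ^ Fintype.card ι) ^ 2 := by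
    intro S
    unfold fc E
    rw [div_pow, sq, Finset.sum_mul_sum]
    congr 1
    refine Finset.sum_congr rfl (fun x _ => Finset.sum_congr rfl (fun y _ => ?_))
    ring
  have h2 : ∑ S : Finset ι, ∑ x, ∑ y, F x * F y * (chi S x * chi S y)
      = ∑ x, F x ^ 2 * 2 ^ Fintype.card ι := by
    rw [Finset.sum_comm]
    refine Finset.sum_congr rfl (fun x _ => ?_)
    rw [Finset.sum_comm]
    have h3 : ∀ y, ∑ S : Finset ι, F x * F y * (chi S x * chi S y)
        = if x = y then F x * F y * 2 ^ Fintype.card ι else 0 := by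
      intro y
      rw [← Finset.mul_sum, sum_chi]
      split_ifs <;> ring
    simp only [h3]
    rw [Finset.sum_ite_eq]
    simp only [Finset.mem_univ, if_true]
    ring
  simp only [h1]
  rw [← Finset.sum_div, h2, ← Finset.sum_mul]
  unfold E
  field_simp

theorem fc_sub (F G : (ι → ℤˣ) → ℝ) (S : Finset ι) :
    fc (fun x => F x - G x) S = fc F S - fc G S := by
  unfold fc
  rw [← E_sub]
  congr 1; funext x; ring

theorem chi_flp (i : ι) (S : Finset ι) (x : ι → ℤˣ) :
    chi S (flp i x) = (if i ∈ S then -1 else 1) * chi S x := by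
  unfold chi
  split_ifs with h
  · rw [← Finset.mul_prod_erase S _ h, ← Finset.mul_prod_erase S (fun i => sg (x i)) h,
      flp_same, sg_neg]
    have : ∏ k ∈ S.erase i, sg (flp i x k) = ∏ k ∈ S.erase i, sg (x k) := by
      refine Finset.prod_congr rfl (fun k hk => ?_)
      rw [flp_of_ne (Finset.ne_of_mem_erase hk)]
    rw [this]; ring
  · rw [one_mul]
    refine Finset.prod_congr rfl (fun k hk => ?_)
    rw [flp_of_ne]
    rintro rfl
    exact h hk

theorem fc_flp (F : (ι → ℤˣ) → ℝ) (i : ι) (S : Finset ι) :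
    fc (fun x => F (flp i x)) S = (if i ∈ S then -1 else 1) * fc F S := by
  unfold fc
  rw [← E_flp i (fun x => F (flp i x) * chi S x), ← E_mul]
  congr 1; funext x
  rw [flp_flp, chi_flp]
  split_ifs <;> ring

theorem dirichlet (F : (ι → ℤˣ) → ℝ) :
    ∑ i, E (fun x => (F x - F (flp i x)) ^ 2) = 4 * ∑ S : Finset ι, (S.card : ℝ) * fc F S ^ 2 := by
  have h1 : ∀ i, E (fun x => (F x - F (flp i x)) ^ 2)
      = ∑ S : Finset ι, if i ∈ S then 4 * fc F S ^ 2 else 0 := by
    intro i
    rw [parseval (fun x => F x - F (flp i x))]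
    refine Finset.sum_congr rfl (fun S _ => ?_)
    rw [fc_sub, fc_flp]
    split_ifs <;> ring
  simp only [h1]
  rw [Finset.sum_comm, Finset.mul_sum]
  refine Finset.sum_congr rfl (fun S _ => ?_)
  rw [← Finset.sum_filter, Finset.filter_mem_eq_inter, Finset.univ_inter, Finset.sum_const,
    nsmul_eq_mul]
  ring

/-- global sign change -/
theorem sum_neg_cube (G : (ι → ℤˣ) → ℝ) :
    ∑ x : ι → ℤˣ, G (fun i => - x i) = ∑ x : ι → ℤˣ, G x := by
  let e : (ι → ℤˣ) ≃ (ι → ℤˣ) :=
    { toFun := fun x i => - x i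
      invFun := fun x i => - x i
      left_inv := fun x => by funext i; simp
      right_inv := fun x => by funext i; simp }
  exact e.sum_comp G

theorem fc_odd (F : (ι → ℤˣ) → ℝ) (hF : ∀ x, F (fun i => - x i) = F x) (S : Finset ι)
    (hS : Odd S.card) : fc F S = 0 := by
  have h1 : fc F S = - fc F S := by
    conv_lhs => unfold fc E
    rw [← sum_neg_cube (fun x => F x * chi S x)]
    have h2 : ∀ x : ι → ℤˣ, F (fun i => - x i) * chi S (fun i => - x i) = - (F x * chi S x) := by
      intro x
      rw [hF]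
      have : chi S (fun i => - x i) = - chi S x := by
        unfold chi
        have h3 : ∀ k ∈ S, sg (- x k) = (-1) * sg (x k) := fun k _ => by rw [sg_neg]; ring
        rw [Finset.prod_congr rfl h3, Finset.prod_mul_distrib, Finset.prod_const, hS.neg_one_pow]
        ring
      rw [this]; ring
    simp only [h2]
    rw [Finset.sum_neg_distrib, neg_div]
    rfl
  linarith

/-! ### linear forms and quadratic forms -/

/-- linear form -/
noncomputable def lf (v : ι → ℝ) (x : ι → ℤˣ) : ℝ := ∑ i, v i * sg (x i)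

theorem lf_flp (v : ι → ℝ) (i : ι) (x : ι → ℤˣ) : lf v (flp i x) = lf v x - 2 * v i * sg (x i) := by
  unfold lf
  rw [← Finset.add_sum_erase univ _ (Finset.mem_univ i),
    ← Finset.add_sum_erase univ (fun i => v i * sg (x i)) (Finset.mem_univ i), flp_same, sg_neg]
  have : ∑ k ∈ univ.erase i, v k * sg (flp i x k) = ∑ k ∈ univ.erase i, v k * sg (x k) := by
    refine Finset.sum_congr rfl (fun k hk => ?_)
    rw [flp_of_ne (Finset.ne_of_mem_erase hk)]
  rw [this]; ring

theorem E_const (t : ℝ) : E (fun _ : ι → ℤˣ => t) = t := by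
  unfold E
  rw [Finset.sum_const, Finset.card_univ]
  have : Fintype.card (ι → ℤˣ) = 2 ^ Fintype.card ι := by
    rw [Fintype.card_fun]; simp
  rw [this, nsmul_eq_mul]
  push_cast
  field_simp

theorem E_lf_mul (v : ι → ℝ) (i : ι) : E (fun x => sg (x i) * lf v x) = v i := by
  have h1 := E_flp i (fun x => sg (x i) * lf v x)
  have h2 : E (fun x => sg (flp i x i) * lf v (flp i x))
      = 2 * v i - E (fun x => sg (x i) * lf v x) := by
    have h3 : ∀ x : ι → ℤˣ, sg (flp i x i) * lf v (flp i x)
        = 2 * v i - sg (x i) * lf v x := by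
      intro x
      have := sg_mul_self (x i)
      rw [lf_flp, flp_same, sg_neg]
      linear_combination (2 * v i) * this
    simp only [h3]
    rw [E_sub, E_const]
  linarith

theorem E_lf_sq (v : ι → ℝ) : E (fun x => lf v x ^ 2) = ∑ i, v i ^ 2 := by
  have h1 : ∀ x : ι → ℤˣ, lf v x ^ 2 = ∑ i, v i * (sg (x i) * lf v x) := by
    intro x
    rw [sq]
    nth_rewrite 1 [lf]
    rw [Finset.sum_mul]
    exact Finset.sum_congr rfl (fun i _ => by ring)
  have h2 : E (fun x => lf v x ^ 2) = ∑ i, v i * E (fun x => sg (x i) * lf v x) := by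
    simp only [h1]
    unfold E
    rw [Finset.sum_comm, Finset.sum_div]
    refine Finset.sum_congr rfl (fun i _ => ?_)
    rw [← Finset.mul_sum, mul_div_assoc]
  rw [h2]
  refine Finset.sum_congr rfl (fun i _ => ?_)
  rw [E_lf_mul]; ring

theorem qf_flp (A : ι → ι → ℝ) (hA : SZ A) (i : ι) (x : ι → ℤˣ) :
    qf A (flp i x) = qf A x - 2 * (sg (x i) * lf (A i) x) := by
  unfold qf
  have e1 : ∀ x : ι → ℤˣ, ∑ k, ∑ l, A k l * sg (x k) * sg (x l) = ∑ k, sg (x k) * lf (A k) x := by
    intro x
    refine Finset.sum_congr rfl (fun k _ => ?_)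
    unfold lf
    rw [Finset.mul_sum]
    exact Finset.sum_congr rfl (fun l _ => by ring)
  rw [e1, e1]
  have h2 : ∀ k, k ≠ i → sg (flp i x k) * lf (A k) (flp i x)
      = sg (x k) * lf (A k) x - 2 * sg (x i) * (A i k * sg (x k)) := by
    intro k hk
    rw [flp_of_ne hk, lf_flp, hA.symm k i]
    ring
  have h3 : sg (flp i x i) * lf (A i) (flp i x) = - (sg (x i) * lf (A i) x) := by
    rw [flp_same, sg_neg, lf_flp, hA.diag]
    ring
  rw [← Finset.add_sum_erase univ _ (Finset.mem_univ i),
    ← Finset.add_sum_erase univ (fun k => sg (x k) * lf (A k) x) (Finset.mem_univ i), h3]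
  have h4 : ∑ k ∈ univ.erase i, sg (flp i x k) * lf (A k) (flp i x)
      = ∑ k ∈ univ.erase i, sg (x k) * lf (A k) x
        - 2 * sg (x i) * ∑ k ∈ univ.erase i, A i k * sg (x k) := by
    rw [Finset.mul_sum, ← Finset.sum_sub_distrib]
    exact Finset.sum_congr rfl (fun k hk => h2 k (Finset.ne_of_mem_erase hk))
  have h5 : ∑ k ∈ univ.erase i, A i k * sg (x k) = lf (A i) x := by
    unfold lf
    rw [← Finset.add_sum_erase univ _ (Finset.mem_univ i), hA.diag]
    ring
  rw [h4, h5]
  ring

theorem E_sum (s : Finset ι) (G : ι → (ι → ℤˣ) → ℝ) :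
    E (fun x => ∑ i ∈ s, G i x) = ∑ i ∈ s, E (G i) := by
  unfold E
  rw [Finset.sum_comm, Finset.sum_div]

theorem qf_eq (A : ι → ι → ℝ) (x : ι → ℤˣ) : qf A x = (1/2) * ∑ i, sg (x i) * lf (A i) x := by
  unfold qf
  congr 1
  refine Finset.sum_congr rfl (fun k _ => ?_)
  unfold lf
  rw [Finset.mul_sum]
  exact Finset.sum_congr rfl (fun l _ => by ring)

theorem E_qf (A : ι → ι → ℝ) (hA : SZ A) : E (qf A) = 0 := by
  have h1 : qf A = fun x => (1/2) * ∑ i, sg (x i) * lf (A i) x := by
    funext x; exact qf_eq A x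
  rw [h1, E_mul, E_sum]
  have h2 : ∀ i, E (fun x => sg (x i) * lf (A i) x) = 0 := by
    intro i; rw [E_lf_mul, hA.diag]
  simp [h2]

theorem E_qf_diff (A : ι → ι → ℝ) (hA : SZ A) (i : ι) :
    E (fun x => (qf A x - qf A (flp i x)) ^ 2) = 4 * th A i := by
  have h1 : ∀ x : ι → ℤˣ, (qf A x - qf A (flp i x)) ^ 2 = 4 * lf (A i) x ^ 2 := by
    intro x
    have := sg_mul_self (x i)
    rw [qf_flp A hA]
    linear_combination (4 * lf (A i) x ^ 2) * this
  simp only [h1]
  rw [E_mul, E_lf_sq]
  rfl

theorem E_qf_sq (A : ι → ι → ℝ) (hA : SZ A) : E (fun x => qf A x ^ 2) = nsq A := by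
  have h0 : ∀ x : ι → ℤˣ, qf A x ^ 2 = (1/2) * ∑ i, qf A x * (sg (x i) * lf (A i) x) := by
    intro x
    rw [sq]
    nth_rewrite 2 [qf_eq]
    rw [← Finset.mul_sum]; ring
  simp only [h0]
  rw [E_mul, E_sum]
  unfold nsq
  congr 1
  refine Finset.sum_congr rfl (fun i _ => ?_)
  have h1 : ∀ x : ι → ℤˣ, qf A x * (sg (x i) * lf (A i) x)
      = (1/4) * (qf A x - qf A (flp i x)) ^ 2 + (1/4) * (qf A x ^ 2 - qf A (flp i x) ^ 2) := by
    intro x
    rw [qf_flp A hA]
    ring
  simp only [h1]
  rw [E_add, E_mul, E_mul, E_sub, E_qf_diff A hA, E_flp i (fun x => qf A x ^ 2)]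
  unfold th
  ring

theorem E_sq (A : ι → ι → ℝ) (hA : SZ A) (c : ℝ) :
    E (fun x => |c + qf A x| ^ 2) = c ^ 2 + nsq A := by
  have h : ∀ x : ι → ℤˣ, |c + qf A x| ^ 2 = c ^ 2 + ((2 * c) * qf A x + qf A x ^ 2) := by
    intro x; rw [sq_abs]; ring
  simp only [h]
  rw [E_add, E_const, E_add, E_mul, E_qf_sq A hA]
  have := E_qf A hA
  rw [this]; ring

theorem abs_c_le (A : ι → ι → ℝ) (hA : SZ A) (c : ℝ) : |c| ≤ mm A c := by
  have h1 : E (fun x => c + qf A x) = c := by
    rw [E_add, E_const, E_qf A hA]; ring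
  have h2 : E (fun x => c + qf A x) ≤ mm A c := E_mono (fun x => le_abs_self _)
  have h3 : E (fun x => (-1) * (c + qf A x)) ≤ mm A c := by
    apply E_mono
    intro x
    have := neg_abs_le (c + qf A x)
    linarith
  rw [E_mul, h1] at h3
  rw [h1] at h2
  exact abs_le.mpr ⟨by linarith, h2⟩

/-- Szarek -/
theorem szarek (v : ι → ℝ) :
    ∑ i, v i ^ 2 ≤ 2 * (E (fun x => |∑ i, v i * sg (x i)|)) ^ 2 := by
  set F : (ι → ℤˣ) → ℝ := fun x => |lf v x| with hF
  have hFe : ∀ x, F (fun i => - x i) = F x := by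
    intro x
    simp only [hF]
    have : lf v (fun i => - x i) = - lf v x := by
      unfold lf
      rw [← Finset.sum_neg_distrib]
      exact Finset.sum_congr rfl (fun i _ => by rw [sg_neg]; ring)
    rw [this, abs_neg]
  have h1 : E (fun x => F x ^ 2) = ∑ i, v i ^ 2 := by
    rw [← E_lf_sq]
    congr 1; funext x
    simp only [hF, sq_abs]
  have h2 : ∑ i, E (fun x => (F x - F (flp i x)) ^ 2) ≤ 4 * ∑ i, v i ^ 2 := by
    rw [Finset.mul_sum]
    refine Finset.sum_le_sum (fun i _ => ?_)
    rw [← E_const (ι := ι) (4 * v i ^ 2)]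
    apply E_mono
    intro x
    have h3 : |F x - F (flp i x)| ≤ |lf v x - lf v (flp i x)| := by
      simp only [hF]
      exact abs_abs_sub_abs_le _ _
    have h4 : lf v x - lf v (flp i x) = 2 * v i * sg (x i) := by rw [lf_flp]; ring
    have h5 : (F x - F (flp i x)) ^ 2 ≤ (lf v x - lf v (flp i x)) ^ 2 := sq_le_sq.mpr h3
    rw [h4] at h5
    have := sg_mul_self (x i)
    calc _ ≤ _ := h5
      _ = 4 * v i ^ 2 := by linear_combination (4 * v i ^ 2) * this
  rw [dirichlet] at h2
  rw [parseval] at h1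
  have h6 : fc F ∅ = E F := by
    unfold fc
    congr 1; funext x; simp [chi]
  have h7 : ∀ S : Finset ι, 2 * fc F S ^ 2 - (S.card : ℝ) * fc F S ^ 2
      ≤ if S = ∅ then 2 * fc F S ^ 2 else 0 := by
    intro S
    split_ifs with hS
    · have : (0:ℝ) ≤ (S.card : ℝ) * fc F S ^ 2 := by positivity
      linarith
    · rcases Nat.even_or_odd S.card with he | ho
      · have h8 : 2 ≤ S.card := by
          have h9 : S.card ≠ 0 := by rwa [ne_eq, Finset.card_eq_zero]
          obtain ⟨r, hr⟩ := he
          omega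
        have h9 : (2:ℝ) ≤ S.card := by exact_mod_cast h8
        nlinarith [sq_nonneg (fc F S)]
      · rw [fc_odd F hFe S ho]; simp
  have h8 := Finset.sum_le_sum (fun S (_ : S ∈ (univ : Finset (Finset ι))) => h7 S)
  rw [Finset.sum_sub_distrib, ← Finset.mul_sum, h1, Finset.sum_ite_eq'] at h8
  simp only [Finset.mem_univ, if_true] at h8
  rw [h6] at h8
  have h9 : E (fun x => |∑ i, v i * sg (x i)|) = E F := rfl
  rw [h9]
  linarith

/-- (D0) -/
theorem infl_le (A : ι → ι → ℝ) (hA : SZ A) (c : ℝ) (i : ι) :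
    th A i ≤ 2 * mm A c ^ 2 := by
  have h1 := szarek (A i)
  have h2 : E (fun x => |∑ k, A i k * sg (x k)|) ≤ mm A c := by
    have h3 : E (fun x => |∑ k, A i k * sg (x k)|)
        ≤ E (fun x => (1/2) * (|c + qf A x| + |c + qf A (flp i x)|)) := by
      apply E_mono
      intro x
      have h4 : 2 * |lf (A i) x| = |(c + qf A x) - (c + qf A (flp i x))| := by
        rw [qf_flp A hA]
        have : c + qf A x - (c + (qf A x - 2 * (sg (x i) * lf (A i) x)))
            = 2 * (sg (x i) * lf (A i) x) := by ring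
        rw [this, abs_mul, abs_mul]
        rcases sg_cases (x i) with h | h <;> rw [h] <;> norm_num
      have h5 := abs_sub (c + qf A x) (c + qf A (flp i x))
      have h6 : |∑ k, A i k * sg (x k)| = |lf (A i) x| := rfl
      rw [h6]
      linarith
    rw [E_mul, E_add, E_flp i (fun x => |c + qf A x|)] at h3
    unfold mm
    linarith
  have h0 : 0 ≤ E (fun x => |∑ k, A i k * sg (x k)|) := E_nonneg (fun x => abs_nonneg _)
  unfold th
  nlinarith

/-- (D1) linear part of the merged form -/
theorem merged_linear (A : ι → ι → ℝ) (hA : SZ A) (c : ℝ) {i j : ι} (hij : i ≠ j) (ε : ℤˣ) :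
    th A i + th A j - 2 * A i j ^ 2 + 2 * sg ε * ta A i j
      ≤ 2 * (mm (mgA A i j ε) (c + sg ε * A i j)) ^ 2 := by
  rw [← th_mgA A hA hij ε]
  exact infl_le (mgA A i j ε) (mgA_SZ A hA hij ε) _ i

theorem chi_pair {i j : ι} (hij : i ≠ j) (x : ι → ℤˣ) : chi {i, j} x = sg (x i) * sg (x j) := by
  unfold chi
  rw [Finset.prod_pair hij]

theorem pair_count {a b : ι} (hab : a ≠ b) :
    ∑ i, ∑ j, (if i = j then (0:ℝ) else if ({a, b} : Finset ι) = {i, j} then 1 else 0) = 2 := by
  have h1 : ∀ i j : ι, (if i = j then (0:ℝ) else if ({a, b} : Finset ι) = {i, j} then 1 else 0)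
      = (if i = a then (if j = b then 1 else 0) else 0)
        + (if i = b then (if j = a then 1 else 0) else 0) := by
    intro i j
    by_cases hij : i = j
    · subst hij
      rw [if_pos rfl]
      by_cases h1 : i = a
      · subst h1
        simp [hab]
      · simp only [h1, if_false]
        by_cases h2 : i = b <;> simp [h1, h2]
    · rw [if_neg hij]
      by_cases hS : ({a, b} : Finset ι) = {i, j}
      · rw [if_pos hS]
        have ha : a = i ∨ a = j := by
          have : a ∈ ({i, j} : Finset ι) := by rw [← hS]; simp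
          simpa using this
        have hb : b = i ∨ b = j := by
          have : b ∈ ({i, j} : Finset ι) := by rw [← hS]; simp
          simpa using this
        rcases ha with ha | ha <;> rcases hb with hb | hb
        · exact absurd (ha.trans hb.symm) hab
        · rw [ha, hb]; simp [hij]
        · rw [ha, hb]; simp [hij]
        · exact absurd (ha.trans hb.symm) hab
      · rw [if_neg hS]
        by_cases h1 : i = a
        · by_cases h2 : j = b
          · exact absurd (by rw [h1, h2]) hS
          · subst h1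
            simp [h2, hab]
        · by_cases h2 : i = b
          · by_cases h3 : j = a
            · exact absurd (by rw [h2, h3, Finset.pair_comm]) hS
            · simp [h1, h2, h3, hab.symm]
          · simp [h1, h2]
  simp only [h1, Finset.sum_add_distrib]
  have h2 : ∀ u v : ι, ∑ i, ∑ j, (if i = u then (if j = v then (1:ℝ) else 0) else 0) = 1 := by
    intro u v
    rw [Finset.sum_eq_single u]
    · simp
    · intro k _ hk
      simp [hk]
    · intro h; exact absurd (Finset.mem_univ u) h
  rw [h2, h2]; norm_num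

theorem osum_pairs (g : Finset ι → ℝ) :
    osum (fun i j => g {i, j}) = ∑ S : Finset ι, if S.card = 2 then 2 * g S else 0 := by
  unfold osum
  have h1 : ∀ i j : ι, (if i = j then 0 else g {i, j})
      = ∑ S : Finset ι, g S * (if i = j then (0:ℝ) else if S = {i, j} then 1 else 0) := by
    intro i j
    split_ifs with h
    · simp
    · simp only [mul_ite, mul_one, mul_zero, Finset.sum_ite_eq', Finset.mem_univ, if_true]
  simp only [h1]
  have h2 : ∑ i, ∑ j, ∑ S : Finset ι,
      g S * (if i = j then (0:ℝ) else if S = {i, j} then 1 else 0)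
      = ∑ S : Finset ι, ∑ i, ∑ j,
        g S * (if i = j then (0:ℝ) else if S = {i, j} then 1 else 0) := by
    rw [Finset.sum_comm' (t' := univ) (s' := fun _ => univ) (by simp)]
    rw [Finset.sum_comm]
    simp_rw [Finset.sum_comm (s := (univ : Finset ι)) (t := (univ : Finset (Finset ι)))]
  rw [h2]
  refine Finset.sum_congr rfl (fun S _ => ?_)
  simp only [← Finset.mul_sum]
  split_ifs with hS
  · obtain ⟨a, b, hab, rfl⟩ := Finset.card_eq_two.mp hS
    rw [pair_count hab]; ring
  · have h3 : ∀ i j : ι, (if i = j then (0:ℝ) else if S = {i, j} then 1 else 0) = 0 := by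
      intro i j
      split_ifs with h4 h5
      · rfl
      · exfalso; apply hS; rw [h5, Finset.card_pair h4]
      · rfl
    simp [h3]

/-- (F1) -/
theorem level_two (A : ι → ι → ℝ) (hA : SZ A) (c : ℝ) :
    2 * (nsq A + 2 * c ^ 2 - 2 * mm A c ^ 2) ≤ osum (fun i j => bb A c i j ^ 2) := by
  set F : (ι → ℤˣ) → ℝ := fun x => |c + qf A x| with hF
  have hFe : ∀ x, F (fun i => - x i) = F x := by
    intro x
    simp only [hF]
    have : qf A (fun i => - x i) = qf A x := by
      unfold qf
      congr 1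
      refine Finset.sum_congr rfl (fun i _ => Finset.sum_congr rfl (fun j _ => ?_))
      rw [sg_neg, sg_neg]; ring
    rw [this]
  have h1 : E (fun x => F x ^ 2) = c ^ 2 + nsq A := E_sq A hA c
  have hth : ∑ i, th A i = 2 * nsq A := by unfold th nsq; ring
  have h2 : ∑ i, E (fun x => (F x - F (flp i x)) ^ 2) ≤ 4 * (2 * nsq A) := by
    rw [← hth, Finset.mul_sum]
    refine Finset.sum_le_sum (fun i _ => ?_)
    rw [← E_qf_diff A hA i]
    apply E_mono
    intro x
    have h3 : |F x - F (flp i x)| ≤ |(c + qf A x) - (c + qf A (flp i x))| := by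
      simp only [hF]
      exact abs_abs_sub_abs_le _ _
    have h4 : (c + qf A x) - (c + qf A (flp i x)) = qf A x - qf A (flp i x) := by ring
    rw [h4] at h3
    exact sq_le_sq.mpr h3
  rw [dirichlet] at h2
  rw [parseval] at h1
  have h6 : fc F ∅ = mm A c := by
    unfold fc mm
    congr 1; funext x; simp [chi, hF]
  have hb : osum (fun i j => bb A c i j ^ 2) = osum (fun i j => fc F {i, j} ^ 2) := by
    unfold osum
    refine Finset.sum_congr rfl (fun i _ => Finset.sum_congr rfl (fun j _ => ?_))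
    split_ifs with hij
    · rfl
    · have : bb A c i j = fc F {i, j} := by
        unfold bb fc
        congr 1; funext x
        rw [chi_pair hij]
      show bb A c i j ^ 2 = fc F {i, j} ^ 2
      rw [this]
  rw [hb, osum_pairs (fun S => fc F S ^ 2)]
  have h7 : ∀ S : Finset ι, 4 * fc F S ^ 2 - (S.card : ℝ) * fc F S ^ 2
      ≤ (if S = ∅ then 4 * fc F S ^ 2 else 0) + (if S.card = 2 then 2 * fc F S ^ 2 else 0) := by
    intro S
    by_cases hS : S = ∅
    · subst hS
      simp
    · rw [if_neg hS]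
      rcases Nat.even_or_odd S.card with he | ho
      · by_cases h2' : S.card = 2
        · rw [if_pos h2', h2']
          push_cast
          linarith
        · rw [if_neg h2']
          have h8 : 4 ≤ S.card := by
            have h9 : S.card ≠ 0 := by rwa [ne_eq, Finset.card_eq_zero]
            obtain ⟨r, hr⟩ := he
            omega
          have h9 : (4:ℝ) ≤ S.card := by exact_mod_cast h8
          nlinarith [sq_nonneg (fc F S)]
      · rw [fc_odd F hFe S ho]
        simp
  have h8 := Finset.sum_le_sum (fun S (_ : S ∈ (univ : Finset (Finset ι))) => h7 S)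
  rw [Finset.sum_sub_distrib, ← Finset.mul_sum, h1, Finset.sum_add_distrib,
    Finset.sum_ite_eq'] at h8
  simp only [Finset.mem_univ, if_true] at h8
  rw [h6] at h8
  linarith

end Pool.Agent.Boole2
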