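import Pool.Agent.Boole2.Defs

set_option linter.unusedSectionVars false
set_option linter.unusedSimpArgs false

open Finset

namespace Pool.Agent.Boole2

variable {ι : Type*} [Fintype ι] [DecidableEq ι]

/-! ### Basic facts -/

theorem sg_one : sg (1 : ℤˣ) = 1 := by simp [sg]

theorem sg_neg (u : ℤˣ) : sg (-u) = - sg u := by simp [sg]

theorem sg_mul (u v : ℤˣ) : sg (u * v) = sg u * sg v := by simp [sg]

theorem sg_cases (u : ℤˣ) : sg u = 1 ∨ sg u = -1 := by
  rcases Int.units_eq_one_or u with h | h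
  · left; simp [h, sg]
  · right; simp [h, sg]

theorem sg_mul_self (u : ℤˣ) : sg u * sg u = 1 := by
  rcases sg_cases u with h | h <;> rw [h] <;> norm_num

theorem flp_same (i : ι) (x : ι → ℤˣ) : flp i x i = - x i := by simp [flp]

theorem flp_of_ne {i k : ι} (h : k ≠ i) (x : ι → ℤˣ) : flp i x k = x k := by
  simp [flp, h]

theorem flp_flp (i : ι) (x : ι → ℤˣ) : flp i (flp i x) = x := by
  funext k
  by_cases h : k = i
  · subst h; simp [flp_same]
  · simp [flp_of_ne h]

/-- the flip as an equivalence -/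
def flpE (i : ι) : (ι → ℤˣ) ≃ (ι → ℤˣ) where
  toFun := flp i
  invFun := flp i
  left_inv := flp_flp i
  right_inv := flp_flp i

theorem sum_flp (i : ι) (G : (ι → ℤˣ) → ℝ) : ∑ x, G (flp i x) = ∑ x, G x :=
  (flpE i).sum_comp G

theorem E_flp (i : ι) (G : (ι → ℤˣ) → ℝ) : E (fun x => G (flp i x)) = E G := by
  unfold E; rw [sum_flp]

theorem E_add (F G : (ι → ℤˣ) → ℝ) : E (fun x => F x + G x) = E F + E G := by
  unfold E; rw [Finset.sum_add_distrib, add_div]

theorem E_sub (F G : (ι → ℤˣ) → ℝ) : E (fun x => F x - G x) = E F - E G := by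
  unfold E; rw [Finset.sum_sub_distrib, sub_div]

theorem E_mul (t : ℝ) (F : (ι → ℤˣ) → ℝ) : E (fun x => t * F x) = t * E F := by
  unfold E; rw [← Finset.mul_sum, mul_div_assoc]

theorem E_mono {F G : (ι → ℤˣ) → ℝ} (h : ∀ x, F x ≤ G x) : E F ≤ E G := by
  unfold E
  exact div_le_div_of_nonneg_right (Finset.sum_le_sum (fun x _ => h x)) (by positivity)

theorem E_nonneg {F : (ι → ℤˣ) → ℝ} (h : ∀ x, 0 ≤ F x) : 0 ≤ E F := by
  unfold E
  exact div_nonneg (Finset.sum_nonneg (fun x _ => h x)) (by positivity)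

/-! ### Merging -/

/-- the set of the other indices -/
def others (i j : ι) : Finset ι := (univ.erase i).erase j

theorem mem_others {i j k : ι} : k ∈ others i j ↔ k ≠ j ∧ k ≠ i := by
  simp [others]

theorem sum_split {i j : ι} (hij : i ≠ j) (f : ι → ℝ) :
    ∑ k, f k = f i + f j + ∑ k ∈ others i j, f k := by
  unfold others
  rw [← Finset.add_sum_erase univ f (Finset.mem_univ i),
    ← Finset.add_sum_erase (univ.erase i) f (by simp [hij.symm] : j ∈ univ.erase i)]
  ring

theorem sum2_split {i j : ι} (hij : i ≠ j) (G : ι → ι → ℝ) :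
    ∑ k, ∑ l, G k l = (G i i + G i j + ∑ l ∈ others i j, G i l)
      + (G j i + G j j + ∑ l ∈ others i j, G j l)
      + ∑ k ∈ others i j, (G k i + G k j + ∑ l ∈ others i j, G k l) := by
  rw [sum_split hij, sum_split hij, sum_split hij]
  congr 1
  exact Finset.sum_congr rfl (fun k _ => sum_split hij _)

section vals

variable (A : ι → ι → ℝ) {i j : ι} (ε : ℤˣ)

theorem mgA_row (l : ι) : mgA A i j ε j l = 0 := by simp [mgA]

theorem mgA_col (k : ι) : mgA A i j ε k j = 0 := by simp [mgA]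

theorem mgA_ii : mgA A i j ε i i = 0 := by simp [mgA]

theorem mgA_il {l : ι} (h1 : l ≠ j) (h2 : l ≠ i) (hij : i ≠ j) :
    mgA A i j ε i l = A i l + sg ε * A j l := by simp [mgA, h1, h2, hij]

theorem mgA_ki {k : ι} (h1 : k ≠ j) (h2 : k ≠ i) (hij : i ≠ j) :
    mgA A i j ε k i = A k i + sg ε * A k j := by simp [mgA, h1, h2, hij]

theorem mgA_kl {k l : ι} (h1 : k ≠ j) (h2 : k ≠ i) (h3 : l ≠ j) (h4 : l ≠ i) :
    mgA A i j ε k l = A k l := by simp [mgA, h1, h2, h3, h4]

end vals

theorem mgA_SZ (A : ι → ι → ℝ) (hA : SZ A) {i j : ι} (hij : i ≠ j) (ε : ℤˣ) :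
    SZ (mgA A i j ε) := by
  constructor
  · intro k l
    by_cases hkj : k = j
    · rw [hkj, mgA_row, mgA_col]
    by_cases hlj : l = j
    · rw [hlj, mgA_row, mgA_col]
    by_cases hki : k = i
    · by_cases hli : l = i
      · rw [hki, hli]
      · rw [hki, mgA_il A ε hlj hli hij, mgA_ki A ε hlj hli hij, hA.symm l i, hA.symm l j]
    · by_cases hli : l = i
      · rw [hli, mgA_il A ε hkj hki hij, mgA_ki A ε hkj hki hij, hA.symm k i, hA.symm k j]
      · rw [mgA_kl A ε hkj hki hlj hli, mgA_kl A ε hlj hli hkj hki, hA.symm]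
  · intro k
    by_cases hkj : k = j
    · rw [hkj, mgA_row]
    by_cases hki : k = i
    · rw [hki, mgA_ii]
    · rw [mgA_kl A ε hkj hki hkj hki, hA.diag]

/-- rows that vanish in `A` still vanish after merging (if `k ≠ i`) -/
theorem mgA_row_zero (A : ι → ι → ℝ) (hA : SZ A) {i j k : ι} (hk : ∀ l, A k l = 0) (hki : k ≠ i)
    (ε : ℤˣ) (l : ι) : mgA A i j ε k l = 0 := by
  unfold mgA
  split_ifs with h1 h2 h3
  · rfl
  · rfl
  · rw [hk, hk]; ring
  · exact hk l

theorem ta_split (A : ι → ι → ℝ) (hA : SZ A) {i j : ι} (hij : i ≠ j) :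
    ta A i j = ∑ l ∈ others i j, A i l * A j l := by
  unfold ta
  rw [sum_split hij, hA.diag i, hA.diag j]
  ring

theorem nsq_mgA (A : ι → ι → ℝ) (hA : SZ A) {i j : ι} (hij : i ≠ j) (ε : ℤˣ) :
    nsq (mgA A i j ε) = nsq A - A i j ^ 2 + 2 * sg ε * ta A i j := by
  have hs := sg_mul_self ε
  unfold nsq
  rw [sum2_split hij, sum2_split hij, ta_split A hA hij]
  simp only [mgA_ii, mgA_row, mgA_col, hA.diag]
  have h1 : ∑ l ∈ others i j, mgA A i j ε i l ^ 2
      = ∑ l ∈ others i j, A i l ^ 2 + ∑ l ∈ others i j, A j l ^ 2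
        + 2 * sg ε * ∑ l ∈ others i j, A i l * A j l := by
    rw [Finset.mul_sum, ← Finset.sum_add_distrib, ← Finset.sum_add_distrib]
    refine Finset.sum_congr rfl (fun l hl => ?_)
    rw [mem_others] at hl
    rw [mgA_il A ε hl.1 hl.2 hij]
    linear_combination (A j l ^ 2) * hs
  have h2 : ∑ k ∈ others i j, (mgA A i j ε k i ^ 2 + (0:ℝ) ^ 2 + ∑ l ∈ others i j, mgA A i j ε k l ^ 2)
      = ∑ k ∈ others i j, (A k i ^ 2 + A k j ^ 2 + ∑ l ∈ others i j, A k l ^ 2)
        + 2 * sg ε * ∑ l ∈ others i j, A i l * A j l := by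
    rw [Finset.mul_sum, ← Finset.sum_add_distrib]
    refine Finset.sum_congr rfl (fun k hk => ?_)
    rw [mem_others] at hk
    have h3 : ∑ l ∈ others i j, mgA A i j ε k l ^ 2 = ∑ l ∈ others i j, A k l ^ 2 := by
      refine Finset.sum_congr rfl (fun l hl => ?_)
      rw [mem_others] at hl
      rw [mgA_kl A ε hk.1 hk.2 hl.1 hl.2]
    rw [h3, mgA_ki A ε hk.1 hk.2 hij, hA.symm k i, hA.symm k j]
    linear_combination (A j k ^ 2) * hs
  have h0 : ∑ l ∈ others i j, (0 : ℝ) ^ 2 = 0 := by simp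
  rw [h1, h2, h0, hA.symm j i]
  ring

theorem th_mgA (A : ι → ι → ℝ) (hA : SZ A) {i j : ι} (hij : i ≠ j) (ε : ℤˣ) :
    th (mgA A i j ε) i = th A i + th A j - 2 * A i j ^ 2 + 2 * sg ε * ta A i j := by
  have hs := sg_mul_self ε
  unfold th
  rw [sum_split hij, sum_split hij (fun k => A i k ^ 2), sum_split hij (fun k => A j k ^ 2),
    ta_split A hA hij]
  have h1 : ∑ l ∈ others i j, mgA A i j ε i l ^ 2
      = ∑ l ∈ others i j, A i l ^ 2 + ∑ l ∈ others i j, A j l ^ 2
        + 2 * sg ε * ∑ l ∈ others i j, A i l * A j l := by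
    rw [Finset.mul_sum, ← Finset.sum_add_distrib, ← Finset.sum_add_distrib]
    refine Finset.sum_congr rfl (fun l hl => ?_)
    rw [mem_others] at hl
    rw [mgA_il A ε hl.1 hl.2 hij]
    linear_combination (A j l ^ 2) * hs
  simp only [mgA_ii, mgA_col, hA.diag]
  rw [h1, hA.symm j i]
  ring

theorem mrg_j (i j : ι) (ε : ℤˣ) (x : ι → ℤˣ) : mrg i j ε x j = ε * x i := by simp [mrg]

theorem mrg_ne {i j k : ι} (h : k ≠ j) (ε : ℤˣ) (x : ι → ℤˣ) : mrg i j ε x k = x k := by
  simp [mrg, h]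

theorem qf_mrg (A : ι → ι → ℝ) (hA : SZ A) {i j : ι} (hij : i ≠ j) (ε : ℤˣ) (x : ι → ℤˣ) :
    qf A (mrg i j ε x) = sg ε * A i j + qf (mgA A i j ε) x := by
  have hs := sg_mul_self (x i)
  unfold qf
  rw [sum2_split hij, sum2_split hij]
  simp only [mgA_ii, mgA_row, mgA_col, hA.diag, mrg_j, mrg_ne hij, sg_mul]
  have h1 : ∑ l ∈ others i j, mgA A i j ε i l * sg (x i) * sg (x l)
      = ∑ l ∈ others i j, A i l * sg (x i) * sg (mrg i j ε x l)
        + ∑ l ∈ others i j, A j l * (sg ε * sg (x i)) * sg (mrg i j ε x l) := by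
    rw [← Finset.sum_add_distrib]
    refine Finset.sum_congr rfl (fun l hl => ?_)
    rw [mem_others] at hl
    rw [mgA_il A ε hl.1 hl.2 hij, mrg_ne hl.1]
    ring
  have h2 : ∑ k ∈ others i j, (A k i * sg (mrg i j ε x k) * sg (x i)
        + A k j * sg (mrg i j ε x k) * (sg ε * sg (x i))
        + ∑ l ∈ others i j, A k l * sg (mrg i j ε x k) * sg (mrg i j ε x l))
      = ∑ k ∈ others i j, (mgA A i j ε k i * sg (x k) * sg (x i) + 0 * sg (x k) * sg (x j)
        + ∑ l ∈ others i j, mgA A i j ε k l * sg (x k) * sg (x l)) := by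
    refine Finset.sum_congr rfl (fun k hk => ?_)
    rw [mem_others] at hk
    have h3 : ∑ l ∈ others i j, A k l * sg (mrg i j ε x k) * sg (mrg i j ε x l)
        = ∑ l ∈ others i j, mgA A i j ε k l * sg (x k) * sg (x l) := by
      refine Finset.sum_congr rfl (fun l hl => ?_)
      rw [mem_others] at hl
      rw [mgA_kl A ε hk.1 hk.2 hl.1 hl.2, mrg_ne hk.1, mrg_ne hl.1]
    rw [h3, mgA_ki A ε hk.1 hk.2 hij, mrg_ne hk.1]
    ring
  have h0 : ∑ l ∈ others i j, 0 * sg (x j) * sg (x l) = 0 := by simp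
  rw [h2, h1, h0, hA.symm j i]
  linear_combination (sg ε * A i j) * hs

/-- expectation after merging -/
theorem E_mrg (F : (ι → ℤˣ) → ℝ) {i j : ι} (hij : i ≠ j) (ε : ℤˣ) :
    E (fun x => F (mrg i j ε x)) = E F + sg ε * E (fun x => F x * (sg (x i) * sg (x j))) := by
  have hpt : ∀ x : ι → ℤˣ, F (mrg i j ε x)
      = (1 + sg ε * (sg (x i) * sg (x j))) / 2 * F x
        + (1 - sg ε * (sg (x i) * sg (x j))) / 2 * F (flp j x) := by
    intro x
    by_cases h : x j = ε * x i
    · have h1 : mrg i j ε x = x := by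
        funext k
        by_cases hk : k = j
        · subst hk; rw [mrg_j, h]
        · rw [mrg_ne hk]
      have h2 : sg ε * (sg (x i) * sg (x j)) = 1 := by
        rw [h, sg_mul]
        have a1 := sg_mul_self ε
        have a2 := sg_mul_self (x i)
        calc sg ε * (sg (x i) * (sg ε * sg (x i))) = (sg ε * sg ε) * (sg (x i) * sg (x i)) := by
              ring
          _ = 1 := by rw [a1, a2]; ring
      rw [h1, h2]; ring
    · have h' : x j = - (ε * x i) := by
        rcases Int.units_eq_one_or (x j) with a | a <;>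
        rcases Int.units_eq_one_or (ε * x i) with b | b
        · exact absurd (a.trans b.symm) h
        · rw [a, b]; simp
        · rw [a, b]
        · exact absurd (a.trans b.symm) h
      have h1 : mrg i j ε x = flp j x := by
        funext k
        by_cases hk : k = j
        · subst hk; rw [mrg_j, flp_same, h', neg_neg]
        · rw [mrg_ne hk, flp_of_ne hk]
      have h2 : sg ε * (sg (x i) * sg (x j)) = -1 := by
        rw [h', sg_neg, sg_mul]
        have a1 := sg_mul_self ε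
        have a2 := sg_mul_self (x i)
        calc sg ε * (sg (x i) * -(sg ε * sg (x i))) = -((sg ε * sg ε) * (sg (x i) * sg (x i))) := by
              ring
          _ = -1 := by rw [a1, a2]; ring
      rw [h1, h2]; ring
  have h2 : E (fun x => (1 - sg ε * (sg (x i) * sg (x j))) / 2 * F (flp j x))
      = E (fun x => (1 + sg ε * (sg (x i) * sg (x j))) / 2 * F x) := by
    rw [← E_flp j (fun x => (1 + sg ε * (sg (x i) * sg (x j))) / 2 * F x)]
    congr 1
    funext x
    rw [flp_same, flp_of_ne hij, sg_neg]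
    ring
  calc E (fun x => F (mrg i j ε x))
      = E (fun x => (1 + sg ε * (sg (x i) * sg (x j))) / 2 * F x
        + (1 - sg ε * (sg (x i) * sg (x j))) / 2 * F (flp j x)) := by
        congr 1; funext x; exact hpt x
    _ = E (fun x => (1 + sg ε * (sg (x i) * sg (x j))) / 2 * F x)
        + E (fun x => (1 - sg ε * (sg (x i) * sg (x j))) / 2 * F (flp j x)) := E_add _ _
    _ = E (fun x => (1 + sg ε * (sg (x i) * sg (x j))) / 2 * F x)
        + E (fun x => (1 + sg ε * (sg (x i) * sg (x j))) / 2 * F x) := by rw [h2]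
    _ = E (fun x => F x + sg ε * (F x * (sg (x i) * sg (x j)))) := by
        rw [← E_add]
        congr 1; funext x; ring
    _ = E F + sg ε * E (fun x => F x * (sg (x i) * sg (x j))) := by
        rw [E_add, E_mul]

/-- merging identity: `E|f^ε| = m + ε b_ij` -/
theorem mm_mgA (A : ι → ι → ℝ) (hA : SZ A) (c : ℝ) {i j : ι} (hij : i ≠ j) (ε : ℤˣ) :
    mm (mgA A i j ε) (c + sg ε * A i j) = mm A c + sg ε * bb A c i j := by
  unfold mm bb
  rw [← E_mrg (fun x => |c + qf A x|) hij ε]
  congr 1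
  funext x
  rw [qf_mrg A hA hij ε x, add_assoc]

end Pool.Agent.Boole2
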