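import Mathlib

open Finset

namespace Pool.Agent.Boole2

/-- real value of a sign -/
noncomputable def sg (u : ℤˣ) : ℝ := ((u : ℤ) : ℝ)

variable {ι : Type*} [Fintype ι] [DecidableEq ι]

/-- expectation over the uniform measure on the cube -/
noncomputable def E (F : (ι → ℤˣ) → ℝ) : ℝ := (∑ x, F x) / 2 ^ Fintype.card ι

/-- characters -/
noncomputable def chi (S : Finset ι) (x : ι → ℤˣ) : ℝ := ∏ i ∈ S, sg (x i)

/-- Fourier coefficient -/
noncomputable def fc (F : (ι → ℤˣ) → ℝ) (S : Finset ι) : ℝ := E (fun x => F x * chi S x)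

/-- flip of the `i`-th coordinate -/
def flp (i : ι) (x : ι → ℤˣ) : ι → ℤˣ := Function.update x i (-(x i))

/-- quadratic form `q(x) = (1/2) ∑_{i,j} A_ij x_i x_j` -/
noncomputable def qf (A : ι → ι → ℝ) (x : ι → ℤˣ) : ℝ :=
  (1/2) * ∑ i, ∑ j, A i j * sg (x i) * sg (x j)

/-- `‖q‖² = (1/2) ∑_{i,j} A_ij²` -/
noncomputable def nsq (A : ι → ι → ℝ) : ℝ := (1/2) * ∑ i, ∑ j, A i j ^ 2

/-- symmetric with zero diagonal -/
structure SZ (A : ι → ι → ℝ) : Prop where
  symm : ∀ i j, A i j = A j i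
  diag : ∀ i, A i i = 0

/-- influences (squared row norms) -/
noncomputable def th (A : ι → ι → ℝ) (i : ι) : ℝ := ∑ j, A i j ^ 2

/-- Gram entries (`(A²)_ij` for symmetric `A`) -/
noncomputable def ta (A : ι → ι → ℝ) (i j : ι) : ℝ := ∑ k, A i k * A j k

/-- `E |c + q|` -/
noncomputable def mm (A : ι → ι → ℝ) (c : ℝ) : ℝ := E (fun x => |c + qf A x|)

/-- `b_ij = E |c+q| x_i x_j` -/
noncomputable def bb (A : ι → ι → ℝ) (c : ℝ) (i j : ι) : ℝ :=
  E (fun x => |c + qf A x| * (sg (x i) * sg (x j)))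

/-- substitution `x_j := ε x_i` -/
def mrg (i j : ι) (ε : ℤˣ) (x : ι → ℤˣ) : ι → ℤˣ := Function.update x j (ε * x i)

/-- the merged matrix -/
noncomputable def mgA (A : ι → ι → ℝ) (i j : ι) (ε : ℤˣ) : ι → ι → ℝ := fun k l =>
  if k = j ∨ l = j then 0 else if k = i ∧ l = i then 0
  else if k = i then A i l + sg ε * A j l
  else if l = i then A k i + sg ε * A k j
  else A k l

/-- `w_ij = a_ij² + 2|τ_ij|` -/
noncomputable def ww (A : ι → ι → ℝ) (i j : ι) : ℝ := A i j ^ 2 + 2 * |ta A i j|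

/-- `tr A⁴` -/
noncomputable def T4 (A : ι → ι → ℝ) : ℝ := ∑ i, ∑ j, ta A i j ^ 2

/-- sum over ordered pairs of distinct indices -/
noncomputable def osum (G : ι → ι → ℝ) : ℝ := ∑ i, ∑ j, if i = j then 0 else G i j

end Pool.Agent.Boole2
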