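import Pool.Agent.Boole2.Defs

open Finset

namespace Pool.Agent.Boole2

set_option linter.unusedSectionVars false

variable {ι : Type*} [Fintype ι] [DecidableEq ι]

/-! ### PART B : matrix inequalities -/

theorem ta_self (A : ι → ι → ℝ) (i : ι) : ta A i i = th A i := by
  unfold ta th
  exact Finset.sum_congr rfl fun k _ => by ring

theorem ta_comm (A : ι → ι → ℝ) (i j : ι) : ta A i j = ta A j i := by
  unfold ta
  exact Finset.sum_congr rfl fun k _ => by ring

theorem th_nonneg (A : ι → ι → ℝ) (i : ι) : 0 ≤ th A i :=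
  Finset.sum_nonneg fun _ _ => sq_nonneg _

/-- `u_ij ≤ θ_i + θ_j - 2 a_ij²` for `i ≠ j` -/
theorem u_le (A : ι → ι → ℝ) (hA : SZ A) {i j : ι} (hij : i ≠ j) :
    2 * |ta A i j| ≤ th A i + th A j - 2 * A i j ^ 2 := by
  have h1 : |ta A i j| ≤ ∑ k, |A i k * A j k| := Finset.abs_sum_le_sum_abs _ _
  have h2 : ∑ k ∈ ({i, j} : Finset ι), (A i k ^ 2 + A j k ^ 2 - 2 * |A i k * A j k|)
      ≤ ∑ k, (A i k ^ 2 + A j k ^ 2 - 2 * |A i k * A j k|) := by
    apply Finset.sum_le_univ_sum_of_nonneg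
    intro k
    have := abs_mul (A i k) (A j k)
    nlinarith [sq_abs (A i k), sq_abs (A j k), sq_nonneg (|A i k| - |A j k|)]
  rw [Finset.sum_pair hij] at h2
  have h3 : ∑ k, (A i k ^ 2 + A j k ^ 2 - 2 * |A i k * A j k|)
      = th A i + th A j - 2 * ∑ k, |A i k * A j k| := by
    unfold th
    rw [Finset.mul_sum, ← Finset.sum_add_distrib, ← Finset.sum_sub_distrib]
  rw [h3, hA.diag i, hA.diag j, hA.symm j i] at h2
  simp only [zero_mul, mul_zero, abs_zero] at h2
  linarith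

/-- pointwise bound -/
theorem ww_sq_le (A : ι → ι → ℝ) (hA : SZ A) {i j : ι} (hij : i ≠ j) :
    ww A i j ^ 2 ≤ 4 * ta A i j ^ 2 + 2 * A i j ^ 2 * (th A i + th A j) - 3 * A i j ^ 4 := by
  have h := u_le A hA hij
  have h2 : |ta A i j| ^ 2 = ta A i j ^ 2 := sq_abs _
  have h3 : 0 ≤ A i j ^ 2 := sq_nonneg _
  unfold ww
  nlinarith [mul_le_mul_of_nonneg_left h h3]

theorem sum_sq_mul_th (A : ι → ι → ℝ) :
    ∑ i, ∑ j, A i j ^ 2 * th A i = ∑ i, th A i ^ 2 := by
  refine Finset.sum_congr rfl fun i _ => ?_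
  rw [← Finset.sum_mul]
  change th A i * th A i = _
  ring

theorem sum_sq_mul_th' (A : ι → ι → ℝ) (hA : SZ A) :
    ∑ i, ∑ j, A i j ^ 2 * th A j = ∑ i, th A i ^ 2 := by
  rw [Finset.sum_comm]
  rw [← sum_sq_mul_th A]
  refine Finset.sum_congr rfl fun i _ => Finset.sum_congr rfl fun j _ => ?_
  rw [hA.symm j i]

/-- (W2) -/
theorem W2 (A : ι → ι → ℝ) (hA : SZ A) :
    osum (fun i j => ww A i j ^ 2) ≤ 4 * T4 A - 3 * ∑ i, ∑ j, A i j ^ 4 := by
  have key : osum (fun i j => ww A i j ^ 2) ≤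
      ∑ i, ∑ j, ((4 * ta A i j ^ 2 + 2 * A i j ^ 2 * (th A i + th A j) - 3 * A i j ^ 4)
        - if i = j then 4 * ta A i j ^ 2 else 0) := by
    unfold osum
    refine Finset.sum_le_sum fun i _ => Finset.sum_le_sum fun j _ => ?_
    by_cases h : i = j
    · subst h
      simp only [if_true, hA.diag i]
      norm_num
    · simp only [h, if_false]
      have := ww_sq_le A hA h
      linarith
  refine key.trans (le_of_eq ?_)
  have e1 : ∀ i, ∑ j, (if i = j then 4 * ta A i j ^ 2 else 0) = 4 * th A i ^ 2 := by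
    intro i
    rw [Finset.sum_ite_eq Finset.univ i]
    simp [ta_self]
  have e2 := sum_sq_mul_th A
  have e3 := sum_sq_mul_th' A hA
  calc ∑ i, ∑ j, ((4 * ta A i j ^ 2 + 2 * A i j ^ 2 * (th A i + th A j) - 3 * A i j ^ 4)
        - if i = j then 4 * ta A i j ^ 2 else 0)
      = 4 * (∑ i, ∑ j, ta A i j ^ 2) + 2 * (∑ i, ∑ j, A i j ^ 2 * th A i)
        + 2 * (∑ i, ∑ j, A i j ^ 2 * th A j) - 3 * (∑ i, ∑ j, A i j ^ 4)
        - ∑ i, ∑ j, (if i = j then 4 * ta A i j ^ 2 else 0) := by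
        simp only [Finset.mul_sum, ← Finset.sum_add_distrib, ← Finset.sum_sub_distrib]
        refine Finset.sum_congr rfl fun i _ => Finset.sum_congr rfl fun j _ => ?_
        ring
    _ = 4 * T4 A - 3 * ∑ i, ∑ j, A i j ^ 4 := by
        rw [e2, e3, Finset.sum_congr rfl (fun i _ => e1 i), ← Finset.mul_sum]
        unfold T4
        ring

/-- weighted version of (W2) -/
theorem W2w (A : ι → ι → ℝ) (hA : SZ A) (x : ℝ)
    (hx : ∀ y : ι → ℝ, ∑ i, (∑ j, A i j * y j) ^ 2 ≤ x * ∑ i, y i ^ 2) :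
    osum (fun i j => th A i * ww A i j ^ 2) ≤ 4 * x * ∑ i, th A i ^ 2
      - 3 * ∑ i, ∑ j, th A i * A i j ^ 4 := by
  have hrow : ∀ i, ∑ j, ta A i j ^ 2 ≤ x * th A i := by
    intro i
    have := hx (fun k => A i k)
    refine le_trans (le_of_eq ?_) this
    refine Finset.sum_congr rfl fun j _ => ?_
    rw [ta_comm]
    rfl
  have key : osum (fun i j => th A i * ww A i j ^ 2) ≤
      ∑ i, ∑ j, (th A i * (4 * ta A i j ^ 2 + 2 * A i j ^ 2 * (th A i + th A j) - 3 * A i j ^ 4)
        - if i = j then 4 * th A i * ta A i j ^ 2 else 0) := by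
    unfold osum
    refine Finset.sum_le_sum fun i _ => Finset.sum_le_sum fun j _ => ?_
    by_cases h : i = j
    · subst h
      simp only [if_true, hA.diag i]
      apply le_of_eq
      ring
    · simp only [h, if_false]
      have := mul_le_mul_of_nonneg_left (ww_sq_le A hA h) (th_nonneg A i)
      linarith
  refine key.trans ?_
  have e1 : ∀ i, ∑ j, (if i = j then 4 * th A i * ta A i j ^ 2 else 0) = 4 * th A i ^ 3 := by
    intro i
    rw [Finset.sum_ite_eq Finset.univ i]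
    simp [ta_self]
    ring
  have e2 : ∑ i, ∑ j, A i j ^ 2 * th A i ^ 2 = ∑ i, th A i ^ 3 := by
    refine Finset.sum_congr rfl fun i _ => ?_
    rw [← Finset.sum_mul]
    change th A i * th A i ^ 2 = _
    ring
  have e3 : ∑ i, ∑ j, A i j ^ 2 * th A j ^ 2 = ∑ i, th A i ^ 3 := by
    rw [Finset.sum_comm, ← e2]
    refine Finset.sum_congr rfl fun i _ => Finset.sum_congr rfl fun j _ => ?_
    rw [hA.symm j i]
  have e4 : ∑ i, ∑ j, A i j ^ 2 * (2 * (th A i * th A j)) ≤ 2 * ∑ i, th A i ^ 3 := by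
    calc ∑ i, ∑ j, A i j ^ 2 * (2 * (th A i * th A j))
        ≤ ∑ i, ∑ j, (A i j ^ 2 * th A i ^ 2 + A i j ^ 2 * th A j ^ 2) := by
          refine Finset.sum_le_sum fun i _ => Finset.sum_le_sum fun j _ => ?_
          nlinarith [mul_nonneg (sq_nonneg (A i j)) (sq_nonneg (th A i - th A j))]
      _ = 2 * ∑ i, th A i ^ 3 := by
          simp only [Finset.sum_add_distrib]
          rw [e2, e3]; ring
  have e5 : ∑ i, th A i * ∑ j, ta A i j ^ 2 ≤ ∑ i, th A i * (x * th A i) :=
    Finset.sum_le_sum fun i _ => mul_le_mul_of_nonneg_left (hrow i) (th_nonneg A i)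
  calc ∑ i, ∑ j, (th A i * (4 * ta A i j ^ 2 + 2 * A i j ^ 2 * (th A i + th A j) - 3 * A i j ^ 4)
        - if i = j then 4 * th A i * ta A i j ^ 2 else 0)
      = 4 * (∑ i, th A i * ∑ j, ta A i j ^ 2) + 2 * (∑ i, ∑ j, A i j ^ 2 * th A i ^ 2)
        + (∑ i, ∑ j, A i j ^ 2 * (2 * (th A i * th A j))) - 3 * (∑ i, ∑ j, th A i * A i j ^ 4)
        - ∑ i, ∑ j, (if i = j then 4 * th A i * ta A i j ^ 2 else 0) := by
        simp only [Finset.mul_sum, ← Finset.sum_add_distrib, ← Finset.sum_sub_distrib]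
        refine Finset.sum_congr rfl fun i _ => Finset.sum_congr rfl fun j _ => ?_
        ring
    _ ≤ 4 * (∑ i, th A i * (x * th A i)) + 2 * (∑ i, th A i ^ 3)
        + 2 * (∑ i, th A i ^ 3) - 3 * (∑ i, ∑ j, th A i * A i j ^ 4) - 4 * ∑ i, th A i ^ 3 := by
        rw [e2, Finset.sum_congr rfl (fun i _ => e1 i), ← Finset.mul_sum]
        linarith
    _ = 4 * x * ∑ i, th A i ^ 2 - 3 * ∑ i, ∑ j, th A i * A i j ^ 4 := by
        have : ∑ i, th A i * (x * th A i) = x * ∑ i, th A i ^ 2 := by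
          rw [Finset.mul_sum]
          exact Finset.sum_congr rfl fun i _ => by ring
        rw [this]; ring



theorem exists_top (A : ι → ι → ℝ) (hA : SZ A) (hne : Nonempty ι) :
    ∃ (lam : ℝ) (v : ι → ℝ), ∑ i, v i ^ 2 = 1 ∧ (∀ i, ∑ j, A i j * v j = lam * v i) ∧
      ∀ y : ι → ℝ, ∑ i, (∑ j, A i j * y j) ^ 2 ≤ lam ^ 2 * ∑ i, y i ^ 2 := by
  let M : Matrix ι ι ℝ := Matrix.of A
  have hM : M.IsHermitian := by
    ext i j
    simp [M, hA.symm j i]
  obtain ⟨k, -, hk⟩ := Finset.exists_max_image Finset.univ (fun k => hM.eigenvalues k ^ 2)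
    Finset.univ_nonempty
  refine ⟨hM.eigenvalues k, fun i => hM.eigenvectorBasis k i, ?_, ?_, ?_⟩
  · have h := hM.eigenvectorBasis.orthonormal.1 k
    rw [EuclideanSpace.norm_eq, Real.sqrt_eq_one] at h
    simpa using h
  · intro i
    have h := congrFun (hM.mulVec_eigenvectorBasis k) i
    simpa [Matrix.mulVec, dotProduct, M] using h
  · intro y
    let yv : EuclideanSpace ℝ ι := WithLp.toLp 2 y
    let Ay : EuclideanSpace ℝ ι := WithLp.toLp 2 (fun i => ∑ j, A i j * y j)
    have hy : ‖yv‖ ^ 2 = ∑ i, y i ^ 2 := by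
      rw [EuclideanSpace.norm_sq_eq]; simp [yv]
    have hAy : ‖Ay‖ ^ 2 = ∑ i, (∑ j, A i j * y j) ^ 2 := by
      rw [EuclideanSpace.norm_sq_eq]; simp [Ay]
    rw [← hy, ← hAy, ← hM.eigenvectorBasis.sum_sq_norm_inner_right Ay,
      ← hM.eigenvectorBasis.sum_sq_norm_inner_right yv, Finset.mul_sum]
    refine Finset.sum_le_sum fun l _ => ?_
    have hin : inner ℝ (hM.eigenvectorBasis l) Ay
        = hM.eigenvalues l * inner ℝ (hM.eigenvectorBasis l) yv := by
      simp only [PiLp.inner_apply, RCLike.inner_apply, conj_trivial, Ay, yv]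
      have hb : ∀ j, ∑ i, A i j * hM.eigenvectorBasis l i
          = hM.eigenvalues l * hM.eigenvectorBasis l j := by
        intro j
        have h := congrFun (hM.mulVec_eigenvectorBasis l) j
        simp only [Matrix.mulVec, dotProduct, M, Matrix.of_apply, Pi.smul_apply, smul_eq_mul] at h
        rw [← h]
        exact Finset.sum_congr rfl fun i _ => by rw [hA.symm j i]
      calc ∑ i, (∑ j, A i j * y j) * hM.eigenvectorBasis l i
          = ∑ j, y j * ∑ i, A i j * hM.eigenvectorBasis l i := by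
            simp only [Finset.mul_sum, Finset.sum_mul]
            rw [Finset.sum_comm]
            refine Finset.sum_congr rfl fun j _ => Finset.sum_congr rfl fun i _ => ?_
            ring
        _ = hM.eigenvalues l * ∑ j, y j * hM.eigenvectorBasis l j := by
            rw [Finset.mul_sum]
            refine Finset.sum_congr rfl fun j _ => ?_
            rw [hb j]; ring
    rw [hin, norm_mul, mul_pow, Real.norm_eq_abs, sq_abs]
    exact mul_le_mul_of_nonneg_right (hk l (Finset.mem_univ _)) (by positivity)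


theorem sum_th (A : ι → ι → ℝ) : ∑ i, th A i = 2 * nsq A := by
  unfold th nsq; ring

section
variable (A : ι → ι → ℝ) (hA : SZ A) (lam : ℝ) (v : ι → ℝ)
  (hv : ∑ i, v i ^ 2 = 1) (he : ∀ i, ∑ j, A i j * v j = lam * v i)

include hv he in
theorem frob_M : ∑ i, ∑ j, (A i j - lam * v i * v j) ^ 2 = 2 * nsq A - lam ^ 2 := by
  have h1 : ∀ i, ∑ j, (A i j - lam * v i * v j) ^ 2
      = ∑ j, A i j ^ 2 - 2 * lam * v i * (lam * v i) + lam ^ 2 * v i ^ 2 := by
    intro i
    have : ∑ j, (A i j - lam * v i * v j) ^ 2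
        = ∑ j, A i j ^ 2 - 2 * lam * v i * (∑ j, A i j * v j)
          + lam ^ 2 * v i ^ 2 * ∑ j, v j ^ 2 := by
      simp only [Finset.mul_sum, ← Finset.sum_add_distrib, ← Finset.sum_sub_distrib]
      exact Finset.sum_congr rfl fun j _ => by ring
    rw [this, he i, hv]; ring
  rw [Finset.sum_congr rfl fun i _ => h1 i]
  have : ∑ i, (∑ j, A i j ^ 2 - 2 * lam * v i * (lam * v i) + lam ^ 2 * v i ^ 2)
      = ∑ i, ∑ j, A i j ^ 2 - lam ^ 2 * ∑ i, v i ^ 2 := by
    simp only [Finset.mul_sum, ← Finset.sum_sub_distrib]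
    exact Finset.sum_congr rfl fun j _ => by ring
  rw [this, hv]
  unfold nsq
  ring

include hv he in
theorem N_eq (i j : ι) : ta A i j - lam ^ 2 * (v i * v j)
    = ∑ k, (A i k - lam * v i * v k) * (A j k - lam * v j * v k) := by
  have : ∑ k, (A i k - lam * v i * v k) * (A j k - lam * v j * v k)
      = ∑ k, A i k * A j k - lam * v j * (∑ k, A i k * v k) - lam * v i * (∑ k, A j k * v k)
        + lam ^ 2 * v i * v j * ∑ k, v k ^ 2 := by
    simp only [Finset.mul_sum, ← Finset.sum_add_distrib, ← Finset.sum_sub_distrib]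
    exact Finset.sum_congr rfl fun j _ => by ring
  rw [this, he i, he j, hv]
  unfold ta
  ring

include hA hv he in
theorem sum_N : ∑ i, ∑ j, (ta A i j - lam ^ 2 * (v i * v j)) ^ 2 = T4 A - lam ^ 4 := by
  have h1 : ∑ i, ∑ j, ta A i j * (v i * v j) = lam ^ 2 := by
    have : ∑ i, ∑ j, ta A i j * (v i * v j) = ∑ k, (∑ i, A i k * v i) ^ 2 := by
      have e : ∀ k, (∑ i, A i k * v i) ^ 2 = ∑ i, ∑ j, A i k * v i * (A j k * v j) := by
        intro k
        rw [sq, Finset.sum_mul_sum]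
      calc ∑ i, ∑ j, ta A i j * (v i * v j)
          = ∑ i, ∑ j, ∑ k, A i k * v i * (A j k * v j) := by
            refine Finset.sum_congr rfl fun i _ => Finset.sum_congr rfl fun j _ => ?_
            unfold ta
            rw [Finset.sum_mul]
            exact Finset.sum_congr rfl fun k _ => by ring
        _ = ∑ i, ∑ k, ∑ j, A i k * v i * (A j k * v j) :=
            Finset.sum_congr rfl fun i _ => Finset.sum_comm
        _ = ∑ k, ∑ i, ∑ j, A i k * v i * (A j k * v j) := Finset.sum_comm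
        _ = ∑ k, (∑ i, A i k * v i) ^ 2 := Finset.sum_congr rfl fun k _ => (e k).symm
    rw [this]
    have e2 : ∀ k, ∑ i, A i k * v i = lam * v k := by
      intro k
      rw [← he k]
      exact Finset.sum_congr rfl fun i _ => by rw [hA.symm i k]
    rw [Finset.sum_congr rfl fun k _ => by rw [e2 k]]
    have : ∑ k, (lam * v k) ^ 2 = lam ^ 2 * ∑ k, v k ^ 2 := by
      rw [Finset.mul_sum]
      exact Finset.sum_congr rfl fun k _ => by ring
    rw [this, hv, mul_one]
  have h2 : ∑ i, ∑ j, (v i * v j) ^ 2 = 1 := by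
    have : ∑ i, ∑ j, (v i * v j) ^ 2 = (∑ i, v i ^ 2) * ∑ j, v j ^ 2 := by
      rw [Finset.sum_mul_sum]
      exact Finset.sum_congr rfl fun i _ => Finset.sum_congr rfl fun j _ => by ring
    rw [this, hv]; norm_num
  have : ∑ i, ∑ j, (ta A i j - lam ^ 2 * (v i * v j)) ^ 2
      = ∑ i, ∑ j, ta A i j ^ 2 - 2 * lam ^ 2 * (∑ i, ∑ j, ta A i j * (v i * v j))
        + lam ^ 4 * ∑ i, ∑ j, (v i * v j) ^ 2 := by
    simp only [Finset.mul_sum, ← Finset.sum_add_distrib, ← Finset.sum_sub_distrib]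
    exact Finset.sum_congr rfl fun i _ => Finset.sum_congr rfl fun j _ => by ring
  rw [this, h1, h2]
  unfold T4
  ring

include hA hv he in
/-- (SP) : consequences, `nsq A = 1` -/
theorem spectral' (hn : nsq A = 1) :
    lam ^ 2 ≤ 2 ∧ T4 A ≤ lam ^ 4 + (2 - lam ^ 2) ^ 2 ∧ lam ^ 4 ≤ T4 A ∧
      lam ^ 2 * ∑ i, v i ^ 4 ≤ 2 - lam ^ 2 ∧ ∀ i, lam ^ 2 * v i ^ 2 ≤ th A i := by
  have hM := frob_M A lam v hv he
  rw [hn] at hM
  have hN := sum_N A hA lam v hv he
  have h1 : (0:ℝ) ≤ 2 * 1 - lam ^ 2 := by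
    rw [← hM]
    exact Finset.sum_nonneg fun _ _ => Finset.sum_nonneg fun _ _ => sq_nonneg _
  have h3 : 0 ≤ T4 A - lam ^ 4 := by
    rw [← hN]
    exact Finset.sum_nonneg fun _ _ => Finset.sum_nonneg fun _ _ => sq_nonneg _
  refine ⟨by linarith, ?_, by linarith, ?_, ?_⟩
  · have : T4 A - lam ^ 4 ≤ (2 * 1 - lam ^ 2) ^ 2 := by
      rw [← hN, ← hM, sq (∑ i, ∑ j, (A i j - lam * v i * v j) ^ 2), Finset.sum_mul_sum]
      refine Finset.sum_le_sum fun i _ => Finset.sum_le_sum fun j _ => ?_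
      rw [N_eq A lam v hv he i j]
      exact Finset.sum_mul_sq_le_sq_mul_sq _ _ _
    nlinarith [this]
  · have : lam ^ 2 * ∑ i, v i ^ 4 ≤ ∑ i, ∑ j, (A i j - lam * v i * v j) ^ 2 := by
      rw [Finset.mul_sum]
      refine Finset.sum_le_sum fun i _ => ?_
      have hle : (A i i - lam * v i * v i) ^ 2 ≤ ∑ j, (A i j - lam * v i * v j) ^ 2 :=
        Finset.single_le_sum (f := fun j => (A i j - lam * v i * v j) ^ 2)
          (fun j _ => sq_nonneg _) (Finset.mem_univ i)
      rw [hA.diag i] at hle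
      refine le_trans (le_of_eq ?_) hle
      ring
    linarith
  · intro i
    have h := Finset.sum_mul_sq_le_sq_mul_sq Finset.univ (fun j => A i j) v
    rw [he i, hv, mul_one] at h
    change (lam * v i) ^ 2 ≤ th A i at h
    nlinarith [h]

include hA hv he in
/-- sharper entry bound: `λ² v_i² ≤ θ_i (1 - v_i²)` -/
theorem entry_le (i : ι) : lam ^ 2 * v i ^ 2 ≤ th A i * (1 - v i ^ 2) := by
  have h1 : ∑ j, A i j * v j = ∑ j, A i j * (if j = i then 0 else v j) := by
    refine Finset.sum_congr rfl fun j _ => ?_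
    by_cases h : j = i
    · subst h; simp [hA.diag]
    · simp [h]
  have h := Finset.sum_mul_sq_le_sq_mul_sq Finset.univ (fun j => A i j) (fun j => if j = i then 0 else v j)
  rw [← h1, he i] at h
  have h2 : ∑ j, (if j = i then (0:ℝ) else v j) ^ 2 = 1 - v i ^ 2 := by
    have : ∑ j, (if j = i then (0:ℝ) else v j) ^ 2 = ∑ j, (v j ^ 2 - if j = i then v j ^ 2 else 0) := by
      refine Finset.sum_congr rfl fun j _ => ?_
      by_cases h : j = i <;> simp [h]
    rw [this, Finset.sum_sub_distrib, hv]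
    simp
  rw [h2] at h
  change (lam * v i) ^ 2 ≤ th A i * _ at h
  nlinarith [h]

include hA hv he in
theorem entry_le_half (hth : ∀ i, th A i ≤ 1 / 2) (i : ι) :
    v i ^ 2 * (2 * lam ^ 2 + 1) ≤ 1 := by
  have h := entry_le A hA lam v hv he i
  have h2 : 0 ≤ 1 - v i ^ 2 := by
    have := Finset.single_le_sum (f := fun j => v j ^ 2) (fun j _ => sq_nonneg _) (Finset.mem_univ i)
    simp only [hv] at this
    linarith
  nlinarith [mul_le_mul_of_nonneg_right (hth i) h2]

include hA hv he in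
/-- (7) `Θ ≤ x² p + (2-x)(x/(2x+1) + 1/2)` -/
theorem Theta_le (hn : nsq A = 1) (hth : ∀ i, th A i ≤ 1 / 2) :
    ∑ i, th A i ^ 2 ≤ (lam ^ 2) ^ 2 * ∑ i, v i ^ 4
      + (2 - lam ^ 2) * (lam ^ 2 / (2 * lam ^ 2 + 1) + 1 / 2) := by
  obtain ⟨h2, -, -, -, h5⟩ := spectral' A hA lam v hv he hn
  have hs : ∑ i, (th A i - lam ^ 2 * v i ^ 2) = 2 - lam ^ 2 := by
    rw [Finset.sum_sub_distrib, sum_th, hn, ← Finset.mul_sum, hv]; ring
  have hpos : 0 < 2 * lam ^ 2 + 1 := by positivity
  have hK : ∀ i, lam ^ 2 * v i ^ 2 + th A i ≤ lam ^ 2 / (2 * lam ^ 2 + 1) + 1 / 2 := by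
    intro i
    have h6 := entry_le_half A hA lam v hv he hth i
    have h7 : v i ^ 2 ≤ 1 / (2 * lam ^ 2 + 1) := by
      rw [le_div_iff₀ hpos]; linarith
    have h8 : lam ^ 2 * v i ^ 2 ≤ lam ^ 2 * (1 / (2 * lam ^ 2 + 1)) :=
      mul_le_mul_of_nonneg_left h7 (sq_nonneg _)
    have h9 := hth i
    have : lam ^ 2 * (1 / (2 * lam ^ 2 + 1)) = lam ^ 2 / (2 * lam ^ 2 + 1) := by ring
    linarith
  have h10 : ∀ i, th A i ^ 2 ≤ (lam ^ 2) ^ 2 * v i ^ 4
      + (th A i - lam ^ 2 * v i ^ 2) * (lam ^ 2 / (2 * lam ^ 2 + 1) + 1 / 2) := by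
    intro i
    have h11 : 0 ≤ th A i - lam ^ 2 * v i ^ 2 := by linarith [h5 i]
    have h12 := mul_le_mul_of_nonneg_left (hK i) h11
    nlinarith [h12]
  calc ∑ i, th A i ^ 2 ≤ ∑ i, ((lam ^ 2) ^ 2 * v i ^ 4
      + (th A i - lam ^ 2 * v i ^ 2) * (lam ^ 2 / (2 * lam ^ 2 + 1) + 1 / 2)) :=
        Finset.sum_le_sum fun i _ => h10 i
    _ = _ := by
        rw [Finset.sum_add_distrib, ← Finset.mul_sum, ← Finset.sum_mul, hs]

theorem Theta_le_one (hn : nsq A = 1) (hth : ∀ i, th A i ≤ 1 / 2) :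
    ∑ i, th A i ^ 2 ≤ 1 := by
  have h : ∑ i, th A i ^ 2 ≤ ∑ i, th A i * (1 / 2) :=
    Finset.sum_le_sum fun i _ => by nlinarith [hth i, th_nonneg A i]
  rw [← Finset.sum_mul, sum_th, hn] at h
  linarith

end

/-- (SP) in the argument order of the skeleton -/
theorem spectral (A : ι → ι → ℝ) (hA : SZ A) (hn : nsq A = 1) (lam : ℝ) (v : ι → ℝ)
    (hv : ∑ i, v i ^ 2 = 1) (he : ∀ i, ∑ j, A i j * v j = lam * v i) :
    lam ^ 2 ≤ 2 ∧ T4 A ≤ lam ^ 4 + (2 - lam ^ 2) ^ 2 ∧ lam ^ 4 ≤ T4 A ∧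
      lam ^ 2 * ∑ i, v i ^ 4 ≤ 2 - lam ^ 2 ∧ ∀ i, lam ^ 2 * v i ^ 2 ≤ th A i :=
  spectral' A hA lam v hv he hn



/-- (W3) -/
theorem W3 (A : ι → ι → ℝ) (hA : SZ A) (x : ℝ)
    (hx : ∀ y : ι → ℝ, ∑ i, (∑ j, A i j * y j) ^ 2 ≤ x * ∑ i, y i ^ 2) :
    osum (fun i j => ww A i j ^ 3) ≤ 8 * x * ∑ i, th A i ^ 2
      - 3 * osum (fun i j => A i j ^ 4 * (ww A i j + A i j ^ 2))
      - osum (fun i j => ww A i j ^ 2 * A i j ^ 2) := by
  have h1 := W2w A hA x hx
  have hwsym : ∀ i j, ww A i j = ww A j i := by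
    intro i j
    unfold ww
    rw [ta_comm, hA.symm i j]
  have hwle : ∀ {i j}, i ≠ j → ww A i j ≤ th A i + th A j - A i j ^ 2 := by
    intro i j hij
    have := u_le A hA hij
    unfold ww
    linarith
  -- symmetrised version of `h1`
  have h2 : osum (fun i j => th A j * ww A i j ^ 2) = osum (fun i j => th A i * ww A i j ^ 2) := by
    unfold osum
    rw [Finset.sum_comm]
    refine Finset.sum_congr rfl fun i _ => Finset.sum_congr rfl fun j _ => ?_
    by_cases h : i = j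
    · subst h; simp
    · simp only [h, if_false, Ne.symm h]
      rw [hwsym j i]
  have h3 : ∑ i, ∑ j, th A j * A i j ^ 4 = ∑ i, ∑ j, th A i * A i j ^ 4 := by
    rw [Finset.sum_comm]
    refine Finset.sum_congr rfl fun i _ => Finset.sum_congr rfl fun j _ => ?_
    rw [hA.symm j i]
  have key : osum (fun i j => ww A i j ^ 3) ≤
      osum (fun i j => th A i * ww A i j ^ 2) + osum (fun i j => th A j * ww A i j ^ 2)
        - osum (fun i j => ww A i j ^ 2 * A i j ^ 2) := by
    unfold osum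
    simp only [← Finset.sum_add_distrib, ← Finset.sum_sub_distrib]
    refine Finset.sum_le_sum fun i _ => Finset.sum_le_sum fun j _ => ?_
    by_cases h : i = j
    · simp [h]
    · simp only [h, if_false]
      nlinarith [mul_le_mul_of_nonneg_left (hwle h) (sq_nonneg (ww A i j))]
  have key2 : osum (fun i j => A i j ^ 4 * (ww A i j + A i j ^ 2)) ≤
      ∑ i, ∑ j, th A i * A i j ^ 4 + ∑ i, ∑ j, th A j * A i j ^ 4 := by
    unfold osum
    simp only [← Finset.sum_add_distrib]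
    refine Finset.sum_le_sum fun i _ => Finset.sum_le_sum fun j _ => ?_
    by_cases h : i = j
    · subst h
      simp [hA.diag i]
    · simp only [h, if_false]
      have h4 : 0 ≤ A i j ^ 4 := by positivity
      nlinarith [mul_le_mul_of_nonneg_left (hwle h) h4]
  rw [h2] at key
  rw [h3] at key2
  linarith

theorem I4_pt (A : ι → ι → ℝ) (hA : SZ A) (i j k l : ι) :
    (if i = j then A j k ^ 2 * A l i ^ 2 else 0) + (if k = l then A j k ^ 2 * A l i ^ 2 else 0)
      + (if i = l then A i j ^ 2 * A k l ^ 2 else 0) + (if j = k then A i j ^ 2 * A k l ^ 2 else 0)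
      - (if i = j then (if k = l then A i k ^ 4 else 0) else 0)
      - (if i = l then (if j = k then A i j ^ 4 else 0) else 0)
      ≤ (A i j * A k l - A j k * A l i) ^ 2 := by
  by_cases h1 : i = j
  · subst h1
    by_cases h2 : k = l
    · subst h2
      by_cases h3 : i = k
      · subst h3; simp [hA.diag]
      · simp only [if_true, h3, if_false, hA.diag, hA.symm k i]
        apply le_of_eq
        ring
    · by_cases h3 : i = l
      · subst h3
        by_cases h4 : i = k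
        · subst h4; simp [hA.diag]
        · simp [h2, h4, hA.diag]
      · by_cases h4 : i = k
        · subst h4; simp [h2, h3, hA.diag]
        · simp only [if_true, h2, h3, h4, if_false, hA.diag]
          apply le_of_eq
          ring
  · by_cases h2 : k = l
    · subst h2
      by_cases h3 : i = k
      · subst h3
        simp only [hA.diag]
        have h5 : ¬ j = i := fun h => h1 h.symm
        simp [h1, h5]
      · by_cases h4 : j = k
        · subst h4; simp [h1, hA.diag]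
        · simp only [if_true, h1, h3, h4, if_false, hA.diag]
          apply le_of_eq
          ring
    · by_cases h3 : i = l
      · subst h3
        by_cases h4 : j = k
        · subst h4
          simp only [if_true, h1, h2, if_false, hA.diag, hA.symm j i]
          apply le_of_eq
          ring
        · simp only [if_true, h1, h2, h4, if_false, hA.diag]
          apply le_of_eq
          ring
      · by_cases h4 : j = k
        · subst h4
          simp only [if_true, h1, h2, h3, if_false, hA.diag]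
          apply le_of_eq
          ring
        · simp only [h1, h2, h3, h4, if_false]
          nlinarith [sq_nonneg (A i j * A k l - A j k * A l i)]

/-- (I4) -/
theorem I4 (A : ι → ι → ℝ) (hA : SZ A) :
    T4 A ≤ 4 * nsq A ^ 2 - 2 * ∑ i, th A i ^ 2 + ∑ i, ∑ j, A i j ^ 4 := by
  have hth : ∀ i, ∑ k, A k i ^ 2 = th A i := by
    intro i
    exact Finset.sum_congr rfl fun k _ => by rw [hA.symm k i]
  have hsum := Finset.sum_le_sum (s := Finset.univ) fun i (_ : i ∈ Finset.univ) =>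
    Finset.sum_le_sum (s := Finset.univ) fun j (_ : j ∈ Finset.univ) =>
    Finset.sum_le_sum (s := Finset.univ) fun k (_ : k ∈ Finset.univ) =>
    Finset.sum_le_sum (s := Finset.univ) fun l (_ : l ∈ Finset.univ) => I4_pt A hA i j k l
  simp only [Finset.sum_add_distrib, Finset.sum_sub_distrib] at hsum
  -- the six sums
  have s1 : ∑ i, ∑ j, ∑ k, ∑ l, (if i = j then A j k ^ 2 * A l i ^ 2 else 0)
      = ∑ i, th A i ^ 2 := by
    refine Finset.sum_congr rfl fun i _ => ?_
    have : ∀ j, ∑ k, ∑ l, (if i = j then A j k ^ 2 * A l i ^ 2 else 0)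
        = if i = j then ∑ k, ∑ l, A j k ^ 2 * A l i ^ 2 else 0 := by
      intro j; by_cases h : i = j <;> simp [h]
    rw [Finset.sum_congr rfl fun j _ => this j, Finset.sum_ite_eq]
    simp only [Finset.mem_univ, if_true]
    rw [← Finset.sum_mul_sum, hth i, sq]
    rfl
  have s2 : ∑ i, ∑ j, ∑ k, ∑ l, (if k = l then A j k ^ 2 * A l i ^ 2 else 0)
      = ∑ i, th A i ^ 2 := by
    have : ∀ i j k, ∑ l, (if k = l then A j k ^ 2 * A l i ^ 2 else 0) = A j k ^ 2 * A k i ^ 2 := by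
      intro i j k
      rw [Finset.sum_ite_eq]; simp
    simp only [this]
    calc ∑ i, ∑ j, ∑ k, A j k ^ 2 * A k i ^ 2
        = ∑ i, ∑ k, ∑ j, A j k ^ 2 * A k i ^ 2 :=
          Finset.sum_congr rfl fun i _ => Finset.sum_comm
      _ = ∑ k, ∑ i, ∑ j, A j k ^ 2 * A k i ^ 2 := Finset.sum_comm
      _ = ∑ k, th A k ^ 2 := by
          refine Finset.sum_congr rfl fun k _ => ?_
          simp only [← Finset.sum_mul, hth k]
          rw [← Finset.mul_sum, sq]
          rfl
  have s3 : ∑ i, ∑ j, ∑ k, ∑ l, (if i = l then A i j ^ 2 * A k l ^ 2 else 0)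
      = ∑ i, th A i ^ 2 := by
    have : ∀ i j k, ∑ l, (if i = l then A i j ^ 2 * A k l ^ 2 else 0) = A i j ^ 2 * A k i ^ 2 := by
      intro i j k
      rw [Finset.sum_ite_eq]; simp
    simp only [this]
    refine Finset.sum_congr rfl fun i _ => ?_
    rw [← Finset.sum_mul_sum, hth i, sq]
    rfl
  have s4 : ∑ i, ∑ j, ∑ k, ∑ l, (if j = k then A i j ^ 2 * A k l ^ 2 else 0)
      = ∑ i, th A i ^ 2 := by
    have : ∀ i j, ∑ k, ∑ l, (if j = k then A i j ^ 2 * A k l ^ 2 else 0)
        = ∑ l, A i j ^ 2 * A j l ^ 2 := by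
      intro i j
      have : ∀ k, ∑ l, (if j = k then A i j ^ 2 * A k l ^ 2 else 0)
          = if j = k then ∑ l, A i j ^ 2 * A k l ^ 2 else 0 := by
        intro k; by_cases h : j = k <;> simp [h]
      rw [Finset.sum_congr rfl fun k _ => this k, Finset.sum_ite_eq]; simp
    simp only [this]
    rw [Finset.sum_comm]
    refine Finset.sum_congr rfl fun j _ => ?_
    rw [← Finset.sum_mul_sum, hth j, sq]
    rfl
  have s5 : ∑ i, ∑ j, ∑ k, ∑ l, (if i = j then (if k = l then A i k ^ 4 else 0) else 0)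
      = ∑ i, ∑ j, A i j ^ 4 := by
    refine Finset.sum_congr rfl fun i _ => ?_
    have : ∀ j, ∑ k, ∑ l, (if i = j then (if k = l then A i k ^ 4 else 0) else 0)
        = if i = j then ∑ k, A i k ^ 4 else 0 := by
      intro j; by_cases h : i = j <;> simp [h]
    rw [Finset.sum_congr rfl fun j _ => this j, Finset.sum_ite_eq]; simp
  have s6 : ∑ i, ∑ j, ∑ k, ∑ l, (if i = l then (if j = k then A i j ^ 4 else 0) else 0)
      = ∑ i, ∑ j, A i j ^ 4 := by
    refine Finset.sum_congr rfl fun i _ => Finset.sum_congr rfl fun j _ => ?_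
    have : ∀ k, ∑ l, (if i = l then (if j = k then A i j ^ 4 else 0) else 0)
        = if j = k then A i j ^ 4 else 0 := by
      intro k; rw [Finset.sum_ite_eq]; simp
    rw [Finset.sum_congr rfl fun k _ => this k, Finset.sum_ite_eq]; simp
  rw [s1, s2, s3, s4, s5, s6] at hsum
  -- the right hand side
  have r1 : ∑ i, ∑ j, ∑ k, ∑ l, (A i j * A k l - A j k * A l i) ^ 2
      = 2 * (∑ i, ∑ j, A i j ^ 2) ^ 2 - 2 * T4 A := by
    have e1 : ∑ i, ∑ j, ∑ k, ∑ l, A i j ^ 2 * A k l ^ 2 = (∑ i, ∑ j, A i j ^ 2) ^ 2 := by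
      simp only [← Finset.mul_sum, ← Finset.sum_mul]
      rw [sq]
    have e2 : ∑ i, ∑ j, ∑ k, ∑ l, A j k ^ 2 * A l i ^ 2 = (∑ i, ∑ j, A i j ^ 2) ^ 2 := by
      rw [← e1]
      calc ∑ i, ∑ j, ∑ k, ∑ l, A j k ^ 2 * A l i ^ 2
          = ∑ i, (∑ j, ∑ k, A j k ^ 2) * ∑ l, A l i ^ 2 := by
            refine Finset.sum_congr rfl fun i _ => ?_
            rw [Finset.sum_mul]
            refine Finset.sum_congr rfl fun j _ => ?_
            rw [Finset.sum_mul_sum]
        _ = (∑ j, ∑ k, A j k ^ 2) * ∑ i, ∑ l, A l i ^ 2 := by rw [Finset.mul_sum]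
        _ = (∑ j, ∑ k, A j k ^ 2) * ∑ l, ∑ i, A l i ^ 2 := by rw [Finset.sum_comm (s := Finset.univ) (t := Finset.univ) (f := fun i l => A l i ^ 2)]
        _ = ∑ i, ∑ j, ∑ k, ∑ l, A i j ^ 2 * A k l ^ 2 := by
            rw [e1, sq]
    have e3 : ∑ i, ∑ j, ∑ k, ∑ l, (A i j * A j k) * (A i l * A k l) = T4 A := by
      unfold T4
      refine Finset.sum_congr rfl fun i _ => ?_
      rw [Finset.sum_comm]
      refine Finset.sum_congr rfl fun k _ => ?_
      rw [← Finset.sum_mul_sum]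
      have : ∑ j, A i j * A j k = ta A i k := by
        unfold ta
        exact Finset.sum_congr rfl fun j _ => by rw [hA.symm j k]
      rw [this]
      change ta A i k * ta A i k = _
      ring
    calc ∑ i, ∑ j, ∑ k, ∑ l, (A i j * A k l - A j k * A l i) ^ 2
        = ∑ i, ∑ j, ∑ k, ∑ l, A i j ^ 2 * A k l ^ 2 + ∑ i, ∑ j, ∑ k, ∑ l, A j k ^ 2 * A l i ^ 2
          - 2 * ∑ i, ∑ j, ∑ k, ∑ l, (A i j * A j k) * (A i l * A k l) := by
          simp only [Finset.mul_sum, ← Finset.sum_add_distrib, ← Finset.sum_sub_distrib]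
          refine Finset.sum_congr rfl fun i _ => Finset.sum_congr rfl fun j _ =>
            Finset.sum_congr rfl fun k _ => Finset.sum_congr rfl fun l _ => ?_
          rw [hA.symm l i]
          ring
      _ = _ := by rw [e1, e2, e3]; ring
  rw [r1] at hsum
  have hn : ∑ i, ∑ j, A i j ^ 2 = 2 * nsq A := by unfold nsq; ring
  rw [hn] at hsum
  nlinarith [hsum]

end Pool.Agent.Boole2
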