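import Mathlib

namespace Pool.Agent.Boole2

/-! ### PART D : scalar inequalities.
`a = |a_ij|`, `p = √u_ij`, `y = √(1-w_ij)`. -/

/-- consequences of D1: `a² ≥ y - (5/4) y²` -/
theorem a_sq_ge (a p y : ℝ) (hp : 0 ≤ p) (h1 : a ^ 2 + p ^ 2 + y ^ 2 = 1)
    (h2 : p + y / 2 < 1) : y - 5 / 4 * y ^ 2 ≤ a ^ 2 := by
  have : p ^ 2 ≤ (1 - y / 2) ^ 2 := by
    apply pow_le_pow_left₀ hp; linarith
  nlinarith

theorem y_ge (a p y : ℝ) (ha : 0 ≤ a) (hp : 0 ≤ p) (h1 : a ^ 2 + p ^ 2 + y ^ 2 = 1)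
    (h2 : p + y / 2 < 1) (h3 : a ≤ y) : 4 / 9 ≤ y := by
  have hA := a_sq_ge a p y hp h1 h2
  have hay : a ^ 2 ≤ y ^ 2 := pow_le_pow_left₀ ha h3 2
  have hy : 0 ≤ y := ha.trans h3
  rcases eq_or_lt_of_le hy with h | h
  · exfalso
    have ha0 : a = 0 := by linarith
    subst ha0
    have hp1 : p < 1 := by linarith
    have : y = 0 := h.symm
    subst this
    nlinarith
  · by_contra hc
    push Not at hc
    nlinarith [mul_pos h (show 0 < 1 - 9 / 4 * y by linarith)]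

theorem P3 (a p y : ℝ) (ha : 0 ≤ a) (hp : 0 ≤ p) (hy : 0 ≤ y) (h1 : a ^ 2 + p ^ 2 + y ^ 2 = 1)
    (h2 : p + y / 2 < 1) (h3 : a ≤ y) :
    (1 - y) ^ 2 ≤ (41 / 100) * ((1 - y ^ 2) ^ 2 + 3 * a ^ 4) := by
  have hA := a_sq_ge a p y hp h1 h2
  have hy4 := y_ge a p y ha hp h1 h2 h3
  rcases le_total (57/100) y with h | h
  · have h5 : 0 ≤ a ^ 4 := by positivity
    have h6 : 1 ≤ (41/100) * (1 + y) ^ 2 := by nlinarith
    nlinarith [mul_nonneg (sq_nonneg (1 - y)) (show 0 ≤ (41/100) * (1 + y) ^ 2 - 1 by linarith)]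
  · have hA0 : 0 ≤ y - 5 / 4 * y ^ 2 := by nlinarith
    have h7 : (y - 5 / 4 * y ^ 2) ^ 2 ≤ a ^ 4 := by
      have := pow_le_pow_left₀ hA0 hA 2
      calc _ ≤ (a ^ 2) ^ 2 := this
        _ = a ^ 4 := by ring
    have h8 : (1 - y) ^ 2 ≤ (41 / 100) * ((1 - y ^ 2) ^ 2 + 3 * (y - 5 / 4 * y ^ 2) ^ 2) := by
      have e1 : 0 ≤ y - 4/9 := by linarith
      have e2 : 0 ≤ 57/100 - y := by linarith
      nlinarith [mul_nonneg e1 e2, mul_nonneg (mul_nonneg e1 e2) e1, mul_nonneg (mul_nonneg e1 e2) e2,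
        mul_nonneg (mul_nonneg e1 e2) (mul_nonneg e1 e2), sq_nonneg (y - 1/2)]
    nlinarith

theorem Gamma_ineq (x t : ℝ) (hx0 : 0 ≤ x) (hx : x ≤ 2) (ht0 : 0 ≤ t) (ht : t ≤ 1 / 2) :
    (4 * (475 / 2916) * x - 1) * (2 - x ^ 2 / 2) + 4 * (475 / 2916) * x * t
      ≤ 67 / 1000 + (6 / 5) * t := by
  have g0 : (4 * (475 / 2916) * x - 1) * (2 - x ^ 2 / 2) ≤ 67 / 1000 := by
    nlinarith [mul_nonneg hx0 (sq_nonneg (x - 1773/1000)), sq_nonneg (x - 1773/1000), mul_nonneg hx0 (sub_nonneg.2 hx)]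
  have g1 : (4 * (475 / 2916) * x - 1) * (2 - x ^ 2 / 2) + 4 * (475 / 2916) * x * (1/2) ≤ 67 / 1000 + (6/5) * (1/2) := by
    nlinarith [mul_nonneg hx0 (sq_nonneg (x - 1908/1000)), sq_nonneg (x - 1908/1000), mul_nonneg hx0 (sub_nonneg.2 hx)]
  nlinarith [mul_nonneg ht0 (sub_nonneg.2 g1), mul_nonneg (sub_nonneg.2 ht) (sub_nonneg.2 g0)]

theorem Fin1 (T x c lam : ℝ) (hT : (195 / 100 + 3 * c ^ 2) * (81 / 50) ≤ T)
    (hT1 : T ≤ x ^ 2 + (2 - x) ^ 2) (hT2 : T ≤ 2 * x) (hx : x ≤ 2) (hl : 0 ≤ lam)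
    (hlx : lam ^ 2 = x) (hc0 : 0 ≤ c) (hc : c ≤ 27 / 200) :
    7 / 4 ≤ x ∧ 6 / 5 + c ≤ lam := by
  have hx1 : 1 ≤ x := by nlinarith [sq_nonneg c]
  have h0 : 5795/10000 + 243/100 * c ^ 2 ≤ (x - 1) ^ 2 := by nlinarith
  have hx2 : 7 / 4 ≤ x := by
    by_contra h
    push Not at h
    nlinarith [sq_nonneg c]
  refine ⟨hx2, ?_⟩
  have hx3 : (6/5 + c) ^ 2 ≤ x := by
    by_contra h
    push Not at h
    have h5 : x - 1 < 44/100 + 12/5 * c + c ^ 2 := by nlinarith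
    have h6 : (x - 1) ^ 2 < (44/100 + 12/5 * c + c ^ 2) ^ 2 := by
      apply pow_lt_pow_left₀ h5 (by linarith) (by norm_num)
    have h7 : (44/100 + 12/5 * c + c ^ 2) ^ 2 ≤ 5795/10000 + 243/100 * c ^ 2 := by
      nlinarith [mul_nonneg hc0 (sub_nonneg.2 hc), mul_nonneg (mul_nonneg hc0 hc0) (sub_nonneg.2 hc),
        mul_nonneg (mul_nonneg (mul_nonneg hc0 hc0) hc0) (sub_nonneg.2 hc)]
    linarith
  have : (6/5 + c) ^ 2 ≤ lam ^ 2 := by rw [hlx]; exact hx3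
  exact le_of_sq_le_sq this hl |>.trans le_rfl

theorem Fin2 (x c lam : ℝ) (hx : x ≤ 2) (hl : 0 ≤ lam) (hlx : lam ^ 2 = x)
    (h7 : 7 / 4 ≤ x) (h6 : 6 / 5 + c ≤ lam) (hc0 : 0 ≤ c) (hc : c ≤ 27 / 200) :
    1 / 2 < (2 / Real.sqrt 3) * ((11/10) * lam - c) * Real.exp (-(11/10))
      - (Real.sqrt 3 / 9) * Real.sqrt (1 + c ^ 2) *
        (4 * Real.exp ((-(297/20) + (5324/125) * ((2 - x) / x)) / 2)) := by
  have hlam : 13228/10000 ≤ lam := by
    apply le_of_sq_le_sq _ hl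
    rw [hlx]; norm_num; linarith
  have hB : 133228/100000 ≤ (11/10) * lam - c := by linarith
  -- sqrt 3
  have s3l : 17320/10000 ≤ Real.sqrt 3 := Real.le_sqrt_of_sq_le (by norm_num)
  have s3u : Real.sqrt 3 ≤ 17321/10000 := by
    rw [Real.sqrt_le_left (by norm_num)]; norm_num
  have s3p : 0 < Real.sqrt 3 := by positivity
  have h2s : 11546/10000 ≤ 2 / Real.sqrt 3 := by
    rw [le_div_iff₀ s3p]; nlinarith
  have sc : Real.sqrt (1 + c ^ 2) ≤ 1009072/1000000 := by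
    rw [Real.sqrt_le_left (by norm_num)]; nlinarith
  have sc0 : 0 ≤ Real.sqrt (1 + c ^ 2) := Real.sqrt_nonneg _
  -- exp (-(11/10))
  have e1 := Real.exp_one_lt_d9
  have e1' := Real.exp_one_gt_d9
  have hex : 33286/100000 ≤ Real.exp (-(11/10)) := by
    have h10 : Real.exp (1/10) ≤ 11052/10000 := by
      have : Real.exp (1/10) ^ 10 ≤ (11052/10000 : ℝ) ^ 10 := by
        rw [← Real.exp_nat_mul]
        norm_num
        norm_num at e1
        linarith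
      exact le_of_pow_le_pow_left₀ (by norm_num) (by norm_num) this
    have h11 : Real.exp (11/10) ≤ 2.7182818286 * 1.1052 := by
      have : (11/10 : ℝ) = 1 + 1/10 := by norm_num
      rw [this, Real.exp_add]
      apply mul_le_mul e1.le (by linarith) (Real.exp_pos _).le (by norm_num)
    rw [Real.exp_neg, le_inv_comm₀ (by norm_num) (Real.exp_pos _)]
    refine h11.trans (by norm_num)
  have hex2 : Real.exp ((-(297/20) + (5324/125) * ((2 - x) / x)) / 2) ≤ 12540/1000000 := by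
    have hxx : (2 - x) / x ≤ 1/7 := by
      rw [div_le_iff₀ (by linarith)]; linarith
    have : Real.exp ((-(297/20) + (5324/125) * ((2 - x) / x)) / 2) ≤ Real.exp (-(438/100)) := by
      apply Real.exp_le_exp.2; linarith
    refine this.trans ?_
    have h438 : 1 / (12540/1000000) ≤ Real.exp (438/100) := by
      have : (438/100 : ℝ) = 1 + 1 + 1 + 1 + 38/100 := by norm_num
      rw [this, Real.exp_add, Real.exp_add, Real.exp_add, Real.exp_add]
      have q : 14613/10000 ≤ Real.exp (38/100) := by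
        have := Real.sum_le_exp_of_nonneg (show (0:ℝ) ≤ 38/100 by norm_num) 4
        simp [Finset.sum_range_succ, Nat.factorial] at this
        norm_num at this
        linarith
      have e0 : (2.7182818283 : ℝ) ≤ Real.exp 1 := e1'.le
      calc (1 / (12540/1000000) : ℝ) ≤ 2.7182818283 * 2.7182818283 * 2.7182818283 * 2.7182818283 * (14613/10000) := by norm_num
        _ ≤ _ := by gcongr
    rw [Real.exp_neg, inv_le_comm₀ (Real.exp_pos _) (by norm_num)]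
    rw [one_div] at h438
    exact h438
  have hep := Real.exp_pos (-(11/10))
  have hep2 := Real.exp_pos ((-(297/20) + (5324/125) * ((2 - x) / x)) / 2)
  have T1 : 11546/10000 * (133228/100000) * (33286/100000) ≤ (2 / Real.sqrt 3) * ((11/10) * lam - c) * Real.exp (-(11/10)) := by
    gcongr
  have T2 : (Real.sqrt 3 / 9) * Real.sqrt (1 + c ^ 2) *
        (4 * Real.exp ((-(297/20) + (5324/125) * ((2 - x) / x)) / 2)) ≤ (17321/10000 / 9) * (1009072/1000000) * (4 * (12540/1000000)) := by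
    gcongr
  norm_num at T1 T2 ⊢
  linarith

theorem P1_poly (m : ℝ) (h1 : (1/2) ≤ m) (h2 : m ≤ (3717/5000)) : 0 ≤ (725/576)*m^0 + (-5)*m^1 + (3533/648)*m^2 + (-2279/1620)*m^4 + (-56/81)*m^6 := by
  have e1 : 0 ≤ m - (1/2) := by linarith
  have e2 : 0 ≤ (3717/5000) - m := by linarith
  have key : (725/576)*m^0 + (-5)*m^1 + (3533/648)*m^2 + (-2279/1620)*m^4 + (-56/81)*m^6 = (29101562500000000000000/263165217590037345489)*((m - (1/2))^0*((3717/5000) - m)^6) + (57282968750000000000000/263165217590037345489)*((m - (1/2))^1*((3717/5000) - m)^5) + (51874918625000000000000/263165217590037345489)*((m - (1/2))^2*((3717/5000) - m)^4) + (133809443668412500000000/263165217590037345489)*((m - (1/2))^3*((3717/5000) - m)^3) + (208719451816059801250000/263165217590037345489)*((m - (1/2))^4*((3717/5000) - m)^2) + (12162475532699509180000/29240579732226371721)*((m - (1/2))^5*((3717/5000) - m)^1) + (1186313098516417969304/29240579732226371721)*((m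 - (1/2))^6*((3717/5000) - m)^0) := by ring
  rw [key]; positivity

theorem P1_poly2 (y : ℝ) (h1 : (2/3) ≤ y) (h2 : y ≤ (4/5)) : 0 ≤ (-56/81)*y^0 + (41/20)*y^1 + (-977/1296)*y^2 + (-125/54)*y^3 + (2275/1296)*y^4 := by
  have e1 : 0 ≤ y - (2/3) := by linarith
  have e2 : 0 ≤ (4/5) - y := by linarith
  have key : (-56/81)*y^0 + (41/20)*y^1 + (-977/1296)*y^2 + (-125/54)*y^3 + (2275/1296)*y^4 = (18625/5184)*((y - (2/3))^0*((4/5) - y)^4) + (3325/108)*((y - (2/3))^1*((4/5) - y)^3) + (18025/576)*((y - (2/3))^2*((4/5) - y)^2) + (75/32)*((y - (2/3))^3*((4/5) - y)^1) := by ring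
  rw [key]; positivity

theorem P2_poly1 (m : ℝ) (h1 : (743/1000) ≤ m) (h2 : m ≤ (1)) : 0 ≤ (55055/18432)*m^0 + (-25/2)*m^1 + (172765/10368)*m^2 + (-20)*m^3 + (5022841/233280)*m^4 + (-8)*m^5 + (768247/145800)*m^6 + (-1682093/729000)*m^8 + (-428/729)*m^10 := by
  have e1 : 0 ≤ m - (743/1000) := by linarith
  have e2 : 0 ≤ (1) - m := by linarith
  have key : (55055/18432)*m^0 + (-25/2)*m^1 + (172765/10368)*m^2 + (-20)*m^3 + (5022841/233280)*m^4 + (-8)*m^5 + (768247/145800)*m^6 + (-1682093/729000)*m^8 + (-428/729)*m^10 = (21237698031401312614083810273476/305448155496833704953675507)*((m - (743/1000))^0*((1) - m)^10) + (1896305640976600209187065210974000/916344466490501114861026521)*((m - (743/1000))^1*((1) - m)^9) + (15227743256212152490356143059507000/916344466490501114861026521)*((m - (743/1000))^2*((1) - m)^8) + (61262229940363490118597377992000000/916344466490501114861026521)*((m - (743/1000))^3*((1)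 - m)^7) + (49419644076864252435039173000000000/305448155496833704953675507)*((m - (743/1000))^4*((1) - m)^6) + (232863536802101469227236000000000000/916344466490501114861026521)*((m - (743/1000))^5*((1) - m)^5) + (81403401339889824964375000000000000/305448155496833704953675507)*((m - (743/1000))^6*((1) - m)^4) + (170313264168329831500000000000000000/916344466490501114861026521)*((m - (743/1000))^7*((1) - m)^3) + (75959650003555562500000000000000000/916344466490501114861026521)*((m - (743/1000))^8*((1) - m)^2) + (19612934039562500000000000000000000/916344466490501114861026521)*((m - (743/1000))^9*((1) - m)^1) + (27506511718750000000000000000000/11312894648030877961247241)*((m - (743/1000))^10*((1) - m)^0) := by ring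
  rw [key]; positivity

theorem P2_poly2 (M : ℝ) (h1 : (0) ≤ M) (h2 : M ≤ (553/1000)) : 0 ≤ (251/1152)*M^0 + (7837/25920)*M^1 + (65483/72900)*M^2 + (-364831/182250)*M^3 + (-984878/455625)*M^4 + (-428/729)*M^5 := by
  have e1 : 0 ≤ M - (0) := by linarith
  have e2 : 0 ≤ (553/1000) - M := by linarith
  have key : (251/1152)*M^0 + (7837/25920)*M^1 + (65483/72900)*M^2 + (-364831/182250)*M^3 + (-984878/455625)*M^4 + (-428/729)*M^5 = (1960937500000000/465444782081937)*((M - (0))^0*((553/1000) - M)^5) + (101785503125000000/4189003038737433)*((M - (0))^1*((553/1000) - M)^4) + (2276171644970000000/37701027348636897)*((M - (0))^2*((553/1000) - M)^3) + (2673667390706852000/37701027348636897)*((M - (0))^3*((553/1000) - M)^2) + (6207751773693253456/188505136743184485)*((M - (0))^4*((553/1000) - M)^1) + (107810888640762812/62835045581061495)*((M - (0))^5*((553/1000) - M)^0) := by ring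
  rw [key]; positivity

/-- `p + a ≥ (1 - y/2) + t` where `t² = y - (5/4) y²`, for `y ≤ 2/3` -/
theorem pa_ge (a p y t : ℝ) (ha : 0 ≤ a) (hp : 0 ≤ p) (h1 : a ^ 2 + p ^ 2 + y ^ 2 = 1)
    (h3 : a ≤ y) (hy2 : y ≤ 2/3) (ht : 0 ≤ t) (hta : t ≤ a)
    (ht2 : t ^ 2 = y - 5 / 4 * y ^ 2) : 1 - y / 2 + t ≤ p + a := by
  have hR : p ^ 2 + a ^ 2 = (1 - y / 2) ^ 2 + t ^ 2 := by nlinarith
  have ha2 : t ^ 2 ≤ a ^ 2 := pow_le_pow_left₀ ht hta 2
  have ha3 : a ≤ 1 - y / 2 := by linarith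
  have ha4 : a ^ 2 ≤ (1 - y / 2) ^ 2 := pow_le_pow_left₀ ha ha3 2
  have hq : ((1 - y / 2) * t) ^ 2 ≤ (p * a) ^ 2 := by
    have : (p * a) ^ 2 - ((1 - y / 2) * t) ^ 2 = (a ^ 2 - t ^ 2) * ((1 - y / 2) ^ 2 - a ^ 2) := by
      have : p ^ 2 = (1 - y / 2) ^ 2 + t ^ 2 - a ^ 2 := by linarith
      rw [mul_pow, this]; ring
    nlinarith [mul_nonneg (sub_nonneg.2 ha2) (sub_nonneg.2 ha4)]
  have hq2 : (1 - y / 2) * t ≤ p * a := le_of_sq_le_sq hq (mul_nonneg hp ha)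
  apply le_of_sq_le_sq _ (by linarith)
  nlinarith

theorem P1 (a p y c : ℝ) (ha : 0 ≤ a) (hp : 0 ≤ p) (hy : 0 ≤ y) (h1 : a ^ 2 + p ^ 2 + y ^ 2 = 1)
    (h2 : p + y / 2 < 1) (h3 : a ≤ y) (h4 : p + a ≤ 1 + c) (hc0 : 0 ≤ c) (hc : c ≤ 27 / 200) :
    (1 - y) ^ 2 ≤ (25 / 81) * ((1 - y ^ 2) ^ 2 + 3 * a ^ 4) + (1 / 20 + 5 * c ^ 2) * a ^ 2 := by
  have hA := a_sq_ge a p y hp h1 h2
  have hy4 := y_ge a p y ha hp h1 h2 h3
  have hyp : 0 < y := by linarith
  rcases le_total (4/5) y with h | h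
  · have h5 : 0 ≤ a ^ 4 := by positivity
    have h5' : 0 ≤ (1 / 20 + 5 * c ^ 2) * a ^ 2 := by positivity
    have h6 : 1 ≤ (25/81) * (1 + y) ^ 2 := by nlinarith
    nlinarith [mul_nonneg (sq_nonneg (1 - y)) (show 0 ≤ (25/81) * (1 + y) ^ 2 - 1 by linarith)]
  have hA0 : 0 ≤ y - 5 / 4 * y ^ 2 := by nlinarith
  have hA4 : (y - 5 / 4 * y ^ 2) ^ 2 ≤ a ^ 4 := by
    have := pow_le_pow_left₀ hA0 hA 2
    calc _ ≤ (a ^ 2) ^ 2 := this
      _ = a ^ 4 := by ring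
  rcases le_total (2/3) y with h' | h'
  · have h7 := P1_poly2 y h' h
    have h8 : (1 / 20) * (y - 5 / 4 * y ^ 2) ≤ (1 / 20 + 5 * c ^ 2) * a ^ 2 := by
      have : 0 ≤ 5 * c ^ 2 * a ^ 2 := by positivity
      nlinarith
    nlinarith
  · -- the substitution `t = √(y - 5/4 y²)`, `m = t / y`
    obtain ⟨t, ht, ht2⟩ : ∃ t : ℝ, 0 ≤ t ∧ t ^ 2 = y - 5 / 4 * y ^ 2 :=
      ⟨Real.sqrt (y - 5 / 4 * y ^ 2), Real.sqrt_nonneg _, Real.sq_sqrt hA0⟩
    have hta : t ≤ a := le_of_sq_le_sq (by rw [ht2]; exact hA) ha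
    have hpa := pa_ge a p y t ha hp h1 h3 h' ht hta ht2
    have hct : t - y / 2 ≤ c := by linarith
    obtain ⟨m, hm⟩ : ∃ m : ℝ, t = m * y := ⟨t / y, by field_simp⟩
    have hD : (m ^ 2 + 5 / 4) * y = 1 := by
      have : y * ((m ^ 2 + 5 / 4) * y - 1) = 0 := by rw [hm] at ht2; linear_combination ht2
      rcases mul_eq_zero.1 this with h0 | h0 <;> linarith
    have hm0 : 0 ≤ m := by
      by_contra hneg
      push Not at hneg
      have := mul_neg_of_neg_of_pos hneg hyp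
      linarith
    have hm1 : 1 / 2 ≤ m := by
      apply le_of_sq_le_sq _ hm0
      by_contra hneg
      push Not at hneg
      have := mul_lt_mul_of_pos_right (show m ^ 2 + 5 / 4 < 3 / 2 by linarith) hyp
      linarith
    have hm2 : m ≤ 1 := by
      apply le_of_sq_le_sq _ zero_le_one
      by_contra hneg
      push Not at hneg
      have := mul_lt_mul_of_pos_right (show 9 / 4 < m ^ 2 + 5 / 4 by linarith) hyp
      linarith
    have hm3 : m ≤ 3717 / 5000 := by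
      by_contra hneg
      push Not at hneg
      have q1 : (m - 1/2) * y ≤ 27 / 200 * ((m ^ 2 + 5 / 4) * y) := by
        rw [hD]; rw [hm] at hct; linarith
      have q2 := le_of_mul_le_mul_right
        (show (m - 1/2) * y ≤ (27 / 200 * (m ^ 2 + 5 / 4)) * y by linarith) hyp
      have q3 := mul_nonneg (sub_nonneg.2 hneg.le) (sub_nonneg.2 hm2)
      linarith
    have hpoly := P1_poly m hm1 hm3
    have hc2 : (t - y / 2) ^ 2 ≤ c ^ 2 := by
      apply pow_le_pow_left₀ _ hct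
      have : 1/2 * y ≤ m * y := mul_le_mul_of_nonneg_right (by linarith) hy
      rw [hm]; linarith
    have ht4 : t ^ 4 ≤ a ^ 4 := pow_le_pow_left₀ ht hta 4
    have ht2' : t ^ 2 ≤ a ^ 2 := pow_le_pow_left₀ ht hta 2
    have s1 : (1 / 20 + 5 * (t - y / 2) ^ 2) * t ^ 2 ≤ (1 / 20 + 5 * c ^ 2) * a ^ 2 := by
      apply mul_le_mul (by linarith) ht2' (by positivity) (by positivity)
    have s2 : (1 - y) ^ 2 ≤ (25 / 81) * ((1 - y ^ 2) ^ 2 + 3 * t ^ 4)
        + (1 / 20 + 5 * (t - y / 2) ^ 2) * t ^ 2 := by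
      have hDp : 0 < m ^ 2 + 5 / 4 := by positivity
      have hyD : y = 1 / (m ^ 2 + 5 / 4) := by
        rw [eq_div_iff hDp.ne']; linarith
      have key : (25 / 81) * ((1 - y ^ 2) ^ 2 + 3 * t ^ 4)
        + (1 / 20 + 5 * (t - y / 2) ^ 2) * t ^ 2 - (1 - y) ^ 2 =
          (m ^ 2 / (m ^ 2 + 5 / 4) ^ 4) * ((725/576)*m^0 + (-5)*m^1 + (3533/648)*m^2 + (-2279/1620)*m^4 + (-56/81)*m^6) := by
        rw [hm, hyD]
        field_simp
        ring
      have : 0 ≤ (m ^ 2 / (m ^ 2 + 5 / 4) ^ 4) * ((725/576)*m^0 + (-5)*m^1 + (3533/648)*m^2 + (-2279/1620)*m^4 + (-56/81)*m^6) :=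
        mul_nonneg (by positivity) hpoly
      linarith
    linarith

theorem P2 (a p y c : ℝ) (ha : 0 ≤ a) (hp : 0 ≤ p) (hy : 0 ≤ y) (h1 : a ^ 2 + p ^ 2 + y ^ 2 = 1)
    (h2 : p + y / 2 < 1) (h3 : a ≤ y) (h4 : p + a ≤ 1 + c) (hc0 : 27 / 200 ≤ c) (hc : c ≤ 1 / 2) :
    (1 - y) ^ 2 ≤ (1 - y ^ 2) ^ 2 / 4 + (475 / 2916) * (1 - y ^ 2) ^ 3
      + a ^ 2 * (8 * c ^ 2 - 67 / 1000 - (9 / 20) * a ^ 2
          + (475 / 2916) * ((1 - y ^ 2) ^ 2 + 3 * a ^ 2 * ((1 - y ^ 2) + a ^ 2))) := by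
  have hA := a_sq_ge a p y hp h1 h2
  have hy4 := y_ge a p y ha hp h1 h2 h3
  have hyp : 0 < y := by linarith
  have hy1 : y ≤ 1 := by
    apply le_of_sq_le_sq _ zero_le_one
    have := sq_nonneg a
    have := sq_nonneg p
    linarith
  have hc2 : 1458 / 10000 ≤ 8 * c ^ 2 := by nlinarith
  have hsw : a ^ 2 ≤ 1 - y ^ 2 := by
    have := sq_nonneg p
    linarith
  have hs0 : 0 ≤ a ^ 2 := sq_nonneg a
  -- general monotonicity in `s = a²`
  have hmono : ∀ s1 s2 C w : ℝ, 0 ≤ s1 → s1 ≤ s2 → 36/100 ≤ w → 1458/10000 ≤ C →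
      s1 * (C - 67 / 1000 - (9 / 20) * s1 + (475 / 2916) * (w ^ 2 + 3 * s1 * (w + s1))) ≤
      s2 * (C - 67 / 1000 - (9 / 20) * s2 + (475 / 2916) * (w ^ 2 + 3 * s2 * (w + s2))) := by
    intro s1 s2 C w h0 h12 hw hC
    have hd : 0 ≤ (C - 67/1000) + (475/2916) * w ^ 2 - (9/20 - 3 * (475/2916) * w) * (s1 + s2)
        + 3 * (475/2916) * (s1 ^ 2 + s1 * s2 + s2 ^ 2) := by
      have q1 : (9/4) * (475/2916) * (s1 + s2) ^ 2 ≤ 3 * (475/2916) * (s1 ^ 2 + s1 * s2 + s2 ^ 2) := by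
        nlinarith [sq_nonneg (s1 - s2)]
      have q2 : 0 ≤ 788/10000 + (475/2916) * w ^ 2 - (9/20 - 3 * (475/2916) * w) * (s1 + s2)
        + (9/4) * (475/2916) * (s1 + s2) ^ 2 := by
        have hS : 0 ≤ s1 + s2 := by linarith
        generalize s1 + s2 = S at hS
        nlinarith [sq_nonneg (S - 1/2), mul_nonneg hS (sub_nonneg.2 hw), sq_nonneg w]
      linarith
    nlinarith [mul_nonneg (sub_nonneg.2 h12) hd]
  rcases le_total (4/5) y with h | h
  · have hbr : 0 ≤ 8 * c ^ 2 - 67 / 1000 - (9 / 20) * a ^ 2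
          + (475 / 2916) * ((1 - y ^ 2) ^ 2 + 3 * a ^ 2 * ((1 - y ^ 2) + a ^ 2)) := by
      have q1 : a ^ 2 * a ^ 2 ≤ (1 - y ^ 2) ^ 2 := by nlinarith
      have q2 : a ^ 2 * a ^ 2 ≤ a ^ 2 * (1 - y ^ 2) := by nlinarith
      generalize a ^ 2 = s at *
      nlinarith [sq_nonneg (s - 1/5)]
    have h6 : 1 ≤ (1 + y) ^ 2 * (1 / 4 + (475/2916) * (1 - y ^ 2)) := by
      nlinarith [mul_nonneg (sub_nonneg.2 h) (sub_nonneg.2 hy1), mul_nonneg (mul_nonneg (sub_nonneg.2 h) (sub_nonneg.2 hy1)) hy, mul_nonneg (mul_nonneg (sub_nonneg.2 h) (sub_nonneg.2 hy1)) (mul_nonneg hy hy)]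
    have h7 := mul_nonneg (sq_nonneg (1 - y)) (sub_nonneg.2 h6)
    have h8 := mul_nonneg hs0 hbr
    nlinarith
  have hA0 : 0 ≤ y - 5 / 4 * y ^ 2 := by nlinarith
  have hw : 36/100 ≤ 1 - y ^ 2 := by nlinarith
  obtain ⟨t, ht, ht2⟩ : ∃ t : ℝ, 0 ≤ t ∧ t ^ 2 = y - 5 / 4 * y ^ 2 :=
    ⟨Real.sqrt (y - 5 / 4 * y ^ 2), Real.sqrt_nonneg _, Real.sq_sqrt hA0⟩
  have hta : t ≤ a := le_of_sq_le_sq (by rw [ht2]; exact hA) ha
  obtain ⟨m, hm⟩ : ∃ m : ℝ, t = m * y := ⟨t / y, by field_simp⟩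
  have hD : (m ^ 2 + 5 / 4) * y = 1 := by
    have : y * ((m ^ 2 + 5 / 4) * y - 1) = 0 := by rw [hm] at ht2; linear_combination ht2
    rcases mul_eq_zero.1 this with h0 | h0 <;> linarith
  have hm0 : 0 ≤ m := by
    by_contra hneg
    push Not at hneg
    have := mul_neg_of_neg_of_pos hneg hyp
    linarith
  have hm2 : m ≤ 1 := by
    apply le_of_sq_le_sq _ zero_le_one
    by_contra hneg
    push Not at hneg
    have := mul_lt_mul_of_pos_right (show 9 / 4 < m ^ 2 + 5 / 4 by linarith) hyp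
    linarith
  have hDp : 0 < m ^ 2 + 5 / 4 := by positivity
  have hyD : y = 1 / (m ^ 2 + 5 / 4) := by
    rw [eq_div_iff hDp.ne']; linarith
  have hmain : ∀ C : ℝ, 1458/10000 ≤ C → C ≤ 8 * c ^ 2 →
      (1 - y) ^ 2 ≤ (1 - y ^ 2) ^ 2 / 4 + (475 / 2916) * (1 - y ^ 2) ^ 3
      + t ^ 2 * (C - 67 / 1000 - (9 / 20) * t ^ 2
          + (475 / 2916) * ((1 - y ^ 2) ^ 2 + 3 * t ^ 2 * ((1 - y ^ 2) + t ^ 2))) →
      (1 - y) ^ 2 ≤ (1 - y ^ 2) ^ 2 / 4 + (475 / 2916) * (1 - y ^ 2) ^ 3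
      + a ^ 2 * (8 * c ^ 2 - 67 / 1000 - (9 / 20) * a ^ 2
          + (475 / 2916) * ((1 - y ^ 2) ^ 2 + 3 * a ^ 2 * ((1 - y ^ 2) + a ^ 2))) := by
    intro C hC1 hC2 hh
    have h5 := hmono (t ^ 2) (a ^ 2) C (1 - y ^ 2) (sq_nonneg t) (by rw [ht2]; exact hA) hw hC1
    have h6 : a ^ 2 * C ≤ a ^ 2 * (8 * c ^ 2) := mul_le_mul_of_nonneg_left hC2 hs0
    linarith
  rcases le_total m (743/1000) with hm3 | hm3
  · apply hmain (1458/10000) le_rfl hc2
    have hM : m ^ 2 ≤ 553/1000 := by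
      have := pow_le_pow_left₀ hm0 hm3 2
      norm_num at this ⊢
      linarith
    have hpoly := P2_poly2 (m ^ 2) (by positivity) hM
    have key : (1 - y ^ 2) ^ 2 / 4 + (475 / 2916) * (1 - y ^ 2) ^ 3
      + t ^ 2 * (1458/10000 - 67 / 1000 - (9 / 20) * t ^ 2
          + (475 / 2916) * ((1 - y ^ 2) ^ 2 + 3 * t ^ 2 * ((1 - y ^ 2) + t ^ 2))) - (1 - y) ^ 2 =
        (m ^ 2 / (m ^ 2 + 5 / 4) ^ 6) * ((251/1152)*(m ^ 2)^0 + (7837/25920)*(m ^ 2)^1 + (65483/72900)*(m ^ 2)^2 + (-364831/182250)*(m ^ 2)^3 + (-984878/455625)*(m ^ 2)^4 + (-428/729)*(m ^ 2)^5) := by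
      rw [hm, hyD]
      field_simp
      ring
    have : 0 ≤ (m ^ 2 / (m ^ 2 + 5 / 4) ^ 6) * ((251/1152)*(m ^ 2)^0 + (7837/25920)*(m ^ 2)^1 + (65483/72900)*(m ^ 2)^2 + (-364831/182250)*(m ^ 2)^3 + (-984878/455625)*(m ^ 2)^4 + (-428/729)*(m ^ 2)^5) := mul_nonneg (by positivity) hpoly
    linarith
  · have h' : y ≤ 2/3 := by
      by_contra hneg
      push Not at hneg
      have q1 := mul_lt_mul_of_pos_left hneg hDp
      rw [hD] at q1
      have q2 : (743/1000 : ℝ) ^ 2 ≤ m ^ 2 := pow_le_pow_left₀ (by norm_num) hm3 2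
      linarith
    have hpa := pa_ge a p y t ha hp h1 h3 h' ht hta ht2
    have hct : t - y / 2 ≤ c := by linarith
    have hct0 : 0 ≤ t - y / 2 := by
      have : 1/2 * y ≤ m * y := mul_le_mul_of_nonneg_right (by linarith) hy
      rw [hm]; linarith
    rcases le_total (1458/10000) (8 * (t - y/2) ^ 2) with hh | hh
    · apply hmain (8 * (t - y/2) ^ 2) hh (by have := pow_le_pow_left₀ hct0 hct 2; linarith)
      have hpoly := P2_poly1 m hm3 hm2
      have key : (1 - y ^ 2) ^ 2 / 4 + (475 / 2916) * (1 - y ^ 2) ^ 3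
        + t ^ 2 * (8 * (t - y/2) ^ 2 - 67 / 1000 - (9 / 20) * t ^ 2
            + (475 / 2916) * ((1 - y ^ 2) ^ 2 + 3 * t ^ 2 * ((1 - y ^ 2) + t ^ 2))) - (1 - y) ^ 2 =
          (m ^ 2 / (m ^ 2 + 5 / 4) ^ 6) * ((55055/18432)*m^0 + (-25/2)*m^1 + (172765/10368)*m^2 + (-20)*m^3 + (5022841/233280)*m^4 + (-8)*m^5 + (768247/145800)*m^6 + (-1682093/729000)*m^8 + (-428/729)*m^10) := by
        rw [hm, hyD]
        field_simp
        ring
      have : 0 ≤ (m ^ 2 / (m ^ 2 + 5 / 4) ^ 6) * ((55055/18432)*m^0 + (-25/2)*m^1 + (172765/10368)*m^2 + (-20)*m^3 + (5022841/233280)*m^4 + (-8)*m^5 + (768247/145800)*m^6 + (-1682093/729000)*m^8 + (-428/729)*m^10) := mul_nonneg (by positivity) hpoly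
      linarith
    · apply hmain (1458/10000) le_rfl hc2
      have hpoly := P2_poly1 m hm3 hm2
      have key : (1 - y ^ 2) ^ 2 / 4 + (475 / 2916) * (1 - y ^ 2) ^ 3
        + t ^ 2 * (8 * (t - y/2) ^ 2 - 67 / 1000 - (9 / 20) * t ^ 2
            + (475 / 2916) * ((1 - y ^ 2) ^ 2 + 3 * t ^ 2 * ((1 - y ^ 2) + t ^ 2))) - (1 - y) ^ 2 =
          (m ^ 2 / (m ^ 2 + 5 / 4) ^ 6) * ((55055/18432)*m^0 + (-25/2)*m^1 + (172765/10368)*m^2 + (-20)*m^3 + (5022841/233280)*m^4 + (-8)*m^5 + (768247/145800)*m^6 + (-1682093/729000)*m^8 + (-428/729)*m^10) := by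
        rw [hm, hyD]
        field_simp
        ring
      have : 0 ≤ (m ^ 2 / (m ^ 2 + 5 / 4) ^ 6) * ((55055/18432)*m^0 + (-25/2)*m^1 + (172765/10368)*m^2 + (-20)*m^3 + (5022841/233280)*m^4 + (-8)*m^5 + (768247/145800)*m^6 + (-1682093/729000)*m^8 + (-428/729)*m^10) := mul_nonneg (by positivity) hpoly
      have h9 : t ^ 2 * (8 * (t - y/2) ^ 2) ≤ t ^ 2 * (1458/10000) :=
        mul_le_mul_of_nonneg_left hh (sq_nonneg t)
      linarith

end Pool.Agent.Boole2
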