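import Pool.Agent.Boole2.Defs

/-! Boole2: scalar inequality (G) for the test function. -/

namespace Pool.Agent.Boole2.TestC

theorem G_piece1 (y : ℝ) (h0 : 0 ≤ y) (h1 : y ≤ (1/5)) :
    0 ≤ (1 + y) ^ 3 * (1 + (-(27/4 * y - 44/5 * y ^ 2)) + (-(27/4 * y - 44/5 * y ^ 2)) ^ 2 / 2 + (-(27/4 * y - 44/5 * y ^ 2)) ^ 3 / 6) -
      ((1 + y) ^ 3 - 3/4 * (y * (3 - y) ^ 2)) := by
  have e0 : 0 ≤ y - 0 := by linarith
  have e1 : 0 ≤ (1/5) - y := by linarith
  have key : (1 + y) ^ 3 * (1 + (-(27/4 * y - 44/5 * y ^ 2)) + (-(27/4 * y - 44/5 * y ^ 2)) ^ 2 / 2 + (-(27/4 * y - 44/5 * y ^ 2)) ^ 3 / 6) -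
      ((1 + y) ^ 3 - 3/4 * (y * (3 - y) ^ 2)) =
      y ^ 2 * (
      (17078125/32) * ((1/5) - y) ^ 7 +
      (407359375/128) * (y - 0) ^ 1 * ((1/5) - y) ^ 6 +
      (1007679875/128) * (y - 0) ^ 2 * ((1/5) - y) ^ 5 +
      (1331412875/128) * (y - 0) ^ 3 * ((1/5) - y) ^ 4 +
      (3012256691/384) * (y - 0) ^ 4 * ((1/5) - y) ^ 3 +
      (1060241973/320) * (y - 0) ^ 5 * ((1/5) - y) ^ 2 +
      (557553519/800) * (y - 0) ^ 6 * ((1/5) - y) ^ 1 +
      (100500009/2000) * (y - 0) ^ 7) := by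
    ring
  rw [key]
  positivity

theorem G_piece2 (y : ℝ) (h0 : (1/5) ≤ y) (h1 : y ≤ (2/5)) :
    0 ≤ (1 + y) ^ 3 * (33286/100000 * (1 + (11/10 - (27/4 * y - 44/5 * y ^ 2)) + (11/10 - (27/4 * y - 44/5 * y ^ 2)) ^ 2 / 2 + (11/10 - (27/4 * y - 44/5 * y ^ 2)) ^ 3 / 6)) -
      ((1 + y) ^ 3 - 3/4 * (y * (3 - y) ^ 2)) := by
  have e0 : 0 ≤ y - (1/5) := by linarith
  have e1 : 0 ≤ (2/5) - y := by linarith
  have key : (1 + y) ^ 3 * (33286/100000 * (1 + (11/10 - (27/4 * y - 44/5 * y ^ 2)) + (11/10 - (27/4 * y - 44/5 * y ^ 2)) ^ 2 / 2 + (11/10 - (27/4 * y - 44/5 * y ^ 2)) ^ 3 / 6)) -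
      ((1 + y) ^ 3 - 3/4 * (y * (3 - y) ^ 2)) =
      (16590718875837/100000000) * ((2/5) - y) ^ 9 +
      (318582871112097/200000000) * (y - (1/5)) ^ 1 * ((2/5) - y) ^ 8 +
      (2628422697664917/400000000) * (y - (1/5)) ^ 2 * ((2/5) - y) ^ 7 +
      (12226384742061807/800000000) * (y - (1/5)) ^ 3 * ((2/5) - y) ^ 6 +
      (17641679300729941/800000000) * (y - (1/5)) ^ 4 * ((2/5) - y) ^ 5 +
      (16330616059382597/800000000) * (y - (1/5)) ^ 5 * ((2/5) - y) ^ 4 +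
      (28965931459285823/2400000000) * (y - (1/5)) ^ 6 * ((2/5) - y) ^ 3 +
      (873678629415497/200000000) * (y - (1/5)) ^ 7 * ((2/5) - y) ^ 2 +
      (21826687425407/25000000) * (y - (1/5)) ^ 8 * ((2/5) - y) ^ 1 +
      (460924782729/6250000) * (y - (1/5)) ^ 9 := by
    ring
  rw [key]
  positivity

theorem G_piece3 (y : ℝ) (h0 : (2/5) ≤ y) (h1 : y ≤ (1/2)) :
    0 ≤ (1 + y) ^ 3 * (33286/100000 * (1 + (11/10 - (27/4 * y - 44/5 * y ^ 2)) + (11/10 - (27/4 * y - 44/5 * y ^ 2)) ^ 2 / 2 + (11/10 - (27/4 * y - 44/5 * y ^ 2)) ^ 3 / 6)) -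
      ((1 + y) ^ 3 - 3/4 * (y * (3 - y) ^ 2)) := by
  have e0 : 0 ≤ y - (2/5) := by linarith
  have e1 : 0 ≤ (1/2) - y := by linarith
  have key : (1 + y) ^ 3 * (33286/100000 * (1 + (11/10 - (27/4 * y - 44/5 * y ^ 2)) + (11/10 - (27/4 * y - 44/5 * y ^ 2)) ^ 2 / 2 + (11/10 - (27/4 * y - 44/5 * y ^ 2)) ^ 3 / 6)) -
      ((1 + y) ^ 3 - 3/4 * (y * (3 - y) ^ 2)) =
      (14749593047328/390625) * ((1/2) - y) ^ 9 +
      (4472510257492/15625) * (y - (2/5)) ^ 1 * ((1/2) - y) ^ 8 +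
      (11694582328573/12500) * (y - (2/5)) ^ 2 * ((1/2) - y) ^ 7 +
      (516758282672417/300000) * (y - (2/5)) ^ 3 * ((1/2) - y) ^ 6 +
      (15715524260803/8000) * (y - (2/5)) ^ 4 * ((1/2) - y) ^ 5 +
      (4642166933711/3200) * (y - (2/5)) ^ 5 * ((1/2) - y) ^ 4 +
      (4620287567661/6400) * (y - (2/5)) ^ 6 * ((1/2) - y) ^ 3 +
      (66481988643/256) * (y - (2/5)) ^ 7 * ((1/2) - y) ^ 2 +
      (18030731715/256) * (y - (2/5)) ^ 8 * ((1/2) - y) ^ 1 +
      (2810340555/256) * (y - (2/5)) ^ 9 := by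
    ring
  rw [key]
  positivity

theorem G_piece4 (y : ℝ) (h0 : (1/2) ≤ y) (h1 : y ≤ (63/100)) :
    0 ≤ (1 + y) ^ 3 * (33286/100000 * (1 + (11/10 - (27/4 * y - 44/5 * y ^ 2)) + (11/10 - (27/4 * y - 44/5 * y ^ 2)) ^ 2 / 2 + (11/10 - (27/4 * y - 44/5 * y ^ 2)) ^ 3 / 6)) -
      ((1 + y) ^ 3 - 3/4 * (y * (3 - y) ^ 2)) := by
  have e0 : 0 ≤ y - (1/2) := by linarith
  have e1 : 0 ≤ (63/100) - y := by linarith
  have key : (1 + y) ^ 3 * (33286/100000 * (1 + (11/10 - (27/4 * y - 44/5 * y ^ 2)) + (11/10 - (27/4 * y - 44/5 * y ^ 2)) ^ 2 / 2 + (11/10 - (27/4 * y - 44/5 * y ^ 2)) ^ 3 / 6)) -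
      ((1 + y) ^ 3 - 3/4 * (y * (3 - y) ^ 2)) =
      (10977892792968750/10604499373) * ((63/100) - y) ^ 9 +
      (135680071324218750/10604499373) * (y - (1/2)) ^ 1 * ((63/100) - y) ^ 8 +
      (1689536824047421875/21208998746) * (y - (1/2)) ^ 2 * ((63/100) - y) ^ 7 +
      (6274989985729205625/21208998746) * (y - (1/2)) ^ 3 * ((63/100) - y) ^ 6 +
      (58666098876783952625/84835994984) * (y - (1/2)) ^ 4 * ((63/100) - y) ^ 5 +
      (88522919458491246085/84835994984) * (y - (1/2)) ^ 5 * ((63/100) - y) ^ 4 +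
      (25895234451741670115299/25450798495200) * (y - (1/2)) ^ 6 * ((63/100) - y) ^ 3 +
      (26334388179171937306339/42417997492000) * (y - (1/2)) ^ 7 * ((63/100) - y) ^ 2 +
      (229154559759990308897963/1060449937300000) * (y - (1/2)) ^ 8 * ((63/100) - y) ^ 1 +
      (13053699119697136930350251/397668726487500000) * (y - (1/2)) ^ 9 := by
    ring
  rw [key]
  positivity

/-- cubic Taylor lower bound of the exponential -/
theorem exp_ge_cubic (t : ℝ) : 1 + t + t ^ 2 / 2 + t ^ 3 / 6 ≤ Real.exp t := by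
  -- first: `exp t - 1 - t - t²/2` is monotone
  have h1 : Monotone (fun t : ℝ => Real.exp t - (1 + t + t ^ 2 / 2)) := by
    have hd : ∀ t : ℝ, HasDerivAt (fun t : ℝ => Real.exp t - (1 + t + t ^ 2 / 2))
        (Real.exp t - (1 + t)) t := by
      intro t
      have := (Real.hasDerivAt_exp t).sub (((hasDerivAt_id t).const_add 1).add
        (((hasDerivAt_id t).pow 2).div_const 2))
      exact this.congr_deriv (by simp)
    refine monotone_of_deriv_nonneg (fun t => (hd t).differentiableAt) fun t => ?_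
    rw [(hd t).deriv]
    linarith [Real.add_one_le_exp t]
  have hd : ∀ t : ℝ, HasDerivAt (fun t : ℝ => Real.exp t - (1 + t + t ^ 2 / 2 + t ^ 3 / 6))
      (Real.exp t - (1 + t + t ^ 2 / 2)) t := by
    intro t
    have := (Real.hasDerivAt_exp t).sub ((((hasDerivAt_id t).const_add 1).add
      (((hasDerivAt_id t).pow 2).div_const 2)).add (((hasDerivAt_id t).pow 3).div_const 6))
    exact this.congr_deriv (by simp; ring)
  have hc : Continuous (fun t : ℝ => Real.exp t - (1 + t + t ^ 2 / 2 + t ^ 3 / 6)) :=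
    continuous_iff_continuousAt.2 fun t => (hd t).continuousAt
  rcases le_total 0 t with ht | ht
  · have hm : MonotoneOn (fun t : ℝ => Real.exp t - (1 + t + t ^ 2 / 2 + t ^ 3 / 6))
        (Set.Ici 0) := by
      refine monotoneOn_of_deriv_nonneg (convex_Ici 0) hc.continuousOn
        (fun t _ => (hd t).differentiableAt.differentiableWithinAt) fun t ht => ?_
      rw [(hd t).deriv]
      rw [interior_Ici] at ht
      have := h1 (le_of_lt ht : (0 : ℝ) ≤ t)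
      simp at this
      linarith
    have := hm (Set.mem_Ici.2 le_rfl) (Set.mem_Ici.2 ht) ht
    simp at this
    linarith
  · have hm : AntitoneOn (fun t : ℝ => Real.exp t - (1 + t + t ^ 2 / 2 + t ^ 3 / 6))
        (Set.Iic 0) := by
      refine antitoneOn_of_deriv_nonpos (convex_Iic 0) hc.continuousOn
        (fun t _ => (hd t).differentiableAt.differentiableWithinAt) fun t ht => ?_
      rw [(hd t).deriv]
      rw [interior_Iic] at ht
      have := h1 (le_of_lt ht : t ≤ (0 : ℝ))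
      simp at this
      linarith
    have := hm (Set.mem_Iic.2 ht) (Set.mem_Iic.2 le_rfl) ht
    simp at this
    linarith

theorem exp_neg_11 : (33286/100000 : ℝ) ≤ Real.exp (-(11/10)) := by
  have h1 : (0.36787944116 : ℝ) < Real.exp (-1) := Real.exp_neg_one_gt_d9
  have h2 := exp_ge_cubic (-(1/10))
  have h3 : Real.exp (-(11/10)) = Real.exp (-1) * Real.exp (-(1/10)) := by
    rw [← Real.exp_add]; norm_num
  rw [h3]
  have h4 : (0.904833 : ℝ) ≤ Real.exp (-(1/10)) := by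
    refine le_trans ?_ h2
    norm_num
  calc (33286/100000 : ℝ) ≤ 0.36787944116 * 0.904833 := by norm_num
    _ ≤ _ := mul_le_mul h1.le h4 (by norm_num) (Real.exp_pos _).le

end Pool.Agent.Boole2.TestC

namespace Pool.Agent.Boole2

open TestC

/-- scalar inequality (G) -/
theorem scalar_G (y : ℝ) (h0 : 0 ≤ y) (h1 : y ≤ 63/100) :
    1 - (3/4) * (y * (3 - y) ^ 2 / (1 + y) ^ 3) ≤ Real.exp (-(27/4) * y + (44/5) * y ^ 2) := by
  have hy : 0 < (1 + y) ^ 3 := by positivity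
  have e1 : 1 - (3/4) * (y * (3 - y) ^ 2 / (1 + y) ^ 3) =
      ((1 + y) ^ 3 - 3/4 * (y * (3 - y) ^ 2)) / (1 + y) ^ 3 := by
    field_simp
  rw [e1, div_le_iff₀ hy]
  rcases le_total y (1/5) with h | h
  · have h2 := G_piece1 y h0 h
    have h3 := exp_ge_cubic (-(27/4 * y - 44/5 * y ^ 2))
    have h4 := mul_le_mul_of_nonneg_left h3 hy.le
    have h5 : -(27/4) * y + (44/5) * y ^ 2 = -(27/4 * y - 44/5 * y ^ 2) := by ring
    rw [h5]
    linarith
  · have h3 := exp_ge_cubic (11/10 - (27/4 * y - 44/5 * y ^ 2))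
    have h5 : -(27/4) * y + (44/5) * y ^ 2 = -(11/10) + (11/10 - (27/4 * y - 44/5 * y ^ 2)) := by
      ring
    rw [h5, Real.exp_add]
    set t := 11/10 - (27/4 * y - 44/5 * y ^ 2) with ht
    have h2 : 0 ≤ (1 + y) ^ 3 * (33286/100000 * (1 + t + t ^ 2 / 2 + t ^ 3 / 6)) -
        ((1 + y) ^ 3 - 3/4 * (y * (3 - y) ^ 2)) := by
      rcases le_total y (2/5) with h' | h'
      · exact G_piece2 y h h'
      · rcases le_total y (1/2) with h'' | h''
        · exact G_piece3 y h' h''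
        · exact G_piece4 y h'' h1
    have h6 := exp_neg_11
    have h7 : (33286/100000) * (1 + t + t ^ 2 / 2 + t ^ 3 / 6) ≤
        Real.exp (-(11/10)) * Real.exp t :=
      (mul_le_mul_of_nonneg_left h3 (by norm_num)).trans
        (mul_le_mul_of_nonneg_right h6 (Real.exp_pos _).le)
    have h8 := mul_le_mul_of_nonneg_left h7 hy.le
    linarith

end Pool.Agent.Boole2
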