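import Pool.Agent.Boole2.TestA
import Pool.Agent.Boole2.TestG

/-! Boole2, part C: lower bound for `E|c+q|` from the test function. -/

open Finset

namespace Pool.Agent.Boole2.TestC

variable {ι : Type*} [Fintype ι] [DecidableEq ι]

theorem Zf_cube (g h : ι → ℝ) (x : ι → ℤˣ) :
    Zf (fun k => g k ^ 3 - 3 * g k * h k ^ 2) (fun k => 3 * g k ^ 2 * h k - h k ^ 3) x =
      Zf g h x ^ 3 := by
  unfold Zf
  rw [← Finset.prod_pow]
  refine Finset.prod_congr rfl fun k _ => ?_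
  have h1 : ((sg (x k) : ℝ) : ℂ) ^ 2 = 1 := by
    rw [← Complex.ofReal_pow, sgC_sq]; norm_num
  have h2 : Complex.I ^ 2 = -1 := Complex.I_sq
  push_cast
  generalize ((sg (x k) : ℝ) : ℂ) = s at *
  generalize (g k : ℂ) = a
  generalize (h k : ℂ) = b
  have h3 : Complex.I ^ 3 = - Complex.I := by rw [pow_succ, h2]; ring
  have h4 : s ^ 3 = s := by rw [pow_succ, h1]; ring
  have : (a + Complex.I * b * s) ^ 3 = a ^ 3 + 3 * a ^ 2 * b * (Complex.I * s) +
      3 * a * b ^ 2 * (Complex.I ^ 2 * s ^ 2) + b ^ 3 * (Complex.I ^ 3 * s ^ 3) := by ring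
  rw [this, h1, h2, h3, h4]
  ring

theorem re_cube (z : ℂ) (h : z.re ^ 2 + z.im ^ 2 = 1) : (z ^ 3).re = 4 * z.re ^ 3 - 3 * z.re := by
  have : (z ^ 3).re = z.re ^ 3 - 3 * z.re * z.im ^ 2 := by
    simp only [pow_succ, pow_zero, one_mul, Complex.mul_re, Complex.mul_im]
    ring
  rw [this]
  have h2 : z.im ^ 2 = 1 - z.re ^ 2 := by linarith
  rw [h2]
  ring

theorem phi_le (X : ℝ) (h : X ^ 2 ≤ 1) :
    |-(2 / Real.sqrt 3) * X + (Real.sqrt 3 / 9) * (4 * X ^ 3 - 3 * X)| ≤ 1 := by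
  have hw : Real.sqrt 3 ^ 2 = 3 := Real.sq_sqrt (by norm_num)
  have hw0 : 0 < Real.sqrt 3 := Real.sqrt_pos.2 (by norm_num)
  set w := Real.sqrt 3
  set r := 2 * w / 3 * X with hr
  have hX : X = w / 2 * r := by
    rw [hr]
    have : w / 2 * (2 * w / 3 * X) = w ^ 2 / 3 * X := by ring
    rw [this, hw]
    ring
  have h2w : 2 / w = 2 * w / 3 := by
    rw [div_eq_div_iff hw0.ne' (by norm_num)]
    nlinarith
  have e : -(2 / w) * X + (w / 9) * (4 * X ^ 3 - 3 * X) = -(3/2) * r + r ^ 3 / 2 := by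
    rw [h2w, hX]
    have : -(2 * w / 3) * (w / 2 * r) + (w / 9) * (4 * (w / 2 * r) ^ 3 - 3 * (w / 2 * r)) =
      -(w ^ 2 / 3) * r + (w ^ 2) ^ 2 / 18 * r ^ 3 - w ^ 2 / 6 * r := by ring
    rw [this, hw]
    ring
  have hr2 : r ^ 2 ≤ 2 ^ 2 := by
    have : r ^ 2 = 4 * w ^ 2 / 9 * X ^ 2 := by rw [hr]; ring
    rw [this, hw]
    nlinarith
  have hrr := abs_le_of_sq_le_sq' hr2 (by norm_num)
  rw [e, abs_le]
  constructor
  · nlinarith [mul_nonneg (sq_nonneg (r - 1)) (by linarith [hrr.1] : 0 ≤ r + 2)]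
  · nlinarith [mul_nonneg (sq_nonneg (r + 1)) (by linarith [hrr.2] : 0 ≤ 2 - r)]

theorem E_mono {F G : (ι → ℤˣ) → ℝ} (h : ∀ x, F x ≤ G x) : E F ≤ E G := by
  unfold E
  exact div_le_div_of_nonneg_right (Finset.sum_le_sum fun x _ => h x) (by positivity)

theorem E_lin (F G : (ι → ℤˣ) → ℝ) (a b : ℝ) :
    E (fun x => a * F x + b * G x) = a * E F + b * E G := by
  unfold E
  rw [Finset.sum_add_distrib, ← Finset.mul_sum, ← Finset.mul_sum]
  ring

theorem prd_mul (g : ι → ℝ) {i j : ι} (hij : i ≠ j) : g i * g j * prd g i j = ∏ k, g k := by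
  rw [prd_eq]
  rw [← Finset.mul_prod_erase univ g (mem_univ i)]
  rw [← Finset.mul_prod_erase (univ.erase i) g (Finset.mem_erase.2 ⟨hij.symm, mem_univ j⟩)]
  ring

end Pool.Agent.Boole2.TestC

namespace Pool.Agent.Boole2

open TestC

variable {ι : Type*} [Fintype ι] [DecidableEq ι]

/-- (T2): lower bound for `E|c+q|` from the test function.  `v` unit eigenvector, `u = √2.2 v`,
all `u_i² ≤ 0.63`, `s ≥ ∑ v⁴`. -/
theorem test_bound (A : ι → ι → ℝ) (hA : SZ A) (hn : nsq A = 1) (c : ℝ) (lam : ℝ) (v : ι → ℝ)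
    (hv : ∑ i, v i ^ 2 = 1) (he : ∀ i, ∑ j, A i j * v j = lam * v i)
    (hsmall : ∀ i, (11/5) * v i ^ 2 ≤ 63/100) (s : ℝ) (hs : ∑ i, v i ^ 4 ≤ s) (hpos : c ≤ (11/10) * lam) :
    (2 / Real.sqrt 3) * ((11/10) * lam - c) * Real.exp (-(11/10))
      - (Real.sqrt 3 / 9) * Real.sqrt (1 + c ^ 2) * (4 * Real.exp ((-(297/20) + (5324/125) * s) / 2))
      ≤ mm A c := by
  have hw0 : 0 < Real.sqrt 3 := Real.sqrt_pos.2 (by norm_num)
  set w := Real.sqrt 3
  have hq : Real.sqrt (11/5) ^ 2 = 11/5 := Real.sq_sqrt (by norm_num)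
  set q := Real.sqrt (11/5)
  set u : ι → ℝ := fun k => q * v k with hu
  have hu2 : ∀ k, u k ^ 2 = (11/5) * v k ^ 2 := fun k => by
    simp only [hu]; rw [mul_pow, hq]
  set D : ι → ℝ := fun k => Real.sqrt (1 + u k ^ 2) with hD
  have hD0 : ∀ k, 0 < D k := fun k => Real.sqrt_pos.2 (by positivity)
  have hD2 : ∀ k, D k ^ 2 = 1 + u k ^ 2 := fun k => Real.sq_sqrt (by positivity)
  set g : ι → ℝ := fun k => (D k)⁻¹ with hg
  set h : ι → ℝ := fun k => u k * (D k)⁻¹ with hh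
  have hg2 : ∀ k, g k ^ 2 = (1 + u k ^ 2)⁻¹ := fun k => by
    simp only [hg]; rw [inv_pow, hD2]
  have hh2 : ∀ k, h k ^ 2 = u k ^ 2 * (1 + u k ^ 2)⁻¹ := fun k => by
    simp only [hh]; rw [mul_pow, inv_pow, hD2]
  have hgh : ∀ k, g k ^ 2 + h k ^ 2 = 1 := fun k => by
    rw [hg2, hh2]
    have : (1 + u k ^ 2) ≠ 0 := by positivity
    field_simp
  set G : ι → ℝ := fun k => g k ^ 3 - 3 * g k * h k ^ 2 with hG
  set H : ι → ℝ := fun k => 3 * g k ^ 2 * h k - h k ^ 3 with hH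
  have hGH : ∀ k, G k ^ 2 + H k ^ 2 = 1 := fun k => by
    simp only [hG, hH]
    have : (g k ^ 3 - 3 * g k * h k ^ 2) ^ 2 + (3 * g k ^ 2 * h k - h k ^ 3) ^ 2 =
      (g k ^ 2 + h k ^ 2) ^ 3 := by ring
    rw [this, hgh]; norm_num
  -- the test function
  have hZ := fun x => norm_Zf g h hgh x
  have hre : ∀ x, (Zf G H x).re = 4 * (Zf g h x).re ^ 3 - 3 * (Zf g h x).re := fun x => by
    rw [← re_cube _ (hZ x), ← Zf_cube]
  have hphi : ∀ x, |-(2 / w) * (Zf g h x).re + (w / 9) * (Zf G H x).re| ≤ 1 := fun x => by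
    rw [hre]
    refine phi_le _ ?_
    nlinarith [hZ x, sq_nonneg (Zf g h x).im]
  have hmm : E (fun x => -(2 / w) * ((c + qf A x) * (Zf g h x).re) +
      (w / 9) * ((c + qf A x) * (Zf G H x).re)) ≤ mm A c := by
    unfold mm
    refine E_mono fun x => ?_
    have e : -(2 / w) * ((c + qf A x) * (Zf g h x).re) + (w / 9) * ((c + qf A x) * (Zf G H x).re) =
      (c + qf A x) * (-(2 / w) * (Zf g h x).re + (w / 9) * (Zf G H x).re) := by ring
    rw [e]
    refine (le_abs_self _).trans ?_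
    rw [abs_mul]
    exact mul_le_of_le_one_right (abs_nonneg _) (hphi x)
  rw [E_lin, E_f_Zf A hA c g h, E_f_Zf A hA c G H] at hmm
  -- the linear term
  set P := ∏ k, g k with hP
  have hg0 : ∀ k, 0 < g k := fun k => inv_pos.2 (hD0 k)
  have e1 : ∑ i, ∑ j, A i j * (h i * h j * prd g i j) = P * ((11/5) * lam) := by
    have e2 : ∀ i j, A i j * (h i * h j * prd g i j) = (P * (11/5)) * (v i * (A i j * v j)) := by
      intro i j
      by_cases hij : i = j
      · subst hij; simp [hA.diag]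
      · have e3 := prd_mul g hij
        have e4 : h i * h j * prd g i j = u i * u j * (g i * g j * prd g i j) := by
          simp only [hh, hg]; ring
        rw [e4, e3]
        simp only [hu]
        have : A i j * (q * v i * (q * v j) * ∏ k, g k) =
          q ^ 2 * (P * (v i * (A i j * v j))) := by rw [hP]; ring
        rw [this, hq]
        ring
    rw [Finset.sum_congr rfl fun i _ => Finset.sum_congr rfl fun j _ => e2 i j]
    rw [Finset.sum_congr rfl fun i _ => (Finset.mul_sum _ _ _).symm, ← Finset.mul_sum]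
    rw [Finset.sum_congr rfl fun i _ => (Finset.mul_sum _ _ _).symm]
    have e5 : ∀ i, v i * ∑ j, A i j * v j = lam * v i ^ 2 := fun i => by rw [he]; ring
    rw [Finset.sum_congr rfl fun i _ => e5 i, ← Finset.mul_sum, hv]
    ring
  have hPlow : Real.exp (-(11/10)) ≤ P := by
    have e6 : Real.exp (-(11/10)) = ∏ k, Real.exp (-(u k ^ 2 / 2)) := by
      rw [← Real.exp_sum]
      congr 1
      rw [Finset.sum_neg_distrib, ← Finset.sum_div, Finset.sum_congr rfl fun k _ => hu2 k,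
        ← Finset.mul_sum, hv]
      norm_num
    rw [e6, hP]
    refine Finset.prod_le_prod (fun k _ => (Real.exp_pos _).le) fun k _ => ?_
    simp only [hg]
    rw [Real.exp_neg]
    refine inv_anti₀ (hD0 k) ?_
    have e7 : D k ^ 2 ≤ Real.exp (u k ^ 2 / 2) ^ 2 := by
      rw [hD2, ← Real.exp_nat_mul]
      have := Real.add_one_le_exp (u k ^ 2)
      have e8 : ((2 : ℕ) : ℝ) * (u k ^ 2 / 2) = u k ^ 2 := by push_cast; ring
      rw [e8]
      linarith
    exact (pow_le_pow_iff_left₀ (hD0 k).le (Real.exp_pos _).le (by norm_num)).1 e7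
  -- the cubic term
  have hcub := pairing_le A hA c G H
  set R := c * ∏ k, G k - (1/2) * ∑ i, ∑ j, A i j * (H i * H j * prd G i j) with hR
  have hprod : ∏ k, (G k ^ 2 + H k ^ 2 / 4) ≤ Real.exp (-(297/20) + (5324/125) * s) := by
    have e9 : ∏ k, (G k ^ 2 + H k ^ 2 / 4) ≤
        ∏ k, Real.exp (-(27/4) * u k ^ 2 + (44/5) * (u k ^ 2) ^ 2) := by
      refine Finset.prod_le_prod (fun k _ => by positivity) fun k _ => ?_
      have e10 : G k ^ 2 + H k ^ 2 / 4 = 1 - (3/4) * H k ^ 2 := by linarith [hGH k]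
      have e11 : H k ^ 2 = u k ^ 2 * (3 - u k ^ 2) ^ 2 / (1 + u k ^ 2) ^ 3 := by
        have : H k = h k * (3 * g k ^ 2 - h k ^ 2) := by simp only [hH]; ring
        rw [this, mul_pow, hh2, hg2]
        have : (1 + u k ^ 2) ≠ 0 := by positivity
        field_simp
      rw [e10, e11]
      exact scalar_G (u k ^ 2) (sq_nonneg _) (by rw [hu2]; exact hsmall k)
    refine e9.trans ?_
    rw [← Real.exp_sum]
    refine Real.exp_le_exp.2 ?_
    have e12 : ∀ k, -(27/4) * u k ^ 2 + (44/5) * (u k ^ 2) ^ 2 =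
        -(297/20) * v k ^ 2 + (5324/125) * v k ^ 4 := fun k => by
      rw [hu2]; ring
    rw [Finset.sum_congr rfl fun k _ => e12 k, Finset.sum_add_distrib, ← Finset.mul_sum,
      ← Finset.mul_sum, hv]
    linarith
  have hRabs : |R| ≤ Real.sqrt (1 + c ^ 2) *
      (4 * Real.exp ((-(297/20) + (5324/125) * s) / 2)) := by
    refine abs_le_of_sq_le_sq ?_ (by positivity)
    rw [mul_pow, mul_pow, Real.sq_sqrt (by positivity), ← Real.exp_nat_mul]
    have e13 : ((2 : ℕ) : ℝ) * ((-(297/20) + (5324/125) * s) / 2) =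
      -(297/20) + (5324/125) * s := by push_cast; ring
    rw [e13]
    refine hcub.trans ?_
    rw [hn]
    have e14 : (c ^ 2 + 1) * (16 * ∏ k, (G k ^ 2 + H k ^ 2 / 4)) ≤
      (c ^ 2 + 1) * (16 * Real.exp (-(297/20) + (5324/125) * s)) :=
      mul_le_mul_of_nonneg_left (mul_le_mul_of_nonneg_left hprod (by norm_num)) (by positivity)
    refine e14.trans (le_of_eq ?_)
    ring
  have hRlow := (abs_le.1 hRabs).1
  have h1 : (w / 9) * (-(Real.sqrt (1 + c ^ 2) *
      (4 * Real.exp ((-(297/20) + (5324/125) * s) / 2)))) ≤ (w / 9) * R :=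
    mul_le_mul_of_nonneg_left hRlow (by positivity)
  have h2 : (2 / w) * ((11/10) * lam - c) * Real.exp (-(11/10)) ≤
      -(2 / w) * (c * P - (1/2) * ∑ i, ∑ j, A i j * (h i * h j * prd g i j)) := by
    rw [e1]
    have e15 : -(2 / w) * (c * P - (1/2) * (P * ((11/5) * lam))) =
      (2 / w) * ((11/10) * lam - c) * P := by ring
    rw [e15]
    refine mul_le_mul_of_nonneg_left hPlow (mul_nonneg (by positivity) (by linarith))
  linarith

end Pool.Agent.Boole2
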