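import Pool.Agent.Boole2.CubeF
import Pool.Agent.Boole2.Mat
import Pool.Agent.Boole2.Test
import Pool.Agent.Boole2.Scalar

set_option maxHeartbeats 1000000

set_option linter.unusedSectionVars false

open Finset

namespace Pool.Agent.Boole2

variable {ι : Type*} [Fintype ι] [DecidableEq ι]

/-! ### PART E : assembly -/

theorem osum_mono {G H : ι → ι → ℝ} (h : ∀ i j, i ≠ j → G i j ≤ H i j) : osum G ≤ osum H := by
  unfold osum
  refine Finset.sum_le_sum (fun i _ => Finset.sum_le_sum (fun j _ => ?_))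
  split_ifs with hij
  · exact le_refl _
  · exact h i j hij

theorem osum_add (G H : ι → ι → ℝ) :
    osum (fun i j => G i j + H i j) = osum G + osum H := by
  unfold osum
  rw [← Finset.sum_add_distrib]
  refine Finset.sum_congr rfl (fun i _ => ?_)
  rw [← Finset.sum_add_distrib]
  refine Finset.sum_congr rfl (fun j _ => ?_)
  split_ifs <;> ring

theorem osum_mul (t : ℝ) (G : ι → ι → ℝ) :
    osum (fun i j => t * G i j) = t * osum G := by
  unfold osum
  rw [Finset.mul_sum]
  refine Finset.sum_congr rfl (fun i _ => ?_)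
  rw [Finset.mul_sum]
  refine Finset.sum_congr rfl (fun j _ => ?_)
  split_ifs <;> ring

theorem osum_congr {G H : ι → ι → ℝ} (h : ∀ i j, i ≠ j → G i j = H i j) : osum G = osum H := by
  apply le_antisymm
  · exact osum_mono (fun i j hij => (h i j hij).le)
  · exact osum_mono (fun i j hij => (h i j hij).ge)

theorem osum_eq_sum {G : ι → ι → ℝ} (h : ∀ i, G i i = 0) : osum G = ∑ i, ∑ j, G i j := by
  unfold osum
  refine Finset.sum_congr rfl (fun i _ => Finset.sum_congr rfl (fun j _ => ?_))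
  split_ifs with hij
  · subst hij; exact (h i).symm
  · rfl

theorem osum_sq (A : ι → ι → ℝ) (hA : SZ A) : osum (fun i j => A i j ^ 2) = 2 * nsq A := by
  rw [osum_eq_sum (fun i => by simp [hA.diag])]
  unfold nsq; ring

theorem osum_four (A : ι → ι → ℝ) (hA : SZ A) :
    osum (fun i j => A i j ^ 4) = ∑ i, ∑ j, A i j ^ 4 :=
  osum_eq_sum (fun i => by simp [hA.diag])

/-- number of nonzero rows -/
noncomputable def nzr (A : ι → ι → ℝ) : ℕ := by
  classical exact (univ.filter (fun k => ∃ l, A k l ≠ 0)).card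

theorem bb_zero_right (A : ι → ι → ℝ) (hA : SZ A) (c : ℝ) {i j : ι} (hij : i ≠ j)
    (hj : ∀ l, A j l = 0) : bb A c i j = 0 := by
  have hm : mgA A i j 1 = A := by
    funext k l
    unfold mgA
    have h1 : sg (1 : ℤˣ) = 1 := by simp [sg]
    have hj' : ∀ k, A k j = 0 := fun k => by rw [hA.symm]; exact hj k
    split_ifs with h h2 h3 h4
    · rcases h with h | h
      · rw [h]; exact (hj l).symm
      · rw [h]; exact (hj' k).symm
    · rw [h2.1, h2.2]; exact (hA.diag i).symm
    · rw [h1, hj l, h3]; ring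
    · rw [h1, hj' k, h4]; ring
    · rfl
  have h := mm_mgA A hA c hij 1
  rw [hm] at h
  have h1 : sg (1 : ℤˣ) = 1 := by simp [sg]
  have h0 : A i j = 0 := by rw [hA.symm]; exact hj i
  rw [h1, h0] at h
  simp at h
  exact h

theorem bb_symm (A : ι → ι → ℝ) (c : ℝ) (i j : ι) : bb A c i j = bb A c j i := by
  unfold bb
  congr 1
  funext x
  ring

/-- the induction hypothesis -/
def IH (ι : Type*) [Fintype ι] [DecidableEq ι] (N : ℕ) : Prop :=
  ∀ (A : ι → ι → ℝ), SZ A → nzr A < N → ∀ c : ℝ, nsq A ≤ 4 * mm A c ^ 2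

theorem nzr_mgA_lt (A : ι → ι → ℝ) (hA : SZ A) {i j : ι} (hij : i ≠ j)
    (hi : ∃ l, A i l ≠ 0) (hj : ∃ l, A j l ≠ 0) (ε : ℤˣ) : nzr (mgA A i j ε) < nzr A := by
  classical
  unfold nzr
  apply Finset.card_lt_card
  rw [Finset.ssubset_iff_of_subset]
  · refine ⟨j, ?_, ?_⟩
    · simpa using hj
    · simp only [Finset.mem_filter, Finset.mem_univ, true_and, not_exists, not_not]
      intro l
      exact mgA_row A ε l
  · intro k hk
    simp only [Finset.mem_filter, Finset.mem_univ, true_and] at hk ⊢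
    by_contra hcon
    push Not at hcon
    by_cases hki : k = i
    · subst hki
      obtain ⟨l, hl⟩ := hi
      exact hl (hcon l)
    · obtain ⟨l, hl⟩ := hk
      exact hl (mgA_row_zero A hA hcon hki ε l)

theorem mm_nonneg (A : ι → ι → ℝ) (c : ℝ) : 0 ≤ mm A c := by
  unfold mm E
  apply div_nonneg
  · exact Finset.sum_nonneg (fun x _ => abs_nonneg _)
  · positivity

/-- the pair lemma -/
theorem pair (A : ι → ι → ℝ) (hA : SZ A) (hn : nsq A = 1) (ih : IH ι (nzr A)) (c : ℝ)
    (hm : mm A c < 1 / 2) {i j : ι} (hij : i ≠ j) :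
    ∃ a p y : ℝ, 0 ≤ a ∧ 0 ≤ p ∧ 0 ≤ y ∧ a ^ 2 + p ^ 2 + y ^ 2 = 1 ∧ p + y / 2 < 1 ∧ a ≤ y ∧
      p + a ≤ 1 + |c| ∧ 1 - y ^ 2 = ww A i j ∧ a ^ 2 = A i j ^ 2 ∧
      4 * bb A c i j ^ 2 ≤ (1 - y) ^ 2 := by
  have hm0 := mm_nonneg A c
  by_cases hz : (∃ l, A i l ≠ 0) ∧ (∃ l, A j l ≠ 0)
  · obtain ⟨hi, hj⟩ := hz
    -- choose the sign
    obtain ⟨ε, hε⟩ : ∃ ε : ℤˣ, sg ε * ta A i j = |ta A i j| := by
      rcases le_or_gt 0 (ta A i j) with h | h
      · exact ⟨1, by simp [sg, abs_of_nonneg h]⟩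
      · exact ⟨-1, by simp [sg, abs_of_neg h]⟩
    have hneg : sg (-ε) = - sg ε := by simp [sg]
    have key : ∀ δ : ℤˣ, nsq A - A i j ^ 2 + 2 * sg δ * ta A i j
        ≤ 4 * (mm A c + sg δ * bb A c i j) ^ 2 := by
      intro δ
      have h1 := ih (mgA A i j δ) (mgA_SZ A hA hij δ) (nzr_mgA_lt A hA hij hi hj δ)
        (c + sg δ * A i j)
      rw [nsq_mgA A hA hij δ, mm_mgA A hA c hij δ] at h1
      exact h1
    have hnn : ∀ δ : ℤˣ, 0 ≤ mm A c + sg δ * bb A c i j := by
      intro δ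
      rw [← mm_mgA A hA c hij δ]
      exact mm_nonneg _ _
    have hul := u_le A hA hij
    have hti := infl_le A hA c i
    have htj := infl_le A hA c j
    have hm2 : mm A c ^ 2 ≤ 1 / 4 := by nlinarith
    set a := |A i j| with ha
    set u := 2 * |ta A i j| with hu
    have hu0 : 0 ≤ u := by positivity
    have ha0 : 0 ≤ a := abs_nonneg _
    have ha2 : a ^ 2 = A i j ^ 2 := sq_abs _
    have hw : a ^ 2 ≤ 1 - ww A i j := by
      unfold ww
      rw [ha2]
      nlinarith
    have hy2 : Real.sqrt (1 - ww A i j) ^ 2 = 1 - ww A i j :=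
      Real.sq_sqrt (by nlinarith [sq_nonneg a])
    have hp2 : Real.sqrt u ^ 2 = u := Real.sq_sqrt hu0
    set y := Real.sqrt (1 - ww A i j) with hy
    set p := Real.sqrt u with hp
    have hy0 : 0 ≤ y := Real.sqrt_nonneg _
    have hp0 : 0 ≤ p := Real.sqrt_nonneg _
    have hyw : y ^ 2 = 1 - A i j ^ 2 - u := by rw [hy2]; unfold ww; ring
    have haz : a ≤ y := by
      apply le_of_sq_le_sq _ hy0
      rw [hy2]; exact hw
    -- values of merged forms
    have hA1 : p ≤ mm A c + sg ε * bb A c i j := by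
      have h1 := merged_linear A hA c hij ε
      rw [mm_mgA A hA c hij ε] at h1
      have h2 : p ^ 2 ≤ (mm A c + sg ε * bb A c i j) ^ 2 := by
        rw [hp2]
        have h3 : 2 * sg ε * ta A i j = u := by rw [hu]; linarith
        nlinarith
      exact le_of_sq_le_sq h2 (hnn ε)
    have hA2 : y / 2 ≤ mm A c - sg ε * bb A c i j := by
      have h1 := key (-ε)
      rw [hneg] at h1
      have h2 : (y / 2) ^ 2 ≤ (mm A c - sg ε * bb A c i j) ^ 2 := by
        have h3 : 2 * sg ε * ta A i j = u := by rw [hu]; linarith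
        have h4 : 2 * -sg ε * ta A i j = - u := by linarith
        rw [hn] at h1
        have e : mm A c + -sg ε * bb A c i j = mm A c - sg ε * bb A c i j := by ring
        rw [e] at h1
        nlinarith
      have h5 := hnn (-ε)
      rw [hneg] at h5
      exact le_of_sq_le_sq h2 (by linarith)
    have hA3 : |c - sg ε * A i j| ≤ mm A c - sg ε * bb A c i j := by
      have h1 := abs_c_le (mgA A i j (-ε)) (mgA_SZ A hA hij (-ε)) (c + sg (-ε) * A i j)
      rw [mm_mgA A hA c hij (-ε), hneg] at h1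
      have e1 : c + -sg ε * A i j = c - sg ε * A i j := by ring
      have e2 : mm A c + -sg ε * bb A c i j = mm A c - sg ε * bb A c i j := by ring
      rw [e1, e2] at h1
      exact h1
    have hA4 : y / 2 ≤ mm A c + sg ε * bb A c i j := by
      have h1 := key ε
      have h2 : (y / 2) ^ 2 ≤ (mm A c + sg ε * bb A c i j) ^ 2 := by
        have h3 : 2 * sg ε * ta A i j = u := by rw [hu]; linarith
        rw [hn] at h1
        nlinarith
      exact le_of_sq_le_sq h2 (hnn ε)
    refine ⟨a, p, y, ha0, hp0, hy0, ?_, ?_, haz, ?_, ?_, ha2, ?_⟩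
    · rw [hp2, hyw, ha2]; ring
    · linarith
    · have h1 : |sg ε * A i j| = a := by
        rw [abs_mul]
        have : |sg ε| = 1 := by
          rcases Int.units_eq_one_or ε with h | h <;> simp [h, sg]
        rw [this, one_mul]
      have h2 : |sg ε * A i j| ≤ |c| + |c - sg ε * A i j| := by
        have := abs_sub_abs_le_abs_sub (sg ε * A i j) c
        rw [abs_sub_comm] at this
        linarith
      rw [h1] at h2
      linarith
    · rw [hy2]; ring
    · have h2 : (sg ε * bb A c i j) ^ 2 ≤ ((1 - y) / 2) ^ 2 :=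
        sq_le_sq' (by linarith) (by linarith)
      have h3 : (sg ε * bb A c i j) ^ 2 = bb A c i j ^ 2 := by
        have := sg_mul_self ε
        calc (sg ε * bb A c i j) ^ 2 = (sg ε * sg ε) * bb A c i j ^ 2 := by ring
          _ = bb A c i j ^ 2 := by rw [this]; ring
      have h4 : ((1 - y) / 2) ^ 2 = (1 - y) ^ 2 / 4 := by ring
      rw [h3, h4] at h2
      linarith
  · -- one of the rows is zero
    have hb : bb A c i j = 0 := by
      rw [not_and_or] at hz
      rcases hz with h | h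
      · push Not at h
        rw [bb_symm]
        exact bb_zero_right A hA c hij.symm h
      · push Not at h
        exact bb_zero_right A hA c hij h
    have h0 : A i j = 0 ∧ ta A i j = 0 := by
      rw [not_and_or] at hz
      rcases hz with h | h
      · push Not at h
        refine ⟨h j, ?_⟩
        unfold ta
        exact Finset.sum_eq_zero (fun k _ => by rw [h k]; ring)
      · push Not at h
        refine ⟨by rw [hA.symm]; exact h i, ?_⟩
        unfold ta
        exact Finset.sum_eq_zero (fun k _ => by rw [h k]; ring)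
    refine ⟨0, 0, 1, le_refl _, le_refl _, by norm_num, by norm_num, by norm_num, by norm_num,
      ?_, ?_, ?_, ?_⟩
    · have := abs_nonneg c; linarith
    · unfold ww; rw [h0.1, h0.2]; simp
    · rw [h0.1]
    · rw [hb]; norm_num

theorem level_pair (A : ι → ι → ℝ) (hA : SZ A) (hn : nsq A = 1) (ih : IH ι (nzr A)) (c : ℝ)
    (hm : mm A c < 1 / 2) (K : ι → ι → ℝ)
    (hK : ∀ i j, i ≠ j → ∀ a p y : ℝ, 0 ≤ a → 0 ≤ p → 0 ≤ y → a ^ 2 + p ^ 2 + y ^ 2 = 1 →
      p + y / 2 < 1 → a ≤ y → p + a ≤ 1 + |c| → 1 - y ^ 2 = ww A i j → a ^ 2 = A i j ^ 2 →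
      (1 - y) ^ 2 ≤ K i j) :
    4 + 16 * c ^ 2 < osum K := by
  have h2 := level_two A hA c
  have hm0 := mm_nonneg A c
  have hb : osum (fun i j => 4 * bb A c i j ^ 2) ≤ osum K := by
    apply osum_mono
    intro i j hij
    obtain ⟨a, p, y, h1, h2, h3, h4, h5, h6, h7, h8, h9, h10⟩ := pair A hA hn ih c hm hij
    exact h10.trans (hK i j hij a p y h1 h2 h3 h4 h5 h6 h7 h8 h9)
  rw [osum_mul] at hb
  rw [hn] at h2
  nlinarith

theorem T4_le_top (A : ι → ι → ℝ) (x : ℝ)
    (hx : ∀ y : ι → ℝ, ∑ i, (∑ j, A i j * y j) ^ 2 ≤ x * ∑ i, y i ^ 2) :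
    T4 A ≤ x * (2 * nsq A) := by
  unfold T4 nsq
  have e : x * (2 * (1 / 2 * ∑ i, ∑ j, A i j ^ 2)) = ∑ i, x * ∑ j, A i j ^ 2 := by
    rw [← Finset.mul_sum]; ring
  rw [e]
  refine Finset.sum_le_sum (fun i _ => ?_)
  have := hx (A i)
  refine le_trans (le_of_eq ?_) this
  refine Finset.sum_congr rfl (fun j _ => ?_)
  unfold ta
  congr 1
  exact Finset.sum_congr rfl (fun k _ => mul_comm _ _)

theorem bound_one (A : ι → ι → ℝ) (hA : SZ A) (hn : nsq A = 1) (ih : IH ι (nzr A)) (c : ℝ)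
    (hm : mm A c < 1 / 2) (hc : |c| ≤ 27 / 200) :
    (195 / 100 + 3 * |c| ^ 2) * (81 / 50) ≤ T4 A := by
  have h := level_pair A hA hn ih c hm
    (fun i j => (25 / 81) * ww A i j ^ 2 + ((25 / 27) * A i j ^ 4 + (1 / 20 + 5 * c ^ 2) * A i j ^ 2))
    (by
      intro i j hij a p y h1 h2 h3 h4 h5 h6 h7 h8 h9
      have := P1 a p y |c| h1 h2 h3 h4 h5 h6 h7 (abs_nonneg c) hc
      rw [h8, sq_abs] at this
      have e : a ^ 4 = A i j ^ 4 := by
        calc a ^ 4 = (a ^ 2) ^ 2 := by ring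
          _ = A i j ^ 4 := by rw [h9]; ring
      rw [e, h9] at this
      linarith)
  rw [osum_add, osum_mul, osum_add, osum_mul, osum_mul, osum_sq A hA, hn, osum_four A hA] at h
  have h2 := W2 A hA
  rw [sq_abs]
  linarith

theorem quart_le (A : ι → ι → ℝ) (hA : SZ A) (hn : nsq A = 1) (c : ℝ) (hm : mm A c < 1 / 2) :
    ∑ i, ∑ j, A i j ^ 4 ≤ 1 := by
  have hm0 := mm_nonneg A c
  have h1 : ∀ i j, A i j ^ 4 ≤ (1 / 2) * A i j ^ 2 := by
    intro i j
    have h2 : A i j ^ 2 ≤ th A i := by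
      unfold th
      exact Finset.single_le_sum (f := fun j => A i j ^ 2) (fun _ _ => sq_nonneg _)
        (Finset.mem_univ j)
    have h3 := infl_le A hA c i
    have h4 : mm A c ^ 2 ≤ 1 / 4 := by nlinarith
    nlinarith [sq_nonneg (A i j)]
  calc ∑ i, ∑ j, A i j ^ 4 ≤ ∑ i, ∑ j, (1 / 2) * A i j ^ 2 :=
        Finset.sum_le_sum (fun i _ => Finset.sum_le_sum (fun j _ => h1 i j))
    _ = nsq A := by
        unfold nsq
        rw [Finset.mul_sum]
        exact Finset.sum_congr rfl (fun i _ => (Finset.mul_sum _ _ _).symm)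
    _ = 1 := hn

theorem bound_two (A : ι → ι → ℝ) (hA : SZ A) (hn : nsq A = 1) (ih : IH ι (nzr A)) (c : ℝ)
    (hm : mm A c < 1 / 2) (hc : 27 / 200 ≤ |c|) (x : ℝ) (hx2 : x ≤ 2) (hx0 : 0 ≤ x)
    (hx : ∀ y : ι → ℝ, ∑ i, (∑ j, A i j * y j) ^ 2 ≤ x * ∑ i, y i ^ 2)
    (hT : T4 A ≤ x ^ 2 + (2 - x) ^ 2) (hTx : x ^ 2 ≤ T4 A) : False := by
  have hcm := abs_c_le A hA c
  have hc2 : |c| ≤ 1 / 2 := by linarith
  have hT2 := T4_le_top A x hx
  rw [hn] at hT2
  have hW2 := W2 A hA
  have hcc : (27 / 200 : ℝ) ^ 2 ≤ c ^ 2 := by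
    rw [← sq_abs c]
    nlinarith
  rcases le_or_gt (4 * (475 / 2916) * x) 1 with hcase | hcase
  · -- case of small x
    have h := level_pair A hA hn ih c hm
      (fun i j => (41 / 100) * ww A i j ^ 2 + (123 / 100) * A i j ^ 4)
      (by
        intro i j hij a p y h1 h2 h3 h4 h5 h6 h7 h8 h9
        have := P3 a p y h1 h2 h3 h4 h5 h6
        rw [h8] at this
        have e : a ^ 4 = A i j ^ 4 := by
          calc a ^ 4 = (a ^ 2) ^ 2 := by ring
            _ = A i j ^ 4 := by rw [h9]; ring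
        rw [e] at this
        linarith)
    rw [osum_add, osum_mul, osum_mul, osum_four A hA] at h
    have hT4 : T4 A ≤ 26 / 10 := by
      rcases le_or_gt x 1 with h1 | h1
      · linarith
      · nlinarith
    linarith
  · have hW3 := W3 A hA x hx
    have hI4 := I4 A hA
    have hQ := quart_le A hA hn c hm
    have h := level_pair A hA hn ih c hm
      (fun i j => (1 / 4) * ww A i j ^ 2 + ((475 / 2916) * ww A i j ^ 3
        + ((8 * c ^ 2 - 67 / 1000) * A i j ^ 2 + ((- (9 / 20)) * A i j ^ 4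
          + ((475 / 2916) * (ww A i j ^ 2 * A i j ^ 2)
            + (475 / 972) * (A i j ^ 4 * (ww A i j + A i j ^ 2)))))))
      (by
        intro i j hij a p y h1 h2 h3 h4 h5 h6 h7 h8 h9
        have := P2 a p y |c| h1 h2 h3 h4 h5 h6 h7 hc hc2
        rw [h8, sq_abs, h9] at this
        nlinarith)
    rw [osum_add, osum_mul, osum_add, osum_mul, osum_add, osum_mul, osum_add, osum_mul,
      osum_add, osum_mul, osum_mul, osum_sq A hA, hn, osum_four A hA] at h
    rw [hn] at hI4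
    set Q := ∑ i, ∑ j, A i j ^ 4 with hQd
    have hQ0 : 0 ≤ Q := Finset.sum_nonneg (fun i _ => Finset.sum_nonneg (fun j _ => by positivity))
    have hG := Gamma_ineq x (Q / 2) hx0 hx2 (by linarith) (by linarith)
    set Θ := ∑ i, th A i ^ 2 with hΘ
    have h3 : 4 * (475 / 2916) * x * (2 * Θ) ≤ 4 * (475 / 2916) * x * (4 - T4 A + Q) := by
      apply mul_le_mul_of_nonneg_left
      · linarith
      · linarith
    have h4 : 0 ≤ (4 * (475 / 2916) * x - 1) * (T4 A - x ^ 2) :=
      mul_nonneg (by linarith) (by linarith)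
    nlinarith

theorem mm_neg (A : ι → ι → ℝ) (c : ℝ) : mm (fun i j => - A i j) (-c) = mm A c := by
  unfold mm
  congr 1
  funext x
  have h : qf (fun i j => - A i j) x = - qf A x := by
    unfold qf
    rw [← mul_neg, ← Finset.sum_neg_distrib]
    congr 1
    refine Finset.sum_congr rfl (fun i _ => ?_)
    rw [← Finset.sum_neg_distrib]
    exact Finset.sum_congr rfl (fun j _ => by ring)
  rw [h, ← neg_add, abs_neg]

theorem nsq_neg (A : ι → ι → ℝ) : nsq (fun i j => - A i j) = nsq A := by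
  unfold nsq
  congr 1
  refine Finset.sum_congr rfl (fun i _ => Finset.sum_congr rfl (fun j _ => ?_))
  ring

theorem small_c (A : ι → ι → ℝ) (hA : SZ A) (hn : nsq A = 1) (ih : IH ι (nzr A)) (c : ℝ)
    (hm : mm A c < 1 / 2) (hc : |c| ≤ 27 / 200) (lam : ℝ) (v : ι → ℝ)
    (hv : ∑ i, v i ^ 2 = 1) (he : ∀ i, ∑ j, A i j * v j = lam * v i)
    (hx : ∀ y : ι → ℝ, ∑ i, (∑ j, A i j * y j) ^ 2 ≤ lam ^ 2 * ∑ i, y i ^ 2) : False := by
  have hb1 := bound_one A hA hn ih c hm hc
  have hT2 := T4_le_top A (lam ^ 2) hx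
  rw [hn] at hT2
  obtain ⟨hs1, hs2, hs3, hs4, hs5⟩ := spectral A hA hn lam v hv he
  have hm0 := mm_nonneg A c
  have key : ∀ (A' : ι → ι → ℝ) (c' lam' : ℝ), SZ A' → nsq A' = 1 →
      (∀ i, ∑ j, A' i j * v j = lam' * v i) → 0 ≤ lam' → lam' ^ 2 = lam ^ 2 → |c'| = |c| →
      mm A' c' = mm A c → False := by
    intro A' c' lam' hA' hn' he' hl0 hl hcc hmm
    obtain ⟨hf1, hf2⟩ := Fin1 (T4 A) (lam ^ 2) |c| lam' hb1 (by linarith [hs2, sq_nonneg lam,
      (by ring : lam ^ 4 = (lam ^ 2) ^ 2)]) (by linarith) hs1 hl0 hl (abs_nonneg c) hc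
    have hF2 := Fin2 (lam ^ 2) |c| lam' hs1 hl0 hl hf1 hf2 (abs_nonneg c) hc
    have hxpos : 0 < lam ^ 2 := by linarith
    have hsmall : ∀ i, (11 / 5) * v i ^ 2 ≤ 63 / 100 := by
      intro i
      have h1 := hs5 i
      have h2 := infl_le A hA c i
      have h3 : mm A c ^ 2 ≤ 1 / 4 := by nlinarith
      have h4 : (7 / 4) * v i ^ 2 ≤ lam ^ 2 * v i ^ 2 :=
        mul_le_mul_of_nonneg_right hf1 (sq_nonneg _)
      linarith
    have hs : ∑ i, v i ^ 4 ≤ (2 - lam ^ 2) / lam ^ 2 := by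
      rw [le_div_iff₀ hxpos]
      linarith
    have hcle : c' ≤ |c| := hcc ▸ le_abs_self c'
    have hT := test_bound A' hA' hn' c' lam' v hv he' hsmall _ hs (by linarith)
    have hc2 : c' ^ 2 = |c| ^ 2 := by rw [← hcc, sq_abs]
    rw [hc2, hmm] at hT
    have h6 : (2 / Real.sqrt 3) * ((11/10) * lam' - |c|) * Real.exp (-(11/10))
        ≤ (2 / Real.sqrt 3) * ((11/10) * lam' - c') * Real.exp (-(11/10)) := by
      apply mul_le_mul_of_nonneg_right _ (Real.exp_pos _).le
      apply mul_le_mul_of_nonneg_left _ (by positivity)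
      linarith
    linarith
  rcases le_total 0 lam with h0 | h0
  · exact key A c lam hA hn he h0 rfl rfl rfl
  · refine key (fun i j => - A i j) (-c) (-lam) ⟨fun i j => by simp only [hA.symm i j],
      fun i => by simp only [hA.diag, neg_zero]⟩ (by rw [nsq_neg, hn]) ?_ (by linarith) (by ring)
      (abs_neg c) (mm_neg A c)
    intro i
    have := he i
    calc ∑ j, - A i j * v j = - ∑ j, A i j * v j := by
          rw [← Finset.sum_neg_distrib]
          exact Finset.sum_congr rfl (fun j _ => by ring)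
      _ = -lam * v i := by rw [this]; ring

theorem step (A : ι → ι → ℝ) (hA : SZ A) (hn : nsq A = 1) (ih : IH ι (nzr A)) (c : ℝ) :
    1 / 2 ≤ mm A c := by
  by_contra hcon
  push Not at hcon
  have hne : Nonempty ι := by
    by_contra h
    rw [not_nonempty_iff] at h
    have : nsq A = 0 := by unfold nsq; simp
    rw [this] at hn
    norm_num at hn
  obtain ⟨lam, v, hv, he, hx⟩ := exists_top A hA hne
  rcases le_or_gt |c| (27 / 200) with hc | hc
  · exact small_c A hA hn ih c hcon hc lam v hv he hx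
  · obtain ⟨hs1, hs2, hs3, hs4, hs5⟩ := spectral A hA hn lam v hv he
    have e : lam ^ 4 = (lam ^ 2) ^ 2 := by ring
    rw [e] at hs2 hs3
    exact bound_two A hA hn ih c hcon hc.le (lam ^ 2) hs1 (sq_nonneg _) hx hs2 hs3

theorem mm_smul (A : ι → ι → ℝ) (c t : ℝ) (ht : 0 ≤ t) :
    mm (fun i j => t * A i j) (t * c) = t * mm A c := by
  have h : ∀ x, |t * c + qf (fun i j => t * A i j) x| = t * |c + qf A x| := by
    intro x
    have h1 : qf (fun i j => t * A i j) x = t * qf A x := by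
      unfold qf
      have h2 : ∀ i, ∑ j, t * A i j * sg (x i) * sg (x j)
          = t * ∑ j, A i j * sg (x i) * sg (x j) := by
        intro i
        rw [Finset.mul_sum]
        exact Finset.sum_congr rfl (fun j _ => by ring)
      simp only [h2]
      rw [← Finset.mul_sum]
      ring
    rw [h1, ← mul_add, abs_mul, abs_of_nonneg ht]
  unfold mm E
  simp only [h]
  rw [← Finset.mul_sum, mul_div_assoc]

theorem nsq_smul (A : ι → ι → ℝ) (t : ℝ) : nsq (fun i j => t * A i j) = t ^ 2 * nsq A := by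
  unfold nsq
  have h2 : ∀ i, ∑ j, (t * A i j) ^ 2 = t ^ 2 * ∑ j, A i j ^ 2 := by
    intro i
    rw [Finset.mul_sum]
    exact Finset.sum_congr rfl (fun j _ => by ring)
  simp only [h2]
  rw [← Finset.mul_sum]
  ring

theorem nzr_smul (A : ι → ι → ℝ) (t : ℝ) (ht : t ≠ 0) : nzr (fun i j => t * A i j) = nzr A := by
  classical
  unfold nzr
  congr 1
  ext k
  simp [ht]

theorem nsq_nonneg (A : ι → ι → ℝ) : 0 ≤ nsq A := by
  unfold nsq
  have : 0 ≤ ∑ i, ∑ j, A i j ^ 2 :=
    Finset.sum_nonneg (fun i _ => Finset.sum_nonneg (fun j _ => sq_nonneg _))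
  linarith

theorem ih_all (N : ℕ) : IH ι N := by
  induction N with
  | zero => intro A hA h; exact absurd h (Nat.not_lt_zero _)
  | succ N ihN =>
    intro A hA hlt c
    have ih : IH ι (nzr A) := fun A' hA' h' c' => ihN A' hA' (by omega) c'
    rcases (nsq_nonneg A).eq_or_lt with h0 | hpos
    · rw [← h0]; positivity
    · set r := Real.sqrt (nsq A) with hr
      have hr0 : 0 < r := Real.sqrt_pos.mpr hpos
      have hr2 : r ^ 2 = nsq A := Real.sq_sqrt hpos.le
      have ht : r⁻¹ ≠ 0 := inv_ne_zero hr0.ne'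
      have h1 := step (fun i j => r⁻¹ * A i j)
        ⟨fun i j => by simp only [hA.symm i j], fun i => by simp only [hA.diag, mul_zero]⟩
        (by rw [nsq_smul, ← hr2]; field_simp)
        (by rw [nzr_smul A _ ht]; exact ih) (r⁻¹ * c)
      rw [mm_smul A c _ (inv_nonneg.mpr hr0.le)] at h1
      have h2 : r ≤ 2 * mm A c := by
        have := mul_le_mul_of_nonneg_left h1 hr0.le
        rw [← mul_assoc, mul_inv_cancel₀ hr0.ne', one_mul] at this
        linarith
      rw [← hr2]
      nlinarith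

/-- **(H)** for every real `c` and every homogeneous quadratic form,
`‖q‖₂² ≤ 4 (E|c+q|)²`. -/
theorem main_H (A : ι → ι → ℝ) (hA : SZ A) (c : ℝ) : nsq A ≤ 4 * mm A c ^ 2 :=
  ih_all (nzr A + 1) A hA (Nat.lt_succ_self _) c

end Pool.Agent.Boole2
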