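import Pool.Agent.Boole2.Defs

/-! Boole2: expectation of products over the cube, Riesz products against a quadratic form. -/

open Finset

namespace Pool.Agent.Boole2.TestC

variable {ι : Type*} [Fintype ι] [DecidableEq ι]

theorem sum_prod_cube (φ : ι → ℤˣ → ℂ) :
    ∑ x : ι → ℤˣ, ∏ k, φ k (x k) = ∏ k, (φ k 1 + φ k (-1)) := by
  have h := (Finset.prod_univ_sum (fun _ : ι => (univ : Finset ℤˣ)) φ).symm
  rw [Fintype.piFinset_univ] at h
  rw [h]
  refine Finset.prod_congr rfl fun k _ => ?_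
  rw [UnitsInt.univ, Finset.sum_pair (by decide)]

/-- the Riesz type product -/
noncomputable def Zf (g h : ι → ℝ) (x : ι → ℤˣ) : ℂ := ∏ k, ((g k : ℂ) + Complex.I * h k * sg (x k))

theorem sgC_one : sg 1 = 1 := by simp [sg]
theorem sgC_neg (u : ℤˣ) : sg (-u) = - sg u := by simp [sg]
theorem sgC_sq (u : ℤˣ) : sg u ^ 2 = 1 := by
  rcases Int.units_eq_one_or u with h | h <;> simp [h, sg]

theorem sum_Zf (g h : ι → ℝ) :
    ∑ x : ι → ℤˣ, Zf g h x = 2 ^ Fintype.card ι * ∏ k, (g k : ℂ) := by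
  unfold Zf
  rw [sum_prod_cube (fun k u => (g k : ℂ) + Complex.I * h k * sg u)]
  rw [Finset.prod_congr rfl (g := fun k => 2 * (g k : ℂ))
    (fun k _ => by simp only [sgC_neg, sgC_one]; push_cast; ring)]
  rw [Finset.prod_mul_distrib]
  simp

/-- product over all coordinates except `i`, `j` -/
noncomputable def prd (g : ι → ℝ) (i j : ι) : ℝ := ∏ k, if k = i ∨ k = j then 1 else g k

theorem sum_Zf_pair (g h : ι → ℝ) {i j : ι} (hij : i ≠ j) :
    ∑ x : ι → ℤˣ, (sg (x i) * sg (x j) : ℂ) * Zf g h x =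
      - (2 ^ Fintype.card ι * ((h i * h j * prd g i j : ℝ) : ℂ)) := by
  have h1 : ∀ x : ι → ℤˣ, (sg (x i) * sg (x j) : ℂ) * Zf g h x =
      ∏ k, ((if k = i ∨ k = j then (sg (x k) : ℂ) else 1) *
        ((g k : ℂ) + Complex.I * h k * sg (x k))) := by
    intro x
    rw [Finset.prod_mul_distrib]
    congr 1
    rw [Finset.prod_ite]
    have : (univ.filter fun k => k = i ∨ k = j) = {i, j} := by ext k; simp
    rw [this, Finset.prod_pair hij]
    simp
  rw [Finset.sum_congr rfl (fun x _ => h1 x)]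
  rw [sum_prod_cube (fun k u => (if k = i ∨ k = j then (sg u : ℂ) else 1) *
        ((g k : ℂ) + Complex.I * h k * sg u))]
  have h2 : ∀ k, ((if k = i ∨ k = j then (sg 1 : ℂ) else 1) *
        ((g k : ℂ) + Complex.I * h k * sg 1)) + ((if k = i ∨ k = j then (sg (-1) : ℂ) else 1) *
        ((g k : ℂ) + Complex.I * h k * sg (-1))) =
      2 * ((if k = i ∨ k = j then Complex.I * h k else 1) *
        ((if k = i ∨ k = j then (1 : ℝ) else g k : ℝ) : ℂ)) := by
    intro k
    by_cases hk : k = i ∨ k = j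
    · simp only [hk, if_true, sgC_neg, sgC_one]
      push_cast
      ring
    · simp only [hk, if_false, sgC_neg, sgC_one]
      push_cast
      ring
  rw [Finset.prod_congr rfl (fun k _ => h2 k)]
  rw [Finset.prod_mul_distrib, Finset.prod_mul_distrib]
  have h3 : (∏ k, if k = i ∨ k = j then Complex.I * (h k : ℂ) else 1) = - (h i * h j) := by
    rw [Finset.prod_ite]
    have : (univ.filter fun k => k = i ∨ k = j) = {i, j} := by ext k; simp
    rw [this, Finset.prod_pair hij, Finset.prod_const_one, mul_one]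
    linear_combination ((h i : ℂ) * h j) * Complex.I_mul_I
  rw [h3]
  unfold prd
  simp only [prod_const, card_univ]
  push_cast
  ring

/-- pairing of `c + q` with a Riesz product -/
theorem sum_f_Zf (A : ι → ι → ℝ) (hA : SZ A) (c : ℝ) (g h : ι → ℝ) :
    ∑ x : ι → ℤˣ, ((c + qf A x : ℝ) : ℂ) * Zf g h x =
      2 ^ Fintype.card ι *
        ((c * ∏ k, g k - (1/2) * ∑ i, ∑ j, A i j * (h i * h j * prd g i j) : ℝ) : ℂ) := by
  have h1 : ∀ x : ι → ℤˣ, ((c + qf A x : ℝ) : ℂ) * Zf g h x =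
      c * Zf g h x + (1/2) * ∑ i, ∑ j, (A i j : ℂ) * ((sg (x i) * sg (x j) : ℂ) * Zf g h x) := by
    intro x
    unfold qf
    push_cast
    rw [add_mul, mul_assoc, Finset.sum_mul]
    congr 2
    refine Finset.sum_congr rfl fun i _ => ?_
    rw [Finset.sum_mul]
    refine Finset.sum_congr rfl fun j _ => ?_
    ring
  rw [Finset.sum_congr rfl (fun x _ => h1 x), Finset.sum_add_distrib, ← Finset.mul_sum,
    ← Finset.mul_sum, sum_Zf]
  rw [Finset.sum_comm]
  have h2 : ∀ i, ∑ x : ι → ℤˣ, ∑ j, (A i j : ℂ) * ((sg (x i) * sg (x j) : ℂ) * Zf g h x) =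
      - (2 ^ Fintype.card ι * ((∑ j, A i j * (h i * h j * prd g i j) : ℝ) : ℂ)) := by
    intro i
    rw [Finset.sum_comm]
    push_cast
    rw [Finset.mul_sum, ← Finset.sum_neg_distrib]
    refine Finset.sum_congr rfl fun j _ => ?_
    rw [← Finset.mul_sum]
    by_cases hij : i = j
    · subst hij
      simp [hA.diag i]
    · rw [sum_Zf_pair g h hij]
      push_cast
      ring
  rw [Finset.sum_congr rfl (fun i _ => h2 i), Finset.sum_neg_distrib, ← Finset.mul_sum]
  push_cast
  ring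

/-- real version -/
theorem E_f_Zf (A : ι → ι → ℝ) (hA : SZ A) (c : ℝ) (g h : ι → ℝ) :
    E (fun x => (c + qf A x) * (Zf g h x).re) =
      c * ∏ k, g k - (1/2) * ∑ i, ∑ j, A i j * (h i * h j * prd g i j) := by
  have h0 := congrArg Complex.re (sum_f_Zf A hA c g h)
  rw [Complex.re_sum] at h0
  have h2 : ∀ x : ι → ℤˣ, (((c + qf A x : ℝ) : ℂ) * Zf g h x).re = (c + qf A x) * (Zf g h x).re := by
    intro x
    rw [Complex.re_ofReal_mul]
  rw [Finset.sum_congr rfl (fun x _ => h2 x)] at h0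
  have h3 : (2 : ℂ) ^ Fintype.card ι = (((2 : ℝ) ^ Fintype.card ι : ℝ) : ℂ) := by push_cast; rfl
  rw [h3, ← Complex.ofReal_mul, Complex.ofReal_re] at h0
  unfold E
  rw [h0]
  field_simp

theorem norm_Zf (g h : ι → ℝ) (hgh : ∀ k, g k ^ 2 + h k ^ 2 = 1) (x : ι → ℤˣ) :
    (Zf g h x).re ^ 2 + (Zf g h x).im ^ 2 = 1 := by
  have h1 : Complex.normSq (Zf g h x) = 1 := by
    unfold Zf
    rw [map_prod]
    refine Finset.prod_eq_one fun k _ => ?_
    have : (g k : ℂ) + Complex.I * h k * sg (x k) = ((g k : ℝ) : ℂ) + ((h k * sg (x k) : ℝ) : ℂ) * Complex.I := by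
      push_cast; ring
    rw [this, Complex.normSq_add_mul_I]
    have h2 := sgC_sq (x k)
    rw [mul_pow, h2, mul_one]
    exact hgh k
  rw [Complex.normSq_apply] at h1
  linarith [h1, sq (Zf g h x).re, sq (Zf g h x).im]

/-- the combinatorial inequality behind the level `{0,2}` mass of a product -/
theorem level02_le (a b : ι → ℝ) (ha : ∀ k, 0 ≤ a k) (hb : ∀ k, 0 ≤ b k) (s : Finset ι) :
    (∏ k ∈ s, a k) + (∑ i ∈ s, b i * ∏ k ∈ s.erase i, a k) +
      (1/2) * (∑ i ∈ s, ∑ j ∈ s.erase i, b i * b j * ∏ k ∈ (s.erase i).erase j, a k) ≤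
      ∏ k ∈ s, (a k + b k) := by
  induction s using Finset.induction_on with
  | empty => simp
  | insert m s hm ih =>
    have hmi : ∀ i ∈ s, i ≠ m := fun i hi h => hm (h ▸ hi)
    have e1 : ∀ i ∈ s, (insert m s).erase i = insert m (s.erase i) := fun i hi =>
      Finset.erase_insert_of_ne (hmi i hi).symm
    have hme : ∀ i, m ∉ s.erase i := fun i h => hm (Finset.mem_of_mem_erase h)
    have E1 : (∑ i ∈ insert m s, b i * ∏ k ∈ (insert m s).erase i, a k) =
        b m * (∏ k ∈ s, a k) + a m * ∑ i ∈ s, b i * ∏ k ∈ s.erase i, a k := by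
      rw [Finset.sum_insert hm, Finset.erase_insert hm, Finset.mul_sum]
      congr 1
      refine Finset.sum_congr rfl fun i hi => ?_
      rw [e1 i hi, Finset.prod_insert (hme i)]
      ring
    have E2 : (∑ i ∈ insert m s, ∑ j ∈ (insert m s).erase i,
          b i * b j * ∏ k ∈ ((insert m s).erase i).erase j, a k) =
        2 * (b m * ∑ i ∈ s, b i * ∏ k ∈ s.erase i, a k) +
          a m * ∑ i ∈ s, ∑ j ∈ s.erase i, b i * b j * ∏ k ∈ (s.erase i).erase j, a k := by
      rw [Finset.sum_insert hm, Finset.erase_insert hm]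
      have h3 : ∀ i ∈ s, (∑ j ∈ (insert m s).erase i,
          b i * b j * ∏ k ∈ ((insert m s).erase i).erase j, a k) =
          b m * (b i * ∏ k ∈ s.erase i, a k) +
          a m * ∑ j ∈ s.erase i, b i * b j * ∏ k ∈ (s.erase i).erase j, a k := by
        intro i hi
        rw [e1 i hi, Finset.sum_insert (hme i), Finset.erase_insert (hme i), Finset.mul_sum]
        congr 1
        · ring
        · refine Finset.sum_congr rfl fun j hj => ?_
          have hj' : m ≠ j := fun h => hme i (h ▸ hj)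
          rw [Finset.erase_insert_of_ne hj', Finset.prod_insert
            (fun h => hme i (Finset.mem_of_mem_erase h))]
          ring
      rw [Finset.sum_congr rfl h3, Finset.sum_add_distrib, ← Finset.mul_sum, ← Finset.mul_sum]
      have h4 : (∑ j ∈ s, b m * b j * ∏ k ∈ s.erase j, a k) =
          b m * ∑ i ∈ s, b i * ∏ k ∈ s.erase i, a k := by
        rw [Finset.mul_sum]
        refine Finset.sum_congr rfl fun j _ => ?_
        ring
      rw [h4]
      ring
    rw [E1, E2, Finset.prod_insert hm, Finset.prod_insert hm]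
    have hA0 : 0 ≤ ∏ k ∈ s, a k := Finset.prod_nonneg fun k _ => ha k
    have hE2 : 0 ≤ ∑ i ∈ s, ∑ j ∈ s.erase i, b i * b j * ∏ k ∈ (s.erase i).erase j, a k :=
      Finset.sum_nonneg fun i _ => Finset.sum_nonneg fun j _ =>
        mul_nonneg (mul_nonneg (hb i) (hb j)) (Finset.prod_nonneg fun k _ => ha k)
    nlinarith [mul_le_mul_of_nonneg_left ih (ha m), mul_le_mul_of_nonneg_left ih (hb m),
      mul_nonneg (hb m) hE2]

theorem prd_eq (g : ι → ℝ) {i j : ι} : prd g i j = ∏ k ∈ (univ.erase i).erase j, g k := by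
  unfold prd
  rw [Finset.prod_ite]
  simp only [prod_const_one, one_mul]
  refine Finset.prod_congr ?_ fun _ _ => rfl
  ext k
  simp [not_or, and_comm]

/-- level `{0,2}` mass of the product `∏ (g + i h x)` is at most `16 ∏ (g² + h²/4)` -/
theorem mass_le (g h : ι → ℝ) :
    (∏ k, g k) ^ 2 + (1/2) * (∑ i, ∑ j, if i = j then 0 else (h i * h j * prd g i j) ^ 2) ≤
      16 * ∏ k, (g k ^ 2 + h k ^ 2 / 4) := by
  have h1 := level02_le (fun k => g k ^ 2) (fun k => h k ^ 2 / 4) (fun k => sq_nonneg _)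
    (fun k => by positivity) (univ : Finset ι)
  have h2 : (∑ i, ∑ j, if i = j then 0 else (h i * h j * prd g i j) ^ 2) =
      16 * ∑ i ∈ (univ : Finset ι), ∑ j ∈ (univ : Finset ι).erase i,
        h i ^ 2 / 4 * (h j ^ 2 / 4) * ∏ k ∈ ((univ : Finset ι).erase i).erase j, g k ^ 2 := by
    rw [Finset.mul_sum]
    refine Finset.sum_congr rfl fun i _ => ?_
    rw [Finset.mul_sum, ← Finset.sum_erase (univ : Finset ι) (a := i)
      (f := fun j => if i = j then (0 : ℝ) else (h i * h j * prd g i j) ^ 2) (by simp)]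
    refine Finset.sum_congr rfl fun j hj => ?_
    have hij : i ≠ j := fun h => (Finset.mem_erase.1 hj).1 h.symm
    rw [if_neg hij, prd_eq, mul_pow, mul_pow, ← Finset.prod_pow]
    ring
  have h3 : 0 ≤ ∑ i ∈ (univ : Finset ι), h i ^ 2 / 4 * ∏ k ∈ (univ : Finset ι).erase i, g k ^ 2 :=
    Finset.sum_nonneg fun i _ => mul_nonneg (by positivity)
      (Finset.prod_nonneg fun k _ => sq_nonneg _)
  have h4 : 0 ≤ ∏ k, g k ^ 2 := Finset.prod_nonneg fun k _ => sq_nonneg _
  rw [h2, ← Finset.prod_pow]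
  linarith

/-- Cauchy-Schwarz for the pairing -/
theorem pairing_le (A : ι → ι → ℝ) (hA : SZ A) (c : ℝ) (g h : ι → ℝ) :
    (c * ∏ k, g k - (1/2) * ∑ i, ∑ j, A i j * (h i * h j * prd g i j)) ^ 2 ≤
      (c ^ 2 + nsq A) * (16 * ∏ k, (g k ^ 2 + h k ^ 2 / 4)) := by
  have key : (c * ∏ k, g k - (1/2) * ∑ i, ∑ j, A i j * (h i * h j * prd g i j)) ^ 2 ≤
      (c ^ 2 + nsq A) * ((∏ k, g k) ^ 2 +
        (1/2) * (∑ i, ∑ j, if i = j then 0 else (h i * h j * prd g i j) ^ 2)) := by
    set G := ∏ k, g k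
    set B : ι × ι → ℝ := fun p => if p.1 = p.2 then 0 else h p.1 * h p.2 * prd g p.1 p.2 with hB
    have e1 : ∑ i, ∑ j, A i j * (h i * h j * prd g i j) = ∑ p : ι × ι, A p.1 p.2 * B p := by
      rw [Fintype.sum_prod_type]
      refine Finset.sum_congr rfl fun i _ => Finset.sum_congr rfl fun j _ => ?_
      simp only [hB]
      by_cases hij : i = j
      · subst hij; simp [hA.diag]
      · simp [hij]
    have e2 : (∑ i, ∑ j, if i = j then 0 else (h i * h j * prd g i j) ^ 2) =
        ∑ p : ι × ι, B p ^ 2 := by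
      rw [Fintype.sum_prod_type]
      refine Finset.sum_congr rfl fun i _ => Finset.sum_congr rfl fun j _ => ?_
      simp only [hB]
      by_cases hij : i = j <;> simp [hij]
    have e3 : nsq A = (1/2) * ∑ p : ι × ι, A p.1 p.2 ^ 2 := by
      unfold nsq
      rw [Fintype.sum_prod_type]
    rw [e1, e2, e3]
    have cs := Finset.sum_mul_sq_le_sq_mul_sq (univ : Finset (ι × ι)) (fun p => A p.1 p.2) B
    set S := ∑ p : ι × ι, A p.1 p.2 * B p
    set X := ∑ p : ι × ι, A p.1 p.2 ^ 2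
    set Y := ∑ p : ι × ι, B p ^ 2
    have hX : 0 ≤ X := Finset.sum_nonneg fun _ _ => sq_nonneg _
    have hY : 0 ≤ Y := Finset.sum_nonneg fun _ _ => sq_nonneg _
    -- (cG - S/2)^2 <= (c^2 + X/2)(G^2 + Y/2)
    have h5 : -(c * G * S) ≤ c ^ 2 * Y / 2 + X / 2 * G ^ 2 := by
      have h6 : (c * G * S) ^ 2 ≤ (c ^ 2 * Y / 2 + X / 2 * G ^ 2) ^ 2 := by
        nlinarith [sq_nonneg (c ^ 2 * Y / 2 - X / 2 * G ^ 2), mul_le_mul_of_nonneg_left cs
          (mul_nonneg (sq_nonneg c) (sq_nonneg G))]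
      have h7 : 0 ≤ c ^ 2 * Y / 2 + X / 2 * G ^ 2 := by positivity
      have := abs_le_of_sq_le_sq' h6 h7
      linarith [this.1]
    nlinarith [cs, h5]
  refine key.trans (mul_le_mul_of_nonneg_left (mass_le g h) ?_)
  have : 0 ≤ nsq A := by
    unfold nsq
    exact mul_nonneg (by norm_num) (Finset.sum_nonneg fun _ _ => Finset.sum_nonneg fun _ _ => sq_nonneg _)
  positivity

end Pool.Agent.Boole2.TestC
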